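import Mathlib

/-!
# Project DP (MP_4c4335_nt): definitions and the statements of the jobs

Values of integer polynomials at almost every point of the unit circle.
-/

set_option autoImplicit false

namespace Pool.Agent.K7.H54.DP

open Polynomial MeasureTheory

/-! ### The definitions of the problem -/

/-- the point of the unit circle -/
noncomputable def zz (θ : ℝ) : ℂ := Complex.exp (θ * Complex.I)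

/-- the weight of the coefficient vector `c 0, ..., c D` -/
def weight (D : ℕ) (c : ℕ → ℤ) : ℤ := ∑ j ∈ Finset.range (D + 1), (1 + |c j|)

/-- the value of the polynomial with the coefficients `c 0, ..., c D` -/
noncomputable def val (θ : ℝ) (D : ℕ) (c : ℕ → ℤ) : ℂ :=
  ∑ j ∈ Finset.range (D + 1), (c j : ℂ) * zz θ ^ j

/-- the logarithm with imaginary part in `[0, 2π)` -/
noncomputable def lg (w : ℂ) : ℂ := ⟨Real.log ‖w‖, toIcoMod Real.two_pi_pos 0 w.arg⟩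

/-- the set `S_n(θ)` -/
def S (n : ℕ) (θ : ℝ) : Set ℂ :=
  {s | ∃ (D : ℕ) (c : ℕ → ℤ), weight D c ≤ n ∧ val θ D c ≠ 0 ∧ s = lg (val θ D c)}

/-- `θ` has the property `DPV(n, R)` -/
def DPV (n : ℕ) (R : ℝ) (θ : ℝ) : Prop :=
  ∀ x : ℂ, -Real.log R ≤ x.re → x.re ≤ 0 → 0 ≤ x.im → x.im ≤ 2 * Real.pi →
    ∃ s ∈ S n θ, ‖x - s‖ ≤ 1 / 10

/-- `R_DPV(n, θ)` -/
noncomputable def RDPV (n : ℕ) (θ : ℝ) : EReal :=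
  sSup {x : EReal | ∃ R : ℝ, 0 < R ∧ DPV n R θ ∧ x = (R : EReal)}

/-! ### Notation for the proof -/

/-- the value of an integer polynomial -/
noncomputable def ev (P : ℤ[X]) (z : ℂ) : ℂ := (P.map (Int.castRingHom ℂ)).eval z

/-- the Mahler measure of an integer polynomial -/
noncomputable def MM (P : ℤ[X]) : ℝ := (P.map (Int.castRingHom ℂ)).mahlerMeasure

/-- all irreducible integer polynomials of degree at most `N` and Mahler measure at most `N ^ 3`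
are not too small at `z` -/
def Good (z : ℂ) (N : ℕ) : Prop := ∀ G : ℤ[X], Irreducible G → 1 ≤ G.natDegree → G.natDegree ≤ N →
  MM G ≤ (N : ℝ) ^ 3 → 1 ≤ (N : ℝ) ^ (60 * G.natDegree) * ‖ev G z‖

/-! ### The jobs -/

/-- JOB VDM -/
def StVdm : Prop := ∀ (m : ℕ) (v : Fin m → ℂ),
  ‖(Matrix.vandermonde v).det‖ ≤ m.factorial * ∏ i, (max 1 ‖v i‖) ^ (m - 1)

/-- JOB ROOT (from VDM): a small value is near a root -/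
def StRoot : Prop := ∀ G : ℤ[X], Irreducible G → 1 ≤ G.natDegree → ∀ z : ℂ,
  ∃ α : ℂ, ev G α = 0 ∧
    ‖z - α‖ ≤ 2 ^ G.natDegree * G.natDegree.factorial * MM G ^ G.natDegree * ‖ev G z‖

/-- JOB MODQ (from VDM): irreducible polynomials of small Mahler measure are determined modulo `q` -/
def StModq : Prop := ∀ (G₁ G₂ : ℤ[X]) (f q : ℕ) (T : ℝ), Irreducible G₁ → Irreducible G₂ →
  G₁.natDegree = f → G₂.natDegree = f → 1 ≤ f → MM G₁ ≤ T → MM G₂ ≤ T →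
  4 * (f : ℝ) ^ 2 * T ^ 4 < q → (∀ i, (q : ℤ) ∣ G₁.coeff i - G₂.coeff i) → G₁ = G₂ ∨ G₁ = -G₂

/-- JOB ARC -/
def StArc : Prop := ∀ (α : ℂ) (r : ℝ), 0 ≤ r →
  volume {θ : ℝ | θ ∈ Set.Icc 0 (2 * Real.pi) ∧ ‖zz θ - α‖ ≤ r} ≤ ENNReal.ofReal (20 * r)

/-- JOB AE (from ROOT, MODQ, ARC): Borel-Cantelli -/
def StAE : Prop := ∀ᵐ θ ∂(volume.restrict (Set.Icc (0 : ℝ) (2 * Real.pi))),
  ∃ N₀ : ℕ, ∀ N : ℕ, N₀ ≤ N → Good (zz θ) N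

/-- JOB FAC: products -/
def StFac : Prop := ∀ (z : ℂ) (N : ℕ), 1 ≤ N → Good z N → ∀ G : ℤ[X], G ≠ 0 → G.natDegree ≤ N →
  MM G ≤ (N : ℝ) ^ 3 → 1 ≤ (N : ℝ) ^ (60 * G.natDegree) * ‖ev G z‖

/-- JOB PIG: the pigeonhole principle -/
def StPig : Prop := ∀ (z : ℂ) (N H : ℕ) (t : ℝ), ‖z‖ = 1 → 1 ≤ N → 1 ≤ H → 0 < t → t ≤ 1 →
  (8 * N * H / t) ^ 2 < ((H : ℝ) + 1) ^ N →
  ∃ P : ℤ[X], P ≠ 0 ∧ P.natDegree < N ∧ (∀ i, |P.coeff i| ≤ (H : ℤ)) ∧ ‖ev P z‖ ≤ t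

/-- the multiples `X ^ i * P` of the elements of `Γ`, `i ≤ M`, as real polynomials -/
def Mult (Γ : Set ℤ[X]) (M : ℕ) : Set ℝ[X] :=
  {Q | ∃ P ∈ Γ, ∃ i ≤ M, Q = X ^ i * P.map (Int.castRingHom ℝ)}

/-- JOB GCD: the greatest common divisor and Bezout with bounded degrees -/
def StGcd : Prop := ∀ (Γ : Set ℤ[X]) (M : ℕ), (∃ P ∈ Γ, P ≠ 0) → (∀ P ∈ Γ, P.natDegree ≤ M) →
  ∃ G : ℤ[X], G ≠ 0 ∧ (∀ P ∈ Γ, G ∣ P) ∧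
    G.map (Int.castRingHom ℝ) ∈ Submodule.span ℝ (Mult Γ M)

/-- JOB ROUND: rounding -/
def StRound : Prop := ∀ (z : ℂ) (Γ : Set ℤ[X]) (M : ℕ) (H t : ℝ) (G : ℤ[X]) (s : ℝ), ‖z‖ = 1 →
  0 ≤ H → 0 ≤ t → (∀ P ∈ Γ, P.natDegree ≤ M ∧ (∀ i, |(P.coeff i : ℝ)| ≤ H) ∧ ‖ev P z‖ ≤ t) →
  G.map (Int.castRingHom ℝ) ∈ Submodule.span ℝ (Mult Γ M) →
  ∃ U : ℤ[X], U.natDegree ≤ 2 * M ∧
    (∀ i, |(U.coeff i : ℝ)| ≤ |s| * |(G.coeff i : ℝ)| + (2 * M + 1) * H) ∧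
    ‖ev U z - s * ev G z‖ ≤ (2 * M + 1) * t

/-- JOB ROT: rotations -/
def StRot : Prop := ∀ θ : ℝ, (∀ k : ℕ, 1 ≤ k → zz θ ^ k ≠ 1) → ∃ K : ℕ, ∀ u : ℂ, ‖u‖ = 1 →
  ∃ k ≤ K, ‖zz θ ^ k - u‖ ≤ 1 / 200

/-- the exponent of the heights -/
def A₀ : ℕ := 1250

/-- JOB SCALE (from FAC, PIG, GCD, ROUND, ROT): all values of one scale -/
def StScale : Prop := ∀ θ : ℝ, (∀ k : ℕ, 1 ≤ k → zz θ ^ k ≠ 1) →
  (∃ N₀ : ℕ, ∀ N : ℕ, N₀ ≤ N → Good (zz θ) N) → ∃ (N₁ K : ℕ), ∀ N : ℕ, N₁ ≤ N → ∀ (r : ℝ) (u : ℂ),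
    (N : ℝ) ^ (-(N : ℝ) / 10) ≤ r → r ≤ (N : ℝ) ^ (-(N : ℝ) / 20) → ‖u‖ = 1 →
    ∃ U : ℤ[X], U.natDegree ≤ 2 * N + K ∧ (∀ i, |(U.coeff i : ℝ)| ≤ (N : ℝ) ^ (A₀ + 2)) ∧
      ‖ev U (zz θ) - r * u‖ ≤ r / 50

/-- all values up to `exp (- n ^ c)` are attained by polynomials of weight at most `n` -/
def Cover (θ c : ℝ) (n : ℕ) : Prop := ∀ (r : ℝ) (u : ℂ), Real.exp (-(n : ℝ) ^ c) ≤ r → r ≤ 1 →
  ‖u‖ = 1 → ∃ (D : ℕ) (b : ℕ → ℤ), weight D b ≤ n ∧ ‖val θ D b - r * u‖ ≤ r / 50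

/-- JOB COVER (from SCALE): all scales -/
def StCover : Prop := ∃ c : ℝ, 0 < c ∧ ∀ θ : ℝ, (∀ k : ℕ, 1 ≤ k → zz θ ^ k ≠ 1) →
  (∃ N₀ : ℕ, ∀ N : ℕ, N₀ ≤ N → Good (zz θ) N) → ∃ n₀ : ℕ, ∀ n : ℕ, n₀ ≤ n → Cover θ c n

/-- JOB DPV -/
def StDpv : Prop := ∀ (θ c : ℝ) (n : ℕ), Cover θ c n → DPV n (Real.exp ((n : ℝ) ^ c)) θ

/-- JOB IRR -/
def StIrr : Prop := ∀ᵐ θ ∂(volume : Measure ℝ), ∀ k : ℕ, 1 ≤ k → zz θ ^ k ≠ 1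

/-- JOB FINAL -/
def StFinal : Prop := ∃ c : ℝ, 0 < c ∧
  ∀ᵐ θ ∂(volume.restrict (Set.Ico (0 : ℝ) (2 * Real.pi))), ∃ n₀ : ℕ, ∀ n : ℕ, n₀ ≤ n →
    DPV n (Real.exp ((n : ℝ) ^ c)) θ ∧ (Real.exp ((n : ℝ) ^ c) : EReal) ≤ RDPV n θ

end Pool.Agent.K7.H54.DP
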