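import Mathlib
import Pool.Agent.K7.H54.DP.Stm

/-!
# Job AE of project DP (helper11): the Borel-Cantelli argument
-/

set_option autoImplicit false

namespace Pool.Agent.K7.H54.DP.AEJob

open Polynomial MeasureTheory Set Pool.Agent.K7.H54.DP

/-- the radius -/
noncomputable def rad (N f : ℕ) : ℝ :=
  2 ^ f * f.factorial * ((N : ℝ) ^ 3) ^ f / (N : ℝ) ^ (60 * f)

theorem rad_nonneg (N f : ℕ) : 0 ≤ rad N f := by
  unfold rad
  positivity

/-- the set of one polynomial -/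
def one (N f : ℕ) (G : ℤ[X]) : Set ℝ :=
  {θ | θ ∈ Icc 0 (2 * Real.pi) ∧ (N : ℝ) ^ (60 * f) * ‖ev G (zz θ)‖ < 1}

theorem one_le (hR : StRoot) (hA : StArc) {N f : ℕ} (hN : 1 ≤ N) (hf : 1 ≤ f) {G : ℤ[X]}
    (hG : Irreducible G) (hd : G.natDegree = f) (hM : MM G ≤ (N : ℝ) ^ 3) :
    volume (one N f G) ≤ f * ENNReal.ofReal (20 * rad N f) := by
  classical
  have hN0 : (0 : ℝ) < N := by exact_mod_cast hN
  have hsub : one N f G ⊆ ⋃ α ∈ (G.map (Int.castRingHom ℂ)).roots.toFinset,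
      {θ : ℝ | θ ∈ Icc 0 (2 * Real.pi) ∧ ‖zz θ - α‖ ≤ rad N f} := by
    rintro θ ⟨hθ, h1⟩
    obtain ⟨α, hα, h2⟩ := hR G hG (by omega) (zz θ)
    have hG0 : G.map (Int.castRingHom ℂ) ≠ 0 := by
      rw [Ne, Polynomial.map_eq_zero_iff (RingHom.injective_int _)]
      exact hG.ne_zero
    refine mem_biUnion (x := α) ?_ ⟨hθ, h2.trans ?_⟩
    · simp only [Multiset.mem_toFinset, Finset.mem_coe]
      rw [mem_roots hG0]
      exact hα
    · rw [hd]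
      have h3 : ‖ev G (zz θ)‖ ≤ 1 / (N : ℝ) ^ (60 * f) := by
        rw [le_div_iff₀ (by positivity)]
        linarith [mul_comm (‖ev G (zz θ)‖) ((N : ℝ) ^ (60 * f))]
      have h4 : MM G ^ f ≤ ((N : ℝ) ^ 3) ^ f :=
        pow_le_pow_left₀ (mahlerMeasure_nonneg _) hM f
      have h5 : (2 : ℝ) ^ f * f.factorial * MM G ^ f ≤ 2 ^ f * f.factorial * ((N : ℝ) ^ 3) ^ f := by
        gcongr
      calc (2 : ℝ) ^ f * f.factorial * MM G ^ f * ‖ev G (zz θ)‖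
          ≤ (2 ^ f * f.factorial * ((N : ℝ) ^ 3) ^ f) * (1 / (N : ℝ) ^ (60 * f)) := by
            refine mul_le_mul h5 h3 (norm_nonneg _) (by positivity)
        _ = rad N f := by
            unfold rad
            ring
  calc volume (one N f G) ≤ _ := measure_mono hsub
    _ ≤ ∑ α ∈ (G.map (Int.castRingHom ℂ)).roots.toFinset,
        volume {θ : ℝ | θ ∈ Icc 0 (2 * Real.pi) ∧ ‖zz θ - α‖ ≤ rad N f} :=
      measure_biUnion_finset_le _ _
    _ ≤ ∑ _α ∈ (G.map (Int.castRingHom ℂ)).roots.toFinset, ENNReal.ofReal (20 * rad N f) :=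
      Finset.sum_le_sum fun α _ => hA α _ (rad_nonneg N f)
    _ = ((G.map (Int.castRingHom ℂ)).roots.toFinset.card : ENNReal) *
        ENNReal.ofReal (20 * rad N f) := by
      rw [Finset.sum_const, nsmul_eq_mul]
    _ ≤ f * ENNReal.ofReal (20 * rad N f) := by
      gcongr
      have h1 := Multiset.toFinset_card_le (G.map (Int.castRingHom ℂ)).roots
      have h2 := card_roots' (G.map (Int.castRingHom ℂ))
      have h3 := natDegree_map_le (f := Int.castRingHom ℂ) (p := G)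
      omega

/-- the modulus -/
def qq (N : ℕ) : ℕ := 4 * N ^ 14 + 1

/-- the set of one class of polynomials -/
def cls (N f : ℕ) (κ : Fin (f + 1) → ZMod (qq N)) : Set ℝ :=
  {θ | ∃ G : ℤ[X], Irreducible G ∧ G.natDegree = f ∧ MM G ≤ (N : ℝ) ^ 3 ∧
    (∀ i : Fin (f + 1), ((G.coeff i : ℤ) : ZMod (qq N)) = κ i) ∧ θ ∈ one N f G}

theorem cls_le (hR : StRoot) (hQ : StModq) (hA : StArc) {N f : ℕ} (hf : 1 ≤ f) (hfN : f ≤ N)
    (κ : Fin (f + 1) → ZMod (qq N)) :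
    volume (cls N f κ) ≤ f * ENNReal.ofReal (20 * rad N f) := by
  by_cases hex : ∃ G : ℤ[X], Irreducible G ∧ G.natDegree = f ∧ MM G ≤ (N : ℝ) ^ 3 ∧
      (∀ i : Fin (f + 1), ((G.coeff i : ℤ) : ZMod (qq N)) = κ i)
  · obtain ⟨G, hG, hd, hM, hκ⟩ := hex
    refine (measure_mono ?_).trans (one_le hR hA (hf.trans hfN) hf hG hd hM)
    rintro θ ⟨G', hG', hd', hM', hκ', hθ⟩
    have hN1 : (1 : ℝ) ≤ N := by exact_mod_cast hf.trans hfN
    have h1 : 4 * (f : ℝ) ^ 2 * ((N : ℝ) ^ 3) ^ 4 < (qq N : ℕ) := by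
      have h2 : (f : ℝ) ≤ N := by exact_mod_cast hfN
      have h3 : (f : ℝ) ^ 2 ≤ (N : ℝ) ^ 2 := pow_le_pow_left₀ (by positivity) h2 2
      have h4 : 4 * (f : ℝ) ^ 2 * ((N : ℝ) ^ 3) ^ 4 ≤ 4 * (N : ℝ) ^ 2 * ((N : ℝ) ^ 3) ^ 4 := by
        gcongr
      have h5 : 4 * (N : ℝ) ^ 2 * ((N : ℝ) ^ 3) ^ 4 = 4 * (N : ℝ) ^ 14 := by ring
      have h6 : ((qq N : ℕ) : ℝ) = 4 * (N : ℝ) ^ 14 + 1 := by
        unfold qq
        push_cast
        ring
      rw [h6]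
      linarith
    have h2 : ∀ i, ((qq N : ℕ) : ℤ) ∣ G.coeff i - G'.coeff i := by
      intro i
      by_cases hi : i < f + 1
      · have h3 : ((G'.coeff i : ℤ) : ZMod (qq N)) = ((G.coeff i : ℤ) : ZMod (qq N)) :=
          (hκ' ⟨i, hi⟩).trans (hκ ⟨i, hi⟩).symm
        exact (ZMod.intCast_eq_intCast_iff_dvd_sub _ _ _).1 h3
      · rw [coeff_eq_zero_of_natDegree_lt (by omega), coeff_eq_zero_of_natDegree_lt (by omega)]
        simp
    have hev : ‖ev G (zz θ)‖ = ‖ev G' (zz θ)‖ := by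
      rcases hQ G G' f (qq N) _ hG hG' hd hd' hf hM hM' h1 h2 with h | h
      · rw [h]
      · rw [h]
        unfold ev
        rw [Polynomial.map_neg, Polynomial.eval_neg, norm_neg]
    exact ⟨hθ.1, by rw [hev]; exact hθ.2⟩
  · have h1 : cls N f κ = ∅ := by
      rw [Set.eq_empty_iff_forall_notMem]
      rintro θ ⟨G, hG, hd, hM, hκ, -⟩
      exact hex ⟨G, hG, hd, hM, hκ⟩
    rw [h1, measure_empty]
    exact bot_le

/-- the bad set -/
def bad (N : ℕ) : Set ℝ := {θ | θ ∈ Icc 0 (2 * Real.pi) ∧ ¬ Good (zz θ) N}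

instance (N : ℕ) : NeZero (qq N) := ⟨by unfold qq; omega⟩

theorem bad_sub (N : ℕ) : bad N ⊆ ⋃ f ∈ Finset.Icc 1 N, ⋃ κ : Fin (f + 1) → ZMod (qq N), cls N f κ := by
  rintro θ ⟨hθ, h⟩
  unfold Good at h
  push Not at h
  obtain ⟨G, hG, h1, h2, h3, h4⟩ := h
  refine mem_biUnion (x := G.natDegree) (by simp [h1, h2]) ?_
  rw [mem_iUnion]
  exact ⟨fun i => ((G.coeff i : ℤ) : ZMod (qq N)), G, hG, rfl, h3, fun i => rfl, hθ, h4⟩

theorem numeric {N f : ℕ} (hN : 5 ≤ N) (hf : 1 ≤ f) (hfN : f ≤ N) :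
    ((qq N : ℕ) : ℝ) ^ (f + 1) * (f * (20 * rad N f)) ≤ 20 / (N : ℝ) ^ 3 := by
  have hN5 : (5 : ℝ) ≤ N := by exact_mod_cast hN
  have hN0 : (0 : ℝ) < N := by linarith
  have hN1 : (1 : ℝ) ≤ N := by linarith
  have hfN' : (f : ℝ) ≤ N := by exact_mod_cast hfN
  have hq : ((qq N : ℕ) : ℝ) ≤ (N : ℝ) ^ 15 := by
    have h6 : ((qq N : ℕ) : ℝ) = 4 * (N : ℝ) ^ 14 + 1 := by
      unfold qq
      push_cast
      ring
    rw [h6]
    have h7 : (1 : ℝ) ≤ (N : ℝ) ^ 14 := one_le_pow₀ hN1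
    have h8 : (N : ℝ) ^ 15 = N * (N : ℝ) ^ 14 := by ring
    nlinarith
  have h1 : ((qq N : ℕ) : ℝ) ^ (f + 1) ≤ ((N : ℝ) ^ 15) ^ (f + 1) :=
    pow_le_pow_left₀ (by positivity) hq _
  have h2 : (2 : ℝ) ^ f ≤ (N : ℝ) ^ f := pow_le_pow_left₀ (by norm_num) (by linarith) _
  have h3 : (f.factorial : ℝ) ≤ (N : ℝ) ^ f := by
    have h4 : (f.factorial : ℝ) ≤ (f : ℝ) ^ f := by exact_mod_cast Nat.factorial_le_pow f
    exact h4.trans (pow_le_pow_left₀ (by positivity) hfN' _)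
  have h5 : (2 : ℝ) ^ f * f.factorial * ((N : ℝ) ^ 3) ^ f ≤
      (N : ℝ) ^ f * (N : ℝ) ^ f * ((N : ℝ) ^ 3) ^ f := by gcongr
  have h6 : ((qq N : ℕ) : ℝ) ^ (f + 1) * (f * (2 ^ f * f.factorial * ((N : ℝ) ^ 3) ^ f)) * (N : ℝ) ^ 3 ≤
      ((N : ℝ) ^ 15) ^ (f + 1) * (N * ((N : ℝ) ^ f * (N : ℝ) ^ f * ((N : ℝ) ^ 3) ^ f)) * (N : ℝ) ^ 3 := by
    gcongr
  have h7 : ((N : ℝ) ^ 15) ^ (f + 1) * (N * ((N : ℝ) ^ f * (N : ℝ) ^ f * ((N : ℝ) ^ 3) ^ f)) *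
      (N : ℝ) ^ 3 = (N : ℝ) ^ (20 * f + 19) := by
    rw [← pow_mul, ← pow_mul]
    ring
  have h8 : (N : ℝ) ^ (20 * f + 19) ≤ (N : ℝ) ^ (60 * f) := pow_le_pow_right₀ hN1 (by omega)
  have h9 : ((qq N : ℕ) : ℝ) ^ (f + 1) * (f * (2 ^ f * f.factorial * ((N : ℝ) ^ 3) ^ f)) * (N : ℝ) ^ 3 ≤
      (N : ℝ) ^ (60 * f) := by
    rw [h7] at h6
    exact h6.trans h8
  unfold rad
  rw [le_div_iff₀ (by positivity)]
  have h10 : ((qq N : ℕ) : ℝ) ^ (f + 1) * (f * (20 * (2 ^ f * f.factorial * ((N : ℝ) ^ 3) ^ f /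
      (N : ℝ) ^ (60 * f)))) * (N : ℝ) ^ 3 = 20 * ((((qq N : ℕ) : ℝ) ^ (f + 1) *
      (f * (2 ^ f * f.factorial * ((N : ℝ) ^ 3) ^ f)) * (N : ℝ) ^ 3) / (N : ℝ) ^ (60 * f)) := by
    ring
  rw [h10]
  have h11 : (((qq N : ℕ) : ℝ) ^ (f + 1) *
      (f * (2 ^ f * f.factorial * ((N : ℝ) ^ 3) ^ f)) * (N : ℝ) ^ 3) / (N : ℝ) ^ (60 * f) ≤ 1 := by
    rw [div_le_one (by positivity)]
    exact h9
  linarith

theorem bad_le (hR : StRoot) (hQ : StModq) (hA : StArc) {N : ℕ} (hN : 5 ≤ N) :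
    volume (bad N) ≤ ENNReal.ofReal (20 / (N : ℝ) ^ 2) := by
  have hN0 : (0 : ℝ) < N := by
    have : (5 : ℝ) ≤ N := by exact_mod_cast hN
    linarith
  calc volume (bad N) ≤ volume (⋃ f ∈ Finset.Icc 1 N, ⋃ κ : Fin (f + 1) → ZMod (qq N), cls N f κ) :=
      measure_mono (bad_sub N)
    _ ≤ ∑ f ∈ Finset.Icc 1 N, volume (⋃ κ : Fin (f + 1) → ZMod (qq N), cls N f κ) :=
      measure_biUnion_finset_le _ _
    _ ≤ ∑ _f ∈ Finset.Icc 1 N, ENNReal.ofReal (20 / (N : ℝ) ^ 3) := by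
      refine Finset.sum_le_sum fun f hf => ?_
      rw [Finset.mem_Icc] at hf
      calc volume (⋃ κ : Fin (f + 1) → ZMod (qq N), cls N f κ)
          ≤ ∑ κ : Fin (f + 1) → ZMod (qq N), volume (cls N f κ) := measure_iUnion_fintype_le _ _
        _ ≤ ∑ _κ : Fin (f + 1) → ZMod (qq N), (f * ENNReal.ofReal (20 * rad N f) : ENNReal) :=
          Finset.sum_le_sum fun κ _ => cls_le hR hQ hA hf.1 hf.2 κ
        _ = ENNReal.ofReal (((qq N : ℕ) : ℝ) ^ (f + 1) * (f * (20 * rad N f))) := by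
          rw [Finset.sum_const, nsmul_eq_mul, Finset.card_univ, Fintype.card_fun, ZMod.card,
            Fintype.card_fin]
          rw [ENNReal.ofReal_mul (p := ((qq N : ℕ) : ℝ) ^ (f + 1)) (by positivity),
            ENNReal.ofReal_mul (p := (f : ℝ)) (by positivity),
            ENNReal.ofReal_pow (by positivity), ENNReal.ofReal_natCast, ENNReal.ofReal_natCast]
          push_cast
          rfl
        _ ≤ ENNReal.ofReal (20 / (N : ℝ) ^ 3) := ENNReal.ofReal_le_ofReal (numeric hN hf.1 hf.2)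
    _ = ENNReal.ofReal (20 / (N : ℝ) ^ 2) := by
      rw [Finset.sum_const, nsmul_eq_mul, Nat.card_Icc, Nat.add_sub_cancel,
        ← ENNReal.ofReal_natCast, ← ENNReal.ofReal_mul (by positivity)]
      congr 1
      field_simp

theorem ae (hR : StRoot) (hQ : StModq) (hA : StArc) : StAE := by
  unfold StAE
  have hsum : ∑' n : ℕ, (volume.restrict (Icc (0 : ℝ) (2 * Real.pi))) (bad (n + 5)) ≠ ⊤ := by
    have h1 : Summable fun n : ℕ => 20 / (((n + 5 : ℕ) : ℝ)) ^ 2 := by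
      have h2 : Summable fun n : ℕ => 20 / ((n : ℝ)) ^ 2 := by
        have h3 := (Real.summable_one_div_nat_pow (p := 2)).2 (by norm_num)
        refine (h3.mul_left 20).congr fun n => ?_
        ring
      exact (summable_nat_add_iff (f := fun n : ℕ => 20 / ((n : ℝ)) ^ 2) 5).2 h2
    refine ne_top_of_le_ne_top h1.tsum_ofReal_ne_top (ENNReal.tsum_le_tsum fun n => ?_)
    refine (Measure.restrict_apply_le _ _).trans (bad_le hR hQ hA (by omega))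
  have h1 := ae_eventually_notMem hsum
  have h2 : ∀ᵐ θ ∂(volume.restrict (Icc (0 : ℝ) (2 * Real.pi))), θ ∈ Icc (0 : ℝ) (2 * Real.pi) :=
    ae_restrict_mem measurableSet_Icc
  filter_upwards [h1, h2] with θ h3 h4
  rw [Filter.eventually_atTop] at h3
  obtain ⟨n₀, h5⟩ := h3
  refine ⟨n₀ + 5, fun N hN => ?_⟩
  by_contra h6
  have h7 := h5 (N - 5) (by omega)
  rw [show N - 5 + 5 = N by omega] at h7
  exact h7 ⟨h4, h6⟩

end Pool.Agent.K7.H54.DP.AEJob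

namespace Pool.Agent.K7.H54.DP

/-- the job AE -/
theorem ae (hR : StRoot) (hQ : StModq) (hA : StArc) : StAE := AEJob.ae hR hQ hA

end Pool.Agent.K7.H54.DP
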