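import Pool.Agent.K7.H54.DP.Stm

/-!
# Project DP, second part: the exponent `2 / 3`

For almost every `θ` and every `δ > 0`: `R_DPV(n, θ) ≥ exp (n ^ (2 / 3 - δ))` for all large `n`.
-/

set_option autoImplicit false

namespace Pool.Agent.K7.H54.DP

open Polynomial MeasureTheory

/-! ### The lattice of multiples of a polynomial -/

/-- JOB GSC: counting the integer points of a lattice given by vectors with large Gram-Schmidt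
vectors -/
def StGsc : Prop := ∀ (n m : ℕ) (b : Fin m → EuclideanSpace ℝ (Fin n)) (T R s : ℝ), 0 < T →
  0 < s → (∀ i, ∀ x ∈ Submodule.span ℝ (b '' {j | j < i}), T ≤ ‖b i + x‖) →
  ∀ A : Finset (Fin m → ℤ), (∀ q ∈ A, ‖∑ i, (q i : ℝ) • b i‖ ≤ R) →
  (A.card : ℝ) ≤ Real.exp ((R / s) ^ 2) * (3 * (1 + s / T)) ^ m

/-- JOB MULT (from GSC): the number of multiples of small height -/
def StMult : Prop := ∀ (G : ℤ[X]) (M H : ℕ), G ≠ 0 → G.natDegree ≤ M → 1 ≤ H →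
  ∀ A : Finset ℤ[X], (∀ P ∈ A, G ∣ P ∧ P.degree < (M : WithBot ℕ) ∧ ∀ i, |P.coeff i| ≤ (H : ℤ)) →
  (A.card : ℝ) ≤ Real.exp M * (3 * (1 + H / MM G)) ^ (M - G.natDegree)

/-- JOB PIGC: the pigeonhole principle with the number of solutions -/
def StPigc : Prop := ∀ (z : ℂ) (M H : ℕ) (t : ℝ), ‖z‖ = 1 → 1 ≤ M → 1 ≤ H → 0 < t → t ≤ 1 →
  ∃ A : Finset ℤ[X], (∀ P ∈ A, P.natDegree < M ∧ (∀ i, |P.coeff i| ≤ (H : ℤ)) ∧ ‖ev P z‖ ≤ t) ∧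
    ((H : ℝ) + 1) ^ M ≤ (8 * M * H / t) ^ 2 * A.card

/-! ### Irreducible polynomials of bounded Mahler measure -/

/-- JOB MODK (from VDM): `K` congruent irreducible polynomials -/
def StModk : Prop := ∀ (K f q : ℕ) (T : ℝ) (G : Fin K → ℤ[X]), 1 ≤ f → (∀ i, Irreducible (G i)) →
  (∀ i, (G i).natDegree = f) → (∀ i, MM (G i) ≤ T) → (∀ i j, i ≠ j → G i ≠ G j ∧ G i ≠ -G j) →
  (∀ i j l, (q : ℤ) ∣ (G i).coeff l - (G j).coeff l) →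
  (q : ℝ) ^ (f * (K * (K - 1) / 2)) ≤ (K * f).factorial * T ^ (K * (K * f - 1))

/-- JOB COUNT (from MODK): the number of irreducible polynomials -/
def StCount : Prop := ∀ (T η : ℝ), 0 < η → ∃ C : ℝ, 0 < C ∧ ∀ f : ℕ, 1 ≤ f → ∀ S : Finset ℤ[X],
  (∀ G ∈ S, Irreducible G ∧ G.natDegree = f ∧ MM G ≤ T) → (S.card : ℝ) ≤ (C * (f : ℝ) ^ η) ^ (f + 1)

/-- JOB SEP (from VDM): the value at a point which is not near the roots -/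
def StSep : Prop := ∀ G : ℤ[X], Irreducible G → 1 ≤ G.natDegree → ∀ (z : ℂ) (k : ℕ) (ρ : ℝ),
  1 ≤ k → 0 ≤ ρ → ρ ≤ 1 → (∀ α, ev G α = 0 → ρ ≤ ‖z - α‖) →
  ρ ^ (k ^ 2) ≤ G.natDegree.factorial * (2 ^ k * MM G) ^ G.natDegree * ‖ev G z‖ ^ k

/-- all irreducible integer polynomials of Mahler measure at most `T` are not too small at `z` -/
def Good2 (z : ℂ) (T ε C : ℝ) : Prop := ∀ G : ℤ[X], Irreducible G → 1 ≤ G.natDegree → MM G ≤ T →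
  1 ≤ (C * (G.natDegree : ℝ) ^ ε) ^ G.natDegree * ‖ev G z‖

/-- JOB AET (from COUNT, SEP, ARC): Borel-Cantelli -/
def StAET : Prop := ∀ (T ε : ℝ), 0 < ε →
  ∀ᵐ θ ∂(volume.restrict (Set.Icc (0 : ℝ) (2 * Real.pi))), ∃ C : ℝ, 1 ≤ C ∧ Good2 (zz θ) T ε C

/-- JOB FACT: products -/
def StFacT : Prop := ∀ (z : ℂ) (T ε C : ℝ), 0 < ε → 1 ≤ C → Good2 z T ε C → ∀ (N : ℕ) (G : ℤ[X]),
  1 ≤ N → G ≠ 0 → G.natDegree ≤ N → MM G ≤ T → 1 ≤ (C * (N : ℝ) ^ ε) ^ G.natDegree * ‖ev G z‖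

/-! ### Rounding -/

/-- JOB ROUNDT: rounding with a small mean square error -/
def StRoundT : Prop := ∀ (z : ℂ) (Γ : Set ℤ[X]) (M : ℕ) (H t : ℝ) (G : ℤ[X]) (s : ℝ), ‖z‖ = 1 →
  0 ≤ H → 0 ≤ t → (∀ P ∈ Γ, P.natDegree ≤ M ∧ (∀ i, |(P.coeff i : ℝ)| ≤ H) ∧ ‖ev P z‖ ≤ t) →
  G.map (Int.castRingHom ℝ) ∈ Submodule.span ℝ (Mult Γ M) →
  ∃ U : ℤ[X], U.natDegree ≤ 2 * M ∧
    (∑ i ∈ Finset.range (2 * M + 1), |(U.coeff i : ℝ)|) ≤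
      |s| * (∑ i ∈ Finset.range (2 * M + 1), |(G.coeff i : ℝ)|) +
        (2 * M + 1) * Real.sqrt (M + 1) * H ∧
    ‖ev U z - s * ev G z‖ ≤ (2 * M + 1) * t

/-! ### The values of one scale -/

/-- JOB SCALET (from FACT, PIGC, MULT, GCD, ROUNDT, ROT) -/
def StScaleT : Prop := ∀ (θ ε C : ℝ), (∀ k : ℕ, 1 ≤ k → zz θ ^ k ≠ 1) → 0 < ε → 1 ≤ C →
  Good2 (zz θ) 150 ε C → ∃ (M₁ K : ℕ), ∀ M : ℕ, M₁ ≤ M → ∀ (r : ℝ) (u : ℂ),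
    Real.exp (-(3 * M / 4)) ≤ r → r ≤ Real.exp (-(M / 4)) → ‖u‖ = 1 →
    ∃ U : ℤ[X], U.natDegree ≤ 2 * M + K ∧
      (∑ i ∈ Finset.range (2 * M + K + 1), |(U.coeff i : ℝ)|) ≤ (M : ℝ) ^ (3 / 2 + 41 * ε) ∧
      ‖ev U (zz θ) - r * u‖ ≤ r / 50

/-- JOB COVERT (from SCALET) -/
def StCoverT : Prop := ∀ (θ ε C : ℝ), (∀ k : ℕ, 1 ≤ k → zz θ ^ k ≠ 1) → 0 < ε → 1 ≤ C →
  Good2 (zz θ) 150 ε C → ∃ n₀ : ℕ, ∀ n : ℕ, n₀ ≤ n → Cover θ (1 / (3 / 2 + 42 * ε)) n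

/-- JOB FINALT (from AET, COVERT, DPV, IRR) -/
def StFinalT : Prop :=
  ∀ᵐ θ ∂(volume.restrict (Set.Ico (0 : ℝ) (2 * Real.pi))), ∀ δ : ℝ, 0 < δ →
    ∃ n₀ : ℕ, ∀ n : ℕ, n₀ ≤ n →
      DPV n (Real.exp ((n : ℝ) ^ (2 / 3 - δ))) θ ∧
        (Real.exp ((n : ℝ) ^ (2 / 3 - δ)) : EReal) ≤ RDPV n θ

end Pool.Agent.K7.H54.DP
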