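import Mathlib
import Pool.Agent.K7.H54.DP.Stm2

/-!
# Job AET of project DPT (helper54): the Borel-Cantelli argument, with `SEP` and `COUNT`

Author: helper55.
-/

set_option autoImplicit false

namespace Pool.Agent.K7.H55.DPT

open Polynomial MeasureTheory Set Pool.Agent.K7.H54.DP

/-- the irreducible polynomials of degree `f` and Mahler measure at most `T` -/
def SS (T : ℝ) (f : ℕ) : Set ℤ[X] := {G | Irreducible G ∧ G.natDegree = f ∧ MM G ≤ T}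

theorem finite_of_bound {α : Type*} {A : Set α} {B : ℝ}
    (h : ∀ S : Finset α, (∀ x ∈ S, x ∈ A) → (S.card : ℝ) ≤ B) : A.Finite := by
  by_contra hinf
  obtain ⟨n, hn⟩ := exists_nat_gt B
  obtain ⟨S, hS, hc⟩ := Set.Infinite.exists_subset_card_eq hinf n
  have := h S (fun x hx => hS hx)
  rw [hc] at this
  linarith

/-- the radius -/
noncomputable def rho (C η : ℝ) (f : ℕ) : ℝ := 1 / ((C * (f : ℝ) ^ η) ^ (f + 1) * f * 2 ^ f)

theorem one_le_X {C η : ℝ} (hC : 1 ≤ C) (hη : 0 ≤ η) {f : ℕ} (hf : 1 ≤ f) :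
    1 ≤ C * (f : ℝ) ^ η := by
  have h1 : (1 : ℝ) ≤ (f : ℝ) ^ η := Real.one_le_rpow (by exact_mod_cast hf) hη
  nlinarith

theorem rho_nonneg {C η : ℝ} (hC : 1 ≤ C) (f : ℕ) : 0 ≤ rho C η f := by
  unfold rho
  have : 0 ≤ C * (f : ℝ) ^ η := by positivity
  positivity

theorem rho_le_one {C η : ℝ} (hC : 1 ≤ C) (hη : 0 ≤ η) {f : ℕ} (hf : 1 ≤ f) : rho C η f ≤ 1 := by
  unfold rho
  have h1 := one_le_X hC hη hf
  have h2 : (1 : ℝ) ≤ (C * (f : ℝ) ^ η) ^ (f + 1) := one_le_pow₀ h1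
  have h3 : (1 : ℝ) ≤ f := by exact_mod_cast hf
  have h4 : (1 : ℝ) ≤ 2 ^ f := one_le_pow₀ (by norm_num)
  have h5 : (1 : ℝ) ≤ (C * (f : ℝ) ^ η) ^ (f + 1) * f * 2 ^ f := by
    have h6 : (1 : ℝ) ≤ (C * (f : ℝ) ^ η) ^ (f + 1) * f := by nlinarith
    nlinarith
  rw [div_le_one (by linarith)]
  exact h5

/-- the bad set of the degree `f` -/
def bad (T C η : ℝ) (f : ℕ) : Set ℝ :=
  {θ | θ ∈ Icc 0 (2 * Real.pi) ∧ ∃ G ∈ SS T f, ∃ α : ℂ, ev G α = 0 ∧ ‖zz θ - α‖ ≤ rho C η f}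

theorem mem_roots_of_ev {G : ℤ[X]} (hG : G ≠ 0) {α : ℂ} (h : ev G α = 0) :
    α ∈ (G.map (Int.castRingHom ℂ)).roots.toFinset := by
  have hG0 : G.map (Int.castRingHom ℂ) ≠ 0 := by
    rw [Ne, Polynomial.map_eq_zero_iff (RingHom.injective_int _)]
    exact hG
  rw [Multiset.mem_toFinset, mem_roots hG0]
  exact h

theorem one_poly (hA : StArc) (G : ℤ[X]) (r : ℝ) (hr : 0 ≤ r) :
    volume (⋃ α ∈ (G.map (Int.castRingHom ℂ)).roots.toFinset,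
      {θ : ℝ | θ ∈ Icc 0 (2 * Real.pi) ∧ ‖zz θ - α‖ ≤ r}) ≤ G.natDegree * ENNReal.ofReal (20 * r) := by
  calc volume (⋃ α ∈ (G.map (Int.castRingHom ℂ)).roots.toFinset,
      {θ : ℝ | θ ∈ Icc 0 (2 * Real.pi) ∧ ‖zz θ - α‖ ≤ r}) 
      ≤ ∑ α ∈ (G.map (Int.castRingHom ℂ)).roots.toFinset,
        volume {θ : ℝ | θ ∈ Icc 0 (2 * Real.pi) ∧ ‖zz θ - α‖ ≤ r} :=
      measure_biUnion_finset_le _ _
    _ ≤ ∑ _α ∈ (G.map (Int.castRingHom ℂ)).roots.toFinset, ENNReal.ofReal (20 * r) :=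
      Finset.sum_le_sum fun α _ => hA α _ hr
    _ = ((G.map (Int.castRingHom ℂ)).roots.toFinset.card : ENNReal) *
        ENNReal.ofReal (20 * r) := by
      rw [Finset.sum_const, nsmul_eq_mul]
    _ ≤ G.natDegree * ENNReal.ofReal (20 * r) := by
      gcongr
      have h1 := Multiset.toFinset_card_le (G.map (Int.castRingHom ℂ)).roots
      have h2 := card_roots' (G.map (Int.castRingHom ℂ))
      have h3 := natDegree_map_le (f := Int.castRingHom ℂ) (p := G)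
      omega

theorem bad_le (hA : StArc) {T C η : ℝ} (hC : 1 ≤ C) (hη : 0 ≤ η) {f : ℕ} (hf : 1 ≤ f)
    (hfin : (SS T f).Finite) (hcard : (hfin.toFinset.card : ℝ) ≤ (C * (f : ℝ) ^ η) ^ (f + 1)) :
    volume (bad T C η f) ≤ ENNReal.ofReal (20 / 2 ^ f) := by
  have hsub : bad T C η f ⊆ ⋃ G ∈ hfin.toFinset,
      ⋃ α ∈ (G.map (Int.castRingHom ℂ)).roots.toFinset,
      {θ : ℝ | θ ∈ Icc 0 (2 * Real.pi) ∧ ‖zz θ - α‖ ≤ rho C η f} := by
    rintro θ ⟨hθ, G, hG, α, hα, h1⟩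
    refine mem_biUnion (x := G) (by simpa using hG) ?_
    exact mem_biUnion (x := α) (mem_roots_of_ev hG.1.ne_zero hα) ⟨hθ, h1⟩
  have hX := one_le_X hC hη hf
  have hf1 : (1 : ℝ) ≤ f := by exact_mod_cast hf
  calc volume (bad T C η f) ≤ _ := measure_mono hsub
    _ ≤ ∑ G ∈ hfin.toFinset, volume (⋃ α ∈ (G.map (Int.castRingHom ℂ)).roots.toFinset,
      {θ : ℝ | θ ∈ Icc 0 (2 * Real.pi) ∧ ‖zz θ - α‖ ≤ rho C η f}) := measure_biUnion_finset_le _ _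
    _ ≤ ∑ _G ∈ hfin.toFinset, (f * ENNReal.ofReal (20 * rho C η f) : ENNReal) := by
      refine Finset.sum_le_sum fun G hG => ?_
      have hG' : G ∈ SS T f := by simpa using hG
      have h1 := one_poly hA G _ (rho_nonneg (η := η) hC f)
      rwa [hG'.2.1] at h1
    _ = ENNReal.ofReal ((hfin.toFinset.card : ℝ) * (f * (20 * rho C η f))) := by
      rw [Finset.sum_const, nsmul_eq_mul,
        ENNReal.ofReal_mul (p := (hfin.toFinset.card : ℝ)) (by positivity),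
        ENNReal.ofReal_mul (p := (f : ℝ)) (by positivity), ENNReal.ofReal_natCast,
        ENNReal.ofReal_natCast]
    _ ≤ ENNReal.ofReal (20 / 2 ^ f) := by
      refine ENNReal.ofReal_le_ofReal ?_
      have h0 : 0 ≤ rho C η f := rho_nonneg hC f
      have h1 : (hfin.toFinset.card : ℝ) * (f * (20 * rho C η f)) ≤
          (C * (f : ℝ) ^ η) ^ (f + 1) * (f * (20 * rho C η f)) :=
        mul_le_mul_of_nonneg_right hcard (by positivity)
      refine h1.trans (le_of_eq ?_)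
      unfold rho
      have h2 : (C * (f : ℝ) ^ η) ^ (f + 1) ≠ 0 := by positivity
      field_simp

instance countable_poly : Countable ℤ[X] := by
  rw [← Cardinal.mk_le_aleph0_iff]
  exact Polynomial.cardinalMk_le_max.trans (max_le (Cardinal.mk_le_aleph0) le_rfl)

theorem ae_ne (hA : StArc) : ∀ᵐ θ ∂(volume.restrict (Icc (0 : ℝ) (2 * Real.pi))),
    ∀ G : ℤ[X], G ≠ 0 → ev G (zz θ) ≠ 0 := by
  rw [ae_all_iff]
  intro G
  by_cases hG : G = 0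
  · exact Filter.Eventually.of_forall fun θ h => absurd hG h
  have h1 := one_poly hA G 0 le_rfl
  rw [mul_zero, ENNReal.ofReal_zero, mul_zero] at h1
  have h2 : (volume.restrict (Icc (0 : ℝ) (2 * Real.pi)))
      {θ : ℝ | θ ∈ Icc (0 : ℝ) (2 * Real.pi) ∧ ev G (zz θ) = 0} = 0 := by
    refine le_antisymm ((Measure.restrict_apply_le _ _).trans ((measure_mono ?_).trans h1)) bot_le
    rintro θ ⟨hθ, h⟩
    exact mem_biUnion (x := zz θ) (mem_roots_of_ev hG h) ⟨hθ, by simp⟩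
  have h3 : ∀ᵐ θ ∂(volume.restrict (Icc (0 : ℝ) (2 * Real.pi))), θ ∈ Icc (0 : ℝ) (2 * Real.pi) :=
    ae_restrict_mem measurableSet_Icc
  have h4 := measure_eq_zero_iff_ae_notMem.1 h2
  filter_upwards [h3, h4] with θ k1 k2 _ hcon
  exact k2 ⟨k1, hcon⟩

/-- the numerical inequality -/
theorem numeric {T C₁ C ε : ℝ} {k : ℕ} (hk : 1 ≤ k) (hT : 1 ≤ T) (hC₁ : 1 ≤ C₁)
    (hC : 2 ^ k * T * (4 * C₁ ^ 2) ^ (k ^ 2) ≤ C) (hkε : 2 ≤ ε * k) {f : ℕ} (hf : 1 ≤ f) {w : ℝ}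
    (hw : 0 ≤ w) {M : ℝ} (hM0 : 0 ≤ M) (hM : M ≤ T)
    (h : rho C₁ (1 / (2 * (k : ℝ) ^ 2)) f ^ (k ^ 2) ≤ f.factorial * (2 ^ k * M) ^ f * w ^ k) :
    1 ≤ (C * (f : ℝ) ^ ε) ^ f * w := by
  have hk0 : (0 : ℝ) < k := by exact_mod_cast hk
  have hF : (1 : ℝ) ≤ f := by exact_mod_cast hf
  have hF0 : (0 : ℝ) < f := by linarith
  set η : ℝ := 1 / (2 * (k : ℝ) ^ 2) with hη
  have hη0 : 0 ≤ η := by positivity
  set X : ℝ := C₁ * (f : ℝ) ^ η with hX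
  have hX1 : 1 ≤ X := one_le_X hC₁ hη0 hf
  have h41 : (1 : ℝ) ≤ (4 * C₁ ^ 2) ^ (k ^ 2) := one_le_pow₀ (by nlinarith)
  have h2k : (1 : ℝ) ≤ 2 ^ k := one_le_pow₀ (by norm_num)
  have hC1 : 1 ≤ C := by
    refine le_trans ?_ hC
    have : (1 : ℝ) ≤ 2 ^ k * T := by nlinarith
    nlinarith
  have hC0 : 0 < C := by linarith
  -- the factor
  have hFη : ((f : ℝ) ^ η) ^ (2 * k ^ 2) = f := by
    rw [← Real.rpow_natCast, ← Real.rpow_mul hF0.le]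
    have : η * ((2 * k ^ 2 : ℕ) : ℝ) = 1 := by
      rw [hη]
      push_cast
      field_simp
    rw [this, Real.rpow_one]
  have hFε : (f : ℝ) ^ 2 ≤ ((f : ℝ) ^ ε) ^ k := by
    rw [← Real.rpow_natCast ((f : ℝ) ^ ε) k, ← Real.rpow_mul hF0.le]
    calc (f : ℝ) ^ 2 = (f : ℝ) ^ (2 : ℝ) := by norm_cast
      _ ≤ (f : ℝ) ^ (ε * (k : ℝ)) := Real.rpow_le_rpow_of_exponent_le hF hkε
  have e1 : f * (2 ^ k * T) * (4 * X ^ 2) ^ (k ^ 2) ≤ (C * (f : ℝ) ^ ε) ^ k := by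
    have e2 : (4 * X ^ 2) ^ (k ^ 2) = (4 * C₁ ^ 2) ^ (k ^ 2) * f := by
      rw [hX]
      calc (4 * (C₁ * (f : ℝ) ^ η) ^ 2) ^ (k ^ 2)
          = (4 * C₁ ^ 2) ^ (k ^ 2) * ((f : ℝ) ^ η) ^ (2 * k ^ 2) := by
            rw [pow_mul ((f : ℝ) ^ η) 2 (k ^ 2), ← mul_pow]
            congr 1
            ring
        _ = _ := by rw [hFη]
    rw [e2, mul_pow C]
    have e3 : C ≤ C ^ k := le_self_pow₀ hC1 (by omega)
    calc (f : ℝ) * (2 ^ k * T) * ((4 * C₁ ^ 2) ^ (k ^ 2) * f)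
        = (2 ^ k * T * (4 * C₁ ^ 2) ^ (k ^ 2)) * (f : ℝ) ^ 2 := by ring
      _ ≤ C ^ k * ((f : ℝ) ^ ε) ^ k := by
        refine mul_le_mul (hC.trans e3) hFε (by positivity) (by positivity)
  -- the radius
  have h2f : (f : ℝ) ≤ 2 ^ f := by exact_mod_cast (Nat.lt_two_pow_self (n := f)).le
  have e4 : X ^ (f + 1) * f * 2 ^ f ≤ (4 * X ^ 2) ^ f := by
    have e5 : X ^ (f + 1) ≤ X ^ (2 * f) := pow_le_pow_right₀ hX1 (by omega)
    calc X ^ (f + 1) * f * 2 ^ f ≤ X ^ (2 * f) * 2 ^ f * 2 ^ f := by gcongr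
      _ = (4 * X ^ 2) ^ f := by
        rw [mul_pow, pow_mul, mul_assoc, ← mul_pow]
        norm_num
        ring
  have hpos : 0 < X ^ (f + 1) * f * 2 ^ f := by positivity
  have e6 : 1 ≤ rho C₁ η f ^ (k ^ 2) * ((4 * X ^ 2) ^ f) ^ (k ^ 2) := by
    rw [← mul_pow]
    refine one_le_pow₀ ?_
    show 1 ≤ 1 / (X ^ (f + 1) * f * 2 ^ f) * (4 * X ^ 2) ^ f
    rw [one_div, inv_mul_eq_div, le_div_iff₀ hpos, one_mul]
    exact e4
  have hfac : (f.factorial : ℝ) ≤ (f : ℝ) ^ f := by exact_mod_cast Nat.factorial_le_pow f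
  have e7 : (f.factorial : ℝ) * (2 ^ k * M) ^ f * ((4 * X ^ 2) ^ f) ^ (k ^ 2) ≤
      ((C * (f : ℝ) ^ ε) ^ k) ^ f := by
    calc (f.factorial : ℝ) * (2 ^ k * M) ^ f * ((4 * X ^ 2) ^ f) ^ (k ^ 2)
        ≤ (f : ℝ) ^ f * (2 ^ k * T) ^ f * ((4 * X ^ 2) ^ f) ^ (k ^ 2) := by gcongr
      _ = (f * (2 ^ k * T) * (4 * X ^ 2) ^ (k ^ 2)) ^ f := by
        rw [← pow_mul, mul_comm f (k ^ 2), pow_mul, ← mul_pow, ← mul_pow]
      _ ≤ ((C * (f : ℝ) ^ ε) ^ k) ^ f := pow_le_pow_left₀ (by positivity) e1 f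
  have e8 : 1 ≤ ((C * (f : ℝ) ^ ε) ^ f * w) ^ k := by
    calc (1 : ℝ) ≤ rho C₁ η f ^ (k ^ 2) * ((4 * X ^ 2) ^ f) ^ (k ^ 2) := e6
      _ ≤ (f.factorial * (2 ^ k * M) ^ f * w ^ k) * ((4 * X ^ 2) ^ f) ^ (k ^ 2) :=
        mul_le_mul_of_nonneg_right h (by positivity)
      _ = ((f.factorial : ℝ) * (2 ^ k * M) ^ f * ((4 * X ^ 2) ^ f) ^ (k ^ 2)) * w ^ k := by ring
      _ ≤ ((C * (f : ℝ) ^ ε) ^ k) ^ f * w ^ k := mul_le_mul_of_nonneg_right e7 (by positivity)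
      _ = ((C * (f : ℝ) ^ ε) ^ f * w) ^ k := by
        rw [mul_pow _ w k, ← pow_mul, ← pow_mul, mul_comm k f]
  by_contra hcon
  push Not at hcon
  have h9 : 0 ≤ (C * (f : ℝ) ^ ε) ^ f * w := by positivity
  exact absurd e8 (not_le.2 (pow_lt_one₀ h9 hcon (by omega)))

theorem aet (hC : StCount) (hS : StSep) (hA : StArc) : StAET := by
  intro T₀ ε hε
  set T : ℝ := max T₀ 1 with hT
  have hT1 : 1 ≤ T := le_max_right _ _
  obtain ⟨k, hk⟩ := exists_nat_gt (2 / ε)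
  have hkε : 2 ≤ ε * k := by
    rw [div_lt_iff₀ hε] at hk
    linarith
  have hk1 : 1 ≤ k := by
    rcases Nat.eq_zero_or_pos k with h | h
    · rw [h] at hkε
      norm_num at hkε
    · exact h
  have hk0 : (0 : ℝ) < k := by exact_mod_cast hk1
  set η : ℝ := 1 / (2 * (k : ℝ) ^ 2) with hη
  have hη0 : 0 < η := by positivity
  obtain ⟨C₀, hC₀, hcnt⟩ := hC T η hη0
  set C₁ : ℝ := max C₀ 1 with hC₁
  have hC₁1 : 1 ≤ C₁ := le_max_right _ _
  have hcnt' : ∀ f : ℕ, 1 ≤ f → ∀ S : Finset ℤ[X], (∀ G ∈ S, G ∈ SS T f) →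
      (S.card : ℝ) ≤ (C₁ * (f : ℝ) ^ η) ^ (f + 1) := by
    intro f hf S hS'
    refine (hcnt f hf S hS').trans ?_
    refine pow_le_pow_left₀ (by positivity) ?_ _
    exact mul_le_mul_of_nonneg_right (le_max_left _ _) (by positivity)
  have hfin : ∀ f : ℕ, 1 ≤ f → (SS T f).Finite := fun f hf =>
    finite_of_bound (B := (C₁ * (f : ℝ) ^ η) ^ (f + 1)) fun S hS' => hcnt' f hf S hS'
  have hsum : ∑' n : ℕ, (volume.restrict (Icc (0 : ℝ) (2 * Real.pi))) (bad T C₁ η (n + 1)) ≠ ⊤ := by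
    have h1 : Summable fun n : ℕ => (20 : ℝ) / 2 ^ (n + 1) := by
      have h2 : Summable fun n : ℕ => (1 / 2 : ℝ) ^ n :=
        summable_geometric_of_lt_one (by norm_num) (by norm_num)
      refine (h2.mul_left 10).congr fun n => ?_
      rw [one_div, inv_pow, pow_succ]
      field_simp
      norm_num
    refine ne_top_of_le_ne_top h1.tsum_ofReal_ne_top (ENNReal.tsum_le_tsum fun n => ?_)
    refine (Measure.restrict_apply_le _ _).trans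
      (bad_le hA hC₁1 hη0.le (by omega) (hfin (n + 1) (by omega)) ?_)
    exact hcnt' (n + 1) (by omega) _ fun G hG => by simpa using hG
  have h1 := ae_eventually_notMem hsum
  have h2 : ∀ᵐ θ ∂(volume.restrict (Icc (0 : ℝ) (2 * Real.pi))), θ ∈ Icc (0 : ℝ) (2 * Real.pi) :=
    ae_restrict_mem measurableSet_Icc
  filter_upwards [h1, h2, ae_ne hA] with θ h3 h4 h5
  rw [Filter.eventually_atTop] at h3
  obtain ⟨n₀, h6⟩ := h3
  -- the exceptional polynomials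
  have hexc : (⋃ f ∈ Finset.Icc 1 n₀, SS T f).Finite := by
    refine Set.Finite.biUnion (Finset.finite_toSet _) fun f hf => hfin f ?_
    have := Finset.mem_coe.1 hf
    rw [Finset.mem_Icc] at this
    exact this.1
  set A : ℝ := 2 ^ k * T * (4 * C₁ ^ 2) ^ (k ^ 2) with hAdef
  set B : ℝ := ∑ G ∈ hexc.toFinset, ‖ev G (zz θ)‖⁻¹ with hB
  have hB0 : 0 ≤ B := Finset.sum_nonneg fun G _ => by positivity
  have hA1 : 1 ≤ A := by
    have h41 : (1 : ℝ) ≤ (4 * C₁ ^ 2) ^ (k ^ 2) := one_le_pow₀ (by nlinarith)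
    have h2k : (1 : ℝ) ≤ 2 ^ k := one_le_pow₀ (by norm_num)
    have : (1 : ℝ) ≤ 2 ^ k * T := by nlinarith
    rw [hAdef]
    nlinarith
  refine ⟨A + B, by linarith, fun G hG hd hM => ?_⟩
  have hM' : MM G ≤ T := hM.trans (le_max_left _ _)
  have hM0 : 0 ≤ MM G := mahlerMeasure_nonneg _
  by_cases hf : G.natDegree ≤ n₀
  · have hmem : G ∈ hexc.toFinset := by
      rw [Set.Finite.mem_toFinset]
      exact mem_biUnion (x := G.natDegree) (by simp [hd, hf]) ⟨hG, rfl, hM'⟩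
    have h7 : ‖ev G (zz θ)‖⁻¹ ≤ B :=
      Finset.single_le_sum (f := fun G : ℤ[X] => ‖ev G (zz θ)‖⁻¹) (fun G _ => by positivity) hmem
    have h8 : 0 < ‖ev G (zz θ)‖ := norm_pos_iff.2 (h5 G hG.ne_zero)
    have h9 : 1 ≤ (A + B) * ‖ev G (zz θ)‖ := by
      have : ‖ev G (zz θ)‖⁻¹ * ‖ev G (zz θ)‖ = 1 := inv_mul_cancel₀ h8.ne'
      nlinarith
    have h10 : (1 : ℝ) ≤ (G.natDegree : ℝ) ^ ε :=
      Real.one_le_rpow (by exact_mod_cast hd) hε.le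
    have h11 : A + B ≤ (A + B) * (G.natDegree : ℝ) ^ ε := by nlinarith
    have h12 : A + B ≤ ((A + B) * (G.natDegree : ℝ) ^ ε) ^ G.natDegree :=
      h11.trans (le_self_pow₀ (by linarith) (by omega))
    nlinarith
  · have hgood : ∀ α, ev G α = 0 → rho C₁ η G.natDegree ≤ ‖zz θ - α‖ := by
      intro α hα
      by_contra hcon
      push Not at hcon
      have h7 := h6 (G.natDegree - 1) (by omega)
      rw [show G.natDegree - 1 + 1 = G.natDegree by omega] at h7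
      exact h7 ⟨h4, G, ⟨hG, rfl, hM'⟩, α, hα, hcon.le⟩
    have h8 := hS G hG hd (zz θ) k (rho C₁ η G.natDegree) hk1 (rho_nonneg hC₁1 _)
      (rho_le_one hC₁1 hη0.le hd) hgood
    exact numeric hk1 hT1 hC₁1 (by linarith) hkε hd (norm_nonneg _) hM0 hM' h8

end Pool.Agent.K7.H55.DPT

namespace Pool.Agent.K7.H54.DP

/-- the job AET -/
theorem aet (hC : StCount) (hS : StSep) (hA : StArc) : StAET := Pool.Agent.K7.H55.DPT.aet hC hS hA

end Pool.Agent.K7.H54.DP
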