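import Pool.Agent.K7.H54.DP.Stm

/-! # Project DP, job ARC -/

set_option autoImplicit false

namespace Pool.Agent.K7.H54.DP

open Polynomial MeasureTheory

theorem norm_zz_sub (x y : ℝ) : ‖zz x - zz y‖ = 2 * |Real.sin ((x - y) / 2)| := by
  have h : zz x - zz y = zz ((x + y) / 2) * (2 * Complex.I * ((Real.sin ((x - y) / 2) : ℝ) : ℂ)) := by
    unfold zz
    rw [Complex.ofReal_sin, Complex.sin]
    have e1 : Complex.exp (x * Complex.I) = Complex.exp ((((x + y) / 2 : ℝ) : ℂ) * Complex.I) *
        Complex.exp ((((x - y) / 2 : ℝ) : ℂ) * Complex.I) := by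
      rw [← Complex.exp_add]
      congr 1
      push_cast
      ring
    have e2 : Complex.exp (y * Complex.I) = Complex.exp ((((x + y) / 2 : ℝ) : ℂ) * Complex.I) *
        Complex.exp (-(((x - y) / 2 : ℝ) : ℂ) * Complex.I) := by
      rw [← Complex.exp_add]
      congr 1
      push_cast
      ring
    rw [e1, e2]
    have hI : Complex.I * Complex.I = -1 := Complex.I_mul_I
    linear_combination (-(Complex.exp ((((x + y) / 2 : ℝ) : ℂ) * Complex.I)) *
      (Complex.exp (-(((x - y) / 2 : ℝ) : ℂ) * Complex.I) -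
        Complex.exp ((((x - y) / 2 : ℝ) : ℂ) * Complex.I))) * hI
  rw [h, norm_mul, norm_mul, norm_mul]
  have h1 : ‖zz ((x + y) / 2)‖ = 1 := by
    unfold zz
    exact Complex.norm_exp_ofReal_mul_I _
  rw [h1, Complex.norm_I, Complex.norm_real, Real.norm_eq_abs]
  norm_num

theorem arc_key {x r : ℝ} (h0 : 0 ≤ x) (h1 : x ≤ 2 * Real.pi) (h : Real.sin (x / 2) ≤ r) :
    x ≤ Real.pi * r ∨ 2 * Real.pi - Real.pi * r ≤ x := by
  have hpi := Real.pi_pos
  rcases le_total x Real.pi with hx | hx
  · left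
    have h2 := Real.mul_le_sin (x := x / 2) (by linarith) (by linarith)
    have h3 : 2 / Real.pi * (x / 2) = x / Real.pi := by ring
    rw [h3] at h2
    have h4 : x / Real.pi ≤ r := h2.trans h
    rw [div_le_iff₀ hpi] at h4
    linarith
  · right
    have h2 := Real.mul_le_sin (x := Real.pi - x / 2) (by linarith) (by linarith)
    rw [Real.sin_pi_sub] at h2
    have h3 : 2 / Real.pi * (Real.pi - x / 2) = 2 - x / Real.pi := by
      field_simp
    rw [h3] at h2
    have h4 : 2 - r ≤ x / Real.pi := by linarith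
    rw [le_div_iff₀ hpi] at h4
    linarith

theorem arc : StArc := by
  intro α r hr
  have hpi := Real.pi_pos
  have hpi4 : Real.pi < 4 := Real.pi_lt_four
  by_cases hne : ({θ : ℝ | θ ∈ Set.Icc 0 (2 * Real.pi) ∧ ‖zz θ - α‖ ≤ r}).Nonempty
  · obtain ⟨y, hy, hyr⟩ := hne
    have hsub : {θ : ℝ | θ ∈ Set.Icc 0 (2 * Real.pi) ∧ ‖zz θ - α‖ ≤ r} ⊆
        Set.Icc (y - Real.pi * r) (y + Real.pi * r) ∪
          (Set.Icc (2 * Real.pi - Real.pi * r) (2 * Real.pi) ∪ Set.Icc 0 (Real.pi * r)) := by
      rintro x ⟨hx, hxr⟩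
      have h1 : ‖zz x - zz y‖ ≤ 2 * r := by
        calc ‖zz x - zz y‖ = ‖(zz x - α) - (zz y - α)‖ := by congr 1; ring
          _ ≤ ‖zz x - α‖ + ‖zz y - α‖ := norm_sub_le _ _
          _ ≤ 2 * r := by linarith
      rw [norm_zz_sub] at h1
      have h2 : Real.sin (|x - y| / 2) ≤ r := by
        have h3 : |Real.sin ((x - y) / 2)| = |Real.sin (|x - y| / 2)| := by
          rcases abs_cases (x - y) with ⟨h, _⟩ | ⟨h, _⟩
          · rw [h]
          · rw [h, neg_div, Real.sin_neg, abs_neg]
        have h4 := le_abs_self (Real.sin (|x - y| / 2))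
        rw [← h3] at h4
        linarith
      have h5 : |x - y| ≤ 2 * Real.pi := by
        rw [abs_le]
        constructor <;> linarith [hx.1, hx.2, hy.1, hy.2]
      rcases arc_key (abs_nonneg _) h5 h2 with h | h
      · left
        rw [abs_le] at h
        exact ⟨by linarith [h.1], by linarith [h.2]⟩
      · right
        rcases abs_cases (x - y) with ⟨h', _⟩ | ⟨h', _⟩
        · left
          rw [h'] at h
          exact ⟨by linarith [hy.1], hx.2⟩
        · right
          rw [h'] at h
          exact ⟨hx.1, by linarith [hy.2]⟩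
    refine (measure_mono hsub).trans ((measure_union_le _ _).trans ?_)
    refine (add_le_add le_rfl (measure_union_le _ _)).trans ?_
    rw [Real.volume_Icc, Real.volume_Icc, Real.volume_Icc,
      ← ENNReal.ofReal_add (by nlinarith) (by nlinarith),
      ← ENNReal.ofReal_add (by nlinarith) (by nlinarith)]
    apply ENNReal.ofReal_le_ofReal
    nlinarith
  · rw [Set.not_nonempty_iff_eq_empty.1 hne]
    simp

end Pool.Agent.K7.H54.DP
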