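import Pool.Agent.K7.H54.DP.Stm2

/-!
# Project DP (MP_4c4335_nt), job COUNT: the number of irreducible polynomials of bounded
Mahler measure
-/

set_option autoImplicit false

namespace Pool.Agent.K7.H54.DP

open Polynomial

/-- `K` pairwise non associated elements of a large set of polynomials -/
theorem exists_nonassoc {K : ℕ} (F : Finset ℤ[X]) (hF : 2 * (K - 1) < F.card) :
    ∃ G : Fin K → ℤ[X], (∀ i, G i ∈ F) ∧ ∀ i j, i ≠ j → G i ≠ G j ∧ G i ≠ -G j := by
  classical
  let φ : ℤ[X] → Finset ℤ[X] := fun G => {G, -G}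
  have h1 : F.card ≤ 2 * (F.image φ).card := by
    apply Finset.card_le_mul_card_image
    intro a ha
    obtain ⟨G, hG, rfl⟩ := Finset.mem_image.1 ha
    calc (F.filter (fun x => φ x = φ G)).card ≤ (φ G).card := by
          apply Finset.card_le_card
          intro x hx
          have h := (Finset.mem_filter.1 hx).2
          rw [← h]
          simp [φ]
      _ ≤ 2 := Finset.card_le_two
  have h2 : K ≤ (F.image φ).card := by omega
  obtain ⟨B, hB, hBc⟩ := Finset.exists_subset_card_eq h2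
  let e : B ≃ Fin K := B.equivFinOfCardEq hBc
  have h3 : ∀ i : Fin K, ∃ G ∈ F, φ G = (e.symm i : Finset ℤ[X]) := by
    intro i
    have := hB (e.symm i).2
    obtain ⟨G, hG, h⟩ := Finset.mem_image.1 this
    exact ⟨G, hG, h⟩
  choose G hG hφ using h3
  refine ⟨G, hG, ?_⟩
  intro i j hij
  have h4 : φ (G i) ≠ φ (G j) := by
    rw [hφ, hφ]
    intro h
    exact hij (e.symm.injective (Subtype.ext h))
  refine ⟨fun h => h4 (by rw [h]), fun h => h4 ?_⟩
  rw [h]
  simp only [φ, neg_neg]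
  exact Finset.pair_comm _ _

theorem count (h : StModk) : StCount := by
  intro T₀ η hη
  set T : ℝ := max 1 T₀ with hT
  have hT1 : 1 ≤ T := le_max_left _ _
  have hT0 : 0 ≤ T := by linarith
  -- the number of congruent polynomials
  obtain ⟨K₀, hK₀⟩ := exists_nat_gt (2 / η)
  set K : ℕ := K₀ + 3 with hK
  have hKr : (K : ℝ) - 1 = K₀ + 2 := by rw [hK]; push_cast; ring
  have hKpos : (0 : ℝ) < (K : ℝ) - 1 := by rw [hKr]; positivity
  have hKη : 2 / ((K : ℝ) - 1) ≤ η := by
    rw [div_le_iff₀ hKpos, hKr]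
    rw [div_lt_iff₀ hη] at hK₀
    nlinarith
  set e : ℝ := 1 / ((K : ℝ) - 1) with he
  have he0 : 0 ≤ e := by positivity
  set c : ℝ := ((K : ℝ) ^ 2 * T ^ (2 * K)) ^ e with hc
  have hc1 : 1 ≤ c := by
    apply Real.one_le_rpow _ he0
    have h1 : (1 : ℝ) ≤ (K : ℝ) ^ 2 := by
      apply one_le_pow₀
      rw [hK]; push_cast; linarith [(Nat.cast_nonneg K₀ : (0 : ℝ) ≤ K₀)]
    have h2 : (1 : ℝ) ≤ T ^ (2 * K) := one_le_pow₀ hT1
    nlinarith
  refine ⟨2 * (K - 1) * (2 * c), by positivity, ?_⟩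
  intro f hf S hS
  have hf1 : (1 : ℝ) ≤ f := by exact_mod_cast hf
  set Q : ℝ := (((K : ℝ) * f) ^ 2 * T ^ (2 * K)) ^ e with hQ
  have hQc : Q = c * (f : ℝ) ^ (2 * e) := by
    rw [hQ, hc]
    rw [show ((K : ℝ) * f) ^ 2 * T ^ (2 * K) = ((K : ℝ) ^ 2 * T ^ (2 * K)) * (f : ℝ) ^ 2 by ring]
    rw [Real.mul_rpow (by positivity) (by positivity)]
    congr 1
    rw [← Real.rpow_natCast (f : ℝ) 2, ← Real.rpow_mul (by positivity)]
    norm_num
  have hQ1 : 1 ≤ Q := by
    rw [hQc]
    have : (1 : ℝ) ≤ (f : ℝ) ^ (2 * e) := Real.one_le_rpow hf1 (by positivity)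
    nlinarith
  have hQη : Q ≤ c * (f : ℝ) ^ η := by
    rw [hQc]
    apply mul_le_mul_of_nonneg_left _ (by linarith)
    apply Real.rpow_le_rpow_of_exponent_le hf1
    calc 2 * e = 2 / ((K : ℝ) - 1) := by rw [he]; ring
      _ ≤ η := hKη
  set q : ℕ := ⌊Q⌋₊ + 1 with hq
  have hqQ : Q < q := by rw [hq]; push_cast; exact Nat.lt_floor_add_one Q
  have hq2 : (q : ℝ) ≤ 2 * Q := by
    rw [hq]; push_cast
    have := Nat.floor_le (show 0 ≤ Q by linarith)
    linarith
  have hqpos : 0 < q := by omega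
  have : NeZero q := ⟨hqpos.ne'⟩
  -- the power of Q
  have hQK : Q ^ (K - 1) = ((K : ℝ) * f) ^ 2 * T ^ (2 * K) := by
    rw [hQ, ← Real.rpow_natCast, ← Real.rpow_mul (by positivity)]
    have : e * ((K - 1 : ℕ) : ℝ) = 1 := by
      rw [he, Nat.cast_sub (by omega)]
      push_cast
      field_simp
    rw [this, Real.rpow_one]
  obtain ⟨g, hg⟩ : ∃ g : ℕ, K * (K - 1) = 2 * g := by
    rcases Nat.even_or_odd K with ⟨m, hm⟩ | ⟨m, hm⟩
    · exact ⟨m * (K - 1), by rw [hm]; ring⟩
    · exact ⟨K * m, by rw [show K - 1 = 2 * m by omega]; ring⟩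
  have hg2 : K * (K - 1) / 2 = g := by omega
  have hQg : Q ^ g = ((K : ℝ) * f) ^ K * T ^ (K * K) := by
    have h1 : (Q ^ g) ^ 2 = (((K : ℝ) * f) ^ K * T ^ (K * K)) ^ 2 := by
      calc (Q ^ g) ^ 2 = Q ^ (K * (K - 1)) := by rw [hg]; ring
        _ = (Q ^ (K - 1)) ^ K := by rw [← pow_mul]; congr 1; ring
        _ = _ := by rw [hQK]; ring
    exact (pow_left_inj₀ (by positivity) (by positivity) (by norm_num)).1 h1
  -- a residue class has few elements
  classical
  let ψ : ℤ[X] → (Fin (f + 1) → ZMod q) := fun G i => (G.coeff i : ZMod q)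
  have hfib : ∀ a ∈ S.image ψ, (S.filter (fun x => ψ x = a)).card ≤ 2 * (K - 1) := by
    intro a _
    by_contra hlt
    push Not at hlt
    obtain ⟨G, hG, hna⟩ := exists_nonassoc _ hlt
    have hm := h K f q T G hf (fun i => (hS _ (Finset.mem_filter.1 (hG i)).1).1)
      (fun i => (hS _ (Finset.mem_filter.1 (hG i)).1).2.1)
      (fun i => ((hS _ (Finset.mem_filter.1 (hG i)).1).2.2).trans (le_max_right _ _)) hna ?_
    · rw [hg2] at hm
      have h1 : ((K * f).factorial : ℝ) ≤ ((K : ℝ) * f) ^ (K * f) := by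
        have := Nat.factorial_le_pow (K * f)
        exact_mod_cast this
      have h2 : T ^ (K * (K * f - 1)) ≤ T ^ (K * K * f) := by
        apply pow_le_pow_right₀ hT1
        calc K * (K * f - 1) ≤ K * (K * f) := Nat.mul_le_mul_left _ (Nat.sub_le _ _)
          _ = K * K * f := by ring
      have h3 : Q ^ (f * g) = ((K : ℝ) * f) ^ (K * f) * T ^ (K * K * f) := by
        rw [mul_comm f g, pow_mul, hQg, mul_pow, ← pow_mul, ← pow_mul]
      have h4 : Q ^ (f * g) < (q : ℝ) ^ (f * g) := by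
        apply pow_lt_pow_left₀ hqQ (by linarith)
        have : g ≠ 0 := by
          rintro rfl
          have : K * (K - 1) ≠ 0 := Nat.mul_ne_zero (by omega) (by omega)
          omega
        exact Nat.mul_ne_zero (by omega) this
      have h5 : ((K * f).factorial : ℝ) * T ^ (K * (K * f - 1)) ≤
          ((K : ℝ) * f) ^ (K * f) * T ^ (K * K * f) :=
        mul_le_mul h1 h2 (by positivity) (by positivity)
      linarith
    · intro i j l
      by_cases hl : l < f + 1
      · have h1 := congrFun ((Finset.mem_filter.1 (hG i)).2.trans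
          (Finset.mem_filter.1 (hG j)).2.symm) ⟨l, hl⟩
        simp only [ψ] at h1
        exact (ZMod.intCast_eq_intCast_iff_dvd_sub _ _ q).1 h1.symm
      · have h1 : (G i).coeff l = 0 := by
          apply coeff_eq_zero_of_natDegree_lt
          rw [(hS _ (Finset.mem_filter.1 (hG i)).1).2.1]; omega
        have h2 : (G j).coeff l = 0 := by
          apply coeff_eq_zero_of_natDegree_lt
          rw [(hS _ (Finset.mem_filter.1 (hG j)).1).2.1]; omega
        rw [h1, h2]; simp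
  have hcard : S.card ≤ 2 * (K - 1) * q ^ (f + 1) := by
    calc S.card ≤ 2 * (K - 1) * (S.image ψ).card := Finset.card_le_mul_card_image _ _ hfib
      _ ≤ 2 * (K - 1) * Fintype.card (Fin (f + 1) → ZMod q) :=
          Nat.mul_le_mul_left _ (Finset.card_le_univ _)
      _ = _ := by rw [Fintype.card_fun, ZMod.card, Fintype.card_fin]
  have hcard' : (S.card : ℝ) ≤ (2 * ((K : ℝ) - 1)) * (q : ℝ) ^ (f + 1) := by
    have h1 : ((2 * (K - 1) * q ^ (f + 1) : ℕ) : ℝ) = (2 * ((K : ℝ) - 1)) * (q : ℝ) ^ (f + 1) := by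
      push_cast [Nat.cast_sub (show 1 ≤ K by omega)]
      ring
    rw [← h1]
    exact_mod_cast hcard
  have hq3 : (q : ℝ) ≤ 2 * c * (f : ℝ) ^ η := by
    calc (q : ℝ) ≤ 2 * Q := hq2
      _ ≤ 2 * (c * (f : ℝ) ^ η) := by linarith
      _ = _ := by ring
  have hK1 : 1 ≤ 2 * ((K : ℝ) - 1) := by rw [hKr]; linarith [(Nat.cast_nonneg K₀ : (0 : ℝ) ≤ K₀)]
  calc (S.card : ℝ) ≤ (2 * ((K : ℝ) - 1)) * (q : ℝ) ^ (f + 1) := hcard'
    _ ≤ (2 * ((K : ℝ) - 1)) ^ (f + 1) * (2 * c * (f : ℝ) ^ η) ^ (f + 1) := by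
        apply mul_le_mul
        · exact le_self_pow₀ hK1 (by omega)
        · exact pow_le_pow_left₀ (by positivity) hq3 _
        · positivity
        · positivity
    _ = _ := by rw [← mul_pow]; congr 1; ring

end Pool.Agent.K7.H54.DP
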