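import Pool.Agent.K7.H54.DP.Stm

/-!
# Project DP, job COVER: all scales
-/

set_option autoImplicit false

namespace Pool.Agent.K7.H54.DP

open Polynomial MeasureTheory

lemma poly_to_vec (θ : ℝ) (U : ℤ[X]) (D m : ℕ) (H : ℝ) (hU : U.natDegree ≤ D)
    (hH : ∀ i, |(U.coeff i : ℝ)| ≤ H) : ∃ b : ℕ → ℤ, ((weight D b : ℤ) : ℝ) ≤ (D + 1) * (1 + m * H) ∧
      val θ D b = m * ev U (zz θ) := by
  refine ⟨fun j => m * U.coeff j, ?_, ?_⟩
  · unfold weight
    push_cast
    calc ∑ j ∈ Finset.range (D + 1), (1 + |(m : ℝ) * (U.coeff j : ℝ)|) ≤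
          ∑ j ∈ Finset.range (D + 1), (1 + m * H) := by
          apply Finset.sum_le_sum
          intro j _
          rw [abs_mul, Nat.abs_cast]
          have := mul_le_mul_of_nonneg_left (hH j) (Nat.cast_nonneg (α := ℝ) m)
          linarith
      _ = _ := by
          rw [Finset.sum_const, Finset.card_range, nsmul_eq_mul]
          push_cast
          ring
  · unfold val ev
    rw [eval_eq_sum_range' (n := D + 1) ((natDegree_map_le).trans_lt (by omega)), Finset.mul_sum]
    apply Finset.sum_congr rfl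
    intro j _
    rw [coeff_map, eq_intCast]
    push_cast
    ring

lemma log_step {N : ℝ} (hN : 21 ≤ N) : N * Real.log N ≤ 2 * ((N - 1) * Real.log (N - 1)) := by
  have h1 : 0 < N - 1 := by linarith
  have h2 : N ^ 3 ≤ (N - 1) ^ 4 := by
    have h3 : N ≤ 2 * (N - 1) := by linarith
    calc N ^ 3 ≤ (2 * (N - 1)) ^ 3 := pow_le_pow_left₀ (by linarith) h3 3
      _ = 8 * (N - 1) ^ 3 := by ring
      _ ≤ (N - 1) * (N - 1) ^ 3 := by
          apply mul_le_mul_of_nonneg_right (by linarith) (by positivity)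
      _ = (N - 1) ^ 4 := by ring
  have h3 := Real.log_le_log (by positivity) h2
  rw [Real.log_pow, Real.log_pow] at h3
  push_cast at h3
  have h4 : 0 ≤ Real.log N := Real.log_nonneg (by linarith)
  have h5 : N * Real.log N ≤ (3 / 2 * (N - 1)) * Real.log N :=
    mul_le_mul_of_nonneg_right (by linarith) h4
  have h6 : (3 / 2 * (N - 1)) * Real.log N ≤ (3 / 2 * (N - 1)) * (4 / 3 * Real.log (N - 1)) :=
    mul_le_mul_of_nonneg_left (by linarith) (by positivity)
  linarith

theorem cover (hS : StScale) : StCover := by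
  obtain ⟨E, hE⟩ : ∃ E : ℕ, E = A₀ + 4 := ⟨_, rfl⟩
  have hE0 : 0 < E := by omega
  have hEr : (0 : ℝ) < E := by exact_mod_cast hE0
  refine ⟨1 / (2 * E), by positivity, ?_⟩
  intro θ hθ hG
  obtain ⟨N₁, K, h⟩ := hS θ hθ hG
  obtain ⟨M, hM⟩ : ∃ M : ℕ, M = max N₁ 20 + K := ⟨_, rfl⟩
  have hM1 : N₁ ≤ M := by omega
  have hM20 : 20 + K ≤ M := by omega
  have hMr : (20 : ℝ) ≤ M := by exact_mod_cast (by omega : 20 ≤ M)
  have hM0 : (0 : ℝ) < M := by linarith
  set a' : ℝ := (M : ℝ) ^ (-(M : ℝ) / 20) with ha'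
  have ha'0 : 0 < a' := Real.rpow_pos_of_pos hM0 _
  have ha'2 : a' ≤ 1 / 2 := by
    calc a' ≤ (M : ℝ) ^ (-1 : ℝ) := by
          apply Real.rpow_le_rpow_of_exponent_le (by linarith)
          linarith
      _ = 1 / (M : ℝ) := by rw [Real.rpow_neg_one, one_div]
      _ ≤ 1 / 2 := one_div_le_one_div_of_le (by norm_num) (by linarith)
  have haa : (M : ℝ) ^ (-(M : ℝ) / 10) = a' * a' := by
    rw [ha', ← Real.rpow_add hM0]
    congr 1
    ring
  -- weights
  have hwt : ∀ N : ℕ, M ≤ N → ((2 * N + K : ℕ) + 1 : ℝ) * (1 + (1 : ℕ) * (N : ℝ) ^ (A₀ + 2)) ≤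
      (N : ℝ) ^ E := by
    intro N hN
    have hNr : ((20 + K : ℕ) : ℝ) ≤ N := by exact_mod_cast (by omega : 20 + K ≤ N)
    push_cast at hNr ⊢
    have hK0 : (0 : ℝ) ≤ K := Nat.cast_nonneg K
    have h1 : (1 : ℝ) ≤ (N : ℝ) ^ (A₀ + 2) := one_le_pow₀ (by linarith)
    have h2 : 2 * (2 * (N : ℝ) + K + 1) ≤ (N : ℝ) ^ 2 := by nlinarith
    calc (2 * (N : ℝ) + K + 1) * (1 + 1 * (N : ℝ) ^ (A₀ + 2)) ≤
          (2 * (N : ℝ) + K + 1) * (2 * (N : ℝ) ^ (A₀ + 2)) := by
          apply mul_le_mul_of_nonneg_left (by linarith) (by linarith)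
      _ = 2 * (2 * (N : ℝ) + K + 1) * (N : ℝ) ^ (A₀ + 2) := by ring
      _ ≤ (N : ℝ) ^ 2 * (N : ℝ) ^ (A₀ + 2) := by
          apply mul_le_mul_of_nonneg_right h2 (by positivity)
      _ = (N : ℝ) ^ E := by
          rw [← pow_add, hE]
          congr 1
  obtain ⟨n₁, hn₁⟩ := exists_nat_ge (((2 * M + K : ℕ) + 1 : ℝ) * (1 + (2 / a') * (M : ℝ) ^ (A₀ + 2)))
  obtain ⟨n₂, hn₂⟩ := exists_nat_ge (((11 : ℝ) ^ E) ^ 2)
  refine ⟨max n₁ (max n₂ 1), ?_⟩
  intro n hn r u hr hr1 hu
  have hnn1 : (n₁ : ℝ) ≤ n := by exact_mod_cast (le_max_left _ _).trans hn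
  have hnn2 : (n₂ : ℝ) ≤ n := by
    exact_mod_cast ((le_max_left _ _).trans (le_max_right _ _)).trans hn
  have hnn3 : (1 : ℝ) ≤ n := by
    exact_mod_cast ((le_max_right _ _).trans (le_max_right _ _)).trans hn
  have hr0 : 0 < r := (Real.exp_pos _).trans_le hr
  set y : ℝ := (n : ℝ) ^ (1 / (2 * (E : ℝ))) with hy
  have hy1 : 1 ≤ y := Real.one_le_rpow hnn3 (by positivity)
  have hyE : y ^ E * y ^ E = n := by
    rw [← pow_add, ← Real.rpow_natCast, ← Real.rpow_mul (by linarith)]
    push_cast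
    rw [show 1 / (2 * (E : ℝ)) * (E + E) = 1 by field_simp; ring, Real.rpow_one]
  have hL : -Real.log r ≤ y := by
    have := Real.log_le_log (Real.exp_pos _) hr
    rw [Real.log_exp] at this
    linarith
  have hpow : ∀ N : ℕ, 0 < N → ∀ t : ℝ, (N : ℝ) ^ t = Real.exp (Real.log N * t) := fun N hN t =>
    Real.rpow_def_of_pos (by exact_mod_cast hN) t
  rcases le_or_gt (-Real.log r) ((M : ℝ) * Real.log M / 10) with hc | hc
  · -- `r` is near `1`
    set m : ℕ := ⌈r / a'⌉₊ with hm
    have hm1 : r / a' ≤ m := Nat.le_ceil _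
    have hm2 : (m : ℝ) < r / a' + 1 := Nat.ceil_lt_add_one (by positivity)
    have hm0 : (0 : ℝ) < m := lt_of_lt_of_le (by positivity) hm1
    have hra : a' * a' ≤ r := by
      rw [← haa, hpow M (by omega), ← Real.exp_log hr0]
      apply Real.exp_le_exp.2
      linarith
    have hup : r / m ≤ a' := by
      rw [div_le_iff₀ hm0]
      rw [div_le_iff₀ ha'0] at hm1
      linarith
    have hlow : a' * a' ≤ r / m := by
      rcases le_or_gt r a' with h1 | h1
      · have h2 : m = 1 := by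
          have h3 : r / a' ≤ 1 := by
            rw [div_le_one ha'0]
            exact h1
          have h4 : (m : ℝ) < 2 := by linarith
          have h5 : m < 2 := by exact_mod_cast h4
          have h6 : 0 < m := by exact_mod_cast hm0
          omega
        rw [h2, Nat.cast_one, div_one]
        exact hra
      · rw [le_div_iff₀ hm0]
        have h2 : (m : ℝ) ≤ 2 * (r / a') := by
          have : 1 ≤ r / a' := by
            rw [le_div_iff₀ ha'0]
            linarith
          linarith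
        calc a' * a' * m ≤ a' * a' * (2 * (r / a')) := by gcongr
          _ = 2 * a' * r := by field_simp
          _ ≤ 1 * r := by
              apply mul_le_mul_of_nonneg_right _ hr0.le
              linarith
          _ = r := one_mul r
    obtain ⟨U, hU1, hU2, hU3⟩ := h M hM1 (r / m) u (by rw [haa]; exact hlow) hup hu
    obtain ⟨b, hb1, hb2⟩ := poly_to_vec θ U (2 * M + K) m _ hU1 hU2
    refine ⟨2 * M + K, b, ?_, ?_⟩
    · have h1 : ((weight (2 * M + K) b : ℤ) : ℝ) ≤ ((n : ℤ) : ℝ) := by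
        refine hb1.trans ?_
        push_cast at hn₁ ⊢
        refine le_trans ?_ (hn₁.trans hnn1)
        have h2 : (m : ℝ) ≤ 2 / a' := by
          have h3 : r / a' ≤ 1 / a' := by gcongr
          have h4 : 1 ≤ 1 / a' := by
            rw [le_div_iff₀ ha'0]
            linarith
          calc (m : ℝ) ≤ r / a' + 1 := hm2.le
            _ ≤ 1 / a' + 1 / a' := by linarith
            _ = 2 / a' := by ring
        gcongr
      exact_mod_cast h1
    · rw [hb2]
      have h1 : (m : ℂ) * ev U (zz θ) - r * u = m * (ev U (zz θ) - ((r / m : ℝ) : ℂ) * u) := by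
        have : (m : ℂ) ≠ 0 := by exact_mod_cast hm0.ne'
        push_cast
        field_simp
      rw [h1, norm_mul, Complex.norm_natCast]
      calc (m : ℝ) * ‖ev U (zz θ) - ((r / m : ℝ) : ℂ) * u‖ ≤ m * (r / m / 50) := by gcongr
        _ = r / 50 := by field_simp
  · -- the general scale
    have hex : ∃ N : ℕ, M ≤ N ∧ -Real.log r ≤ (N : ℝ) * Real.log N / 10 := by
      obtain ⟨N, hN⟩ := exists_nat_ge (-Real.log r * 10)
      refine ⟨N + M, by omega, ?_⟩
      have h1 : 1 ≤ Real.log ((N + M : ℕ) : ℝ) := by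
        rw [Real.le_log_iff_exp_le (by push_cast; positivity)]
        have := Real.exp_one_lt_d9
        push_cast
        have h2 : (0 : ℝ) ≤ N := Nat.cast_nonneg N
        linarith
      have h2 : ((N + M : ℕ) : ℝ) * 1 ≤ ((N + M : ℕ) : ℝ) * Real.log ((N + M : ℕ) : ℝ) :=
        mul_le_mul_of_nonneg_left h1 (Nat.cast_nonneg _)
      have h3 : (N : ℝ) ≤ ((N + M : ℕ) : ℝ) := by exact_mod_cast (by omega : N ≤ N + M)
      linarith
    classical
    set N := Nat.find hex with hNdef
    obtain ⟨hN1, hN2⟩ := Nat.find_spec hex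
    rw [← hNdef] at hN1 hN2
    have hNM : M < N := by
      rcases hN1.lt_or_eq with h1 | h1
      · exact h1
      · rw [← h1] at hN2
        linarith
    have hmin : (((N - 1 : ℕ) : ℝ)) * Real.log ((N - 1 : ℕ) : ℝ) / 10 < -Real.log r := by
      have := Nat.find_min hex (m := N - 1) (by omega)
      push Not at this
      exact this (by omega)
    have hNr : (21 : ℝ) ≤ N := by exact_mod_cast (by omega : 21 ≤ N)
    rw [Nat.cast_sub (by omega : 1 ≤ N), Nat.cast_one] at hmin
    have hstep := log_step hNr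
    obtain ⟨U, hU1, hU2, hU3⟩ := h N (by omega) r u (by
        rw [hpow N (by omega), ← Real.exp_log hr0]
        apply Real.exp_le_exp.2
        linarith) (by
        rw [hpow N (by omega), ← Real.exp_log hr0]
        apply Real.exp_le_exp.2
        linarith) hu
    obtain ⟨b, hb1, hb2⟩ := poly_to_vec θ U (2 * N + K) 1 _ hU1 hU2
    refine ⟨2 * N + K, b, ?_, ?_⟩
    · have hNy : (N : ℝ) ≤ 11 * y := by
        have h1 : 1 ≤ Real.log ((N : ℝ) - 1) := by
          rw [Real.le_log_iff_exp_le (by linarith)]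
          have := Real.exp_one_lt_d9
          linarith
        have h2 : ((N : ℝ) - 1) * 1 ≤ ((N : ℝ) - 1) * Real.log ((N : ℝ) - 1) :=
          mul_le_mul_of_nonneg_left h1 (by linarith)
        linarith
      have h1 : ((weight (2 * N + K) b : ℤ) : ℝ) ≤ ((n : ℤ) : ℝ) := by
        refine (hb1.trans (hwt N hN1)).trans ?_
        push_cast
        have hyEp : 0 ≤ y ^ E := by positivity
        have h11 : (11 : ℝ) ^ E ≤ y ^ E := by
          have h2 : ((11 : ℝ) ^ E) ^ 2 ≤ (y ^ E) ^ 2 := by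
            rw [pow_two (y ^ E), hyE]
            exact hn₂.trans hnn2
          exact (pow_le_pow_iff_left₀ (by positivity) hyEp two_ne_zero).1 h2
        calc (N : ℝ) ^ E ≤ (11 * y) ^ E := pow_le_pow_left₀ (Nat.cast_nonneg _) hNy E
          _ = 11 ^ E * y ^ E := mul_pow _ _ _
          _ ≤ y ^ E * y ^ E := mul_le_mul_of_nonneg_right h11 hyEp
          _ = n := hyE
      exact_mod_cast h1
    · rw [hb2, Nat.cast_one, one_mul]
      exact hU3

end Pool.Agent.K7.H54.DP
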