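import Pool.Agent.K7.H54.DP.Stm2

/-!
# Project DP, job COVERT: all scales, second version
-/

set_option autoImplicit false

namespace Pool.Agent.K7.H54.DP

open Polynomial MeasureTheory

lemma poly_to_vecT (θ : ℝ) (U : ℤ[X]) (D m : ℕ) (H : ℝ) (hU : U.natDegree ≤ D)
    (hH : (∑ i ∈ Finset.range (D + 1), |(U.coeff i : ℝ)|) ≤ H) :
    ∃ b : ℕ → ℤ, ((weight D b : ℤ) : ℝ) ≤ (D + 1) + m * H ∧ val θ D b = m * ev U (zz θ) := by
  refine ⟨fun j => m * U.coeff j, ?_, ?_⟩
  · unfold weight
    push_cast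
    rw [Finset.sum_add_distrib]
    have h1 : ∑ j ∈ Finset.range (D + 1), |(m : ℝ) * (U.coeff j : ℝ)| =
        m * ∑ j ∈ Finset.range (D + 1), |(U.coeff j : ℝ)| := by
      rw [Finset.mul_sum]
      apply Finset.sum_congr rfl
      intro j _
      rw [abs_mul, Nat.abs_cast]
    rw [h1, Finset.sum_const, Finset.card_range, nsmul_eq_mul]
    push_cast
    have := mul_le_mul_of_nonneg_left hH (Nat.cast_nonneg (α := ℝ) m)
    linarith
  · unfold val ev
    rw [eval_eq_sum_range' (n := D + 1) ((natDegree_map_le).trans_lt (by omega)), Finset.mul_sum]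
    apply Finset.sum_congr rfl
    intro j _
    rw [coeff_map, eq_intCast]
    push_cast
    ring

theorem covert (hS : StScaleT) : StCoverT := by
  intro θ ε C hθ hε hC hG
  obtain ⟨M₁, K, h⟩ := hS θ ε C hθ hε hC hG
  obtain ⟨M, hM⟩ : ∃ M : ℕ, M = max M₁ 20 + K := ⟨_, rfl⟩
  have hM1 : M₁ ≤ M := by omega
  have hM20 : 20 + K ≤ M := by omega
  have hMr : (20 : ℝ) ≤ M := by exact_mod_cast (by omega : 20 ≤ M)
  have hM0 : (0 : ℝ) < M := by linarith
  obtain ⟨p, hp⟩ : ∃ p : ℝ, p = 3 / 2 + 41 * ε := ⟨_, rfl⟩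
  obtain ⟨e, he⟩ : ∃ e : ℝ, e = 3 / 2 + 42 * ε := ⟨_, rfl⟩
  have hp1 : 1 ≤ p := by rw [hp]; linarith
  have he0 : 0 < e := by rw [he]; linarith
  have hpe : e = p + ε := by rw [he, hp]; ring
  rw [← he]
  rw [← hp] at h
  set a' : ℝ := Real.exp (-(M / 4)) with ha'
  have ha'0 : 0 < a' := Real.exp_pos _
  have ha3 : Real.exp (-(3 * M / 4)) = a' * Real.exp (-(M / 2)) := by
    rw [ha', ← Real.exp_add]
    congr 1
    ring
  have hhalf : Real.exp (-((M : ℝ) / 2)) ≤ 1 / 2 := by
    have h1 : (2 : ℝ) ≤ Real.exp (M / 2) := by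
      have := Real.add_one_le_exp ((M : ℝ) / 2)
      linarith
    rw [Real.exp_neg, one_div]
    exact inv_anti₀ (by norm_num) h1
  have ha'1 : a' ≤ 1 := by
    rw [ha', Real.exp_le_one_iff]
    linarith
  obtain ⟨n₁, hn₁⟩ := exists_nat_ge (((2 * M + K : ℕ) + 1 : ℝ) + (2 / a') * (M : ℝ) ^ p)
  obtain ⟨n₂, hn₂⟩ := exists_nat_ge ((5 * (3 : ℝ) ^ p) ^ (e / ε))
  refine ⟨max n₁ (max n₂ 1), ?_⟩
  intro n hn r u hr hr1 hu
  have hnn1 : (n₁ : ℝ) ≤ n := by exact_mod_cast (le_max_left _ _).trans hn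
  have hnn2 : (n₂ : ℝ) ≤ n := by
    exact_mod_cast ((le_max_left _ _).trans (le_max_right _ _)).trans hn
  have hnn3 : (1 : ℝ) ≤ n := by
    exact_mod_cast ((le_max_right _ _).trans (le_max_right _ _)).trans hn
  have hr0 : 0 < r := (Real.exp_pos _).trans_le hr
  set y : ℝ := (n : ℝ) ^ (1 / e) with hy
  have hy1 : 1 ≤ y := Real.one_le_rpow hnn3 (by positivity)
  have hy0 : 0 < y := by linarith
  have hye : y ^ p * y ^ ε = n := by
    rw [← Real.rpow_add hy0, ← hpe, hy, ← Real.rpow_mul (by linarith), one_div,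
      inv_mul_cancel₀ he0.ne', Real.rpow_one]
  have hyε : 5 * (3 : ℝ) ^ p ≤ y ^ ε := by
    have h3 : (0 : ℝ) ≤ 5 * (3 : ℝ) ^ p := by positivity
    have h1 : ((5 * (3 : ℝ) ^ p) ^ (e / ε)) ^ (ε / e) ≤ (n : ℝ) ^ (ε / e) :=
      Real.rpow_le_rpow (by positivity) (hn₂.trans hnn2) (by positivity)
    rw [← Real.rpow_mul h3, div_mul_div_cancel₀ hε.ne', div_self he0.ne', Real.rpow_one] at h1
    have h2 : y ^ ε = (n : ℝ) ^ (ε / e) := by
      rw [hy, ← Real.rpow_mul (by linarith)]
      congr 1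
      ring
    rw [h2]
    exact h1
  have hL : -Real.log r ≤ y := by
    have := Real.log_le_log (Real.exp_pos _) hr
    rw [Real.log_exp] at this
    linarith
  rcases le_or_gt (-Real.log r) (3 * (M : ℝ) / 4) with hc | hc
  · -- `r` is near `1`
    set m : ℕ := ⌈r / a'⌉₊ with hm
    have hm1 : r / a' ≤ m := Nat.le_ceil _
    have hm2 : (m : ℝ) < r / a' + 1 := Nat.ceil_lt_add_one (by positivity)
    have hm0 : (0 : ℝ) < m := lt_of_lt_of_le (by positivity) hm1
    have hra : Real.exp (-(3 * M / 4)) ≤ r := by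
      conv_rhs => rw [← Real.exp_log hr0]
      apply Real.exp_le_exp.2
      linarith
    have hup : r / m ≤ a' := by
      rw [div_le_iff₀ hm0]
      rw [div_le_iff₀ ha'0] at hm1
      linarith
    have hlow : Real.exp (-(3 * M / 4)) ≤ r / m := by
      rcases le_or_gt r a' with h1 | h1
      · have h2 : m = 1 := by
          have h3 : r / a' ≤ 1 := by
            rw [div_le_one ha'0]
            exact h1
          have h4 : (m : ℝ) < 2 := by linarith
          have h5 : m < 2 := by exact_mod_cast h4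
          have h6 : 0 < m := by exact_mod_cast hm0
          omega
        rw [h2, Nat.cast_one, div_one]
        exact hra
      · rw [le_div_iff₀ hm0, ha3]
        have h2 : (m : ℝ) ≤ 2 * (r / a') := by
          have : 1 ≤ r / a' := by
            rw [le_div_iff₀ ha'0]
            linarith
          linarith
        calc a' * Real.exp (-(M / 2)) * m ≤ a' * (1 / 2) * (2 * (r / a')) := by gcongr
          _ = r := by field_simp
    obtain ⟨U, hU1, hU2, hU3⟩ := h M hM1 (r / m) u hlow hup hu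
    obtain ⟨b, hb1, hb2⟩ := poly_to_vecT θ U (2 * M + K) m _ hU1 hU2
    refine ⟨2 * M + K, b, ?_, ?_⟩
    · have h1 : ((weight (2 * M + K) b : ℤ) : ℝ) ≤ ((n : ℤ) : ℝ) := by
        refine hb1.trans ?_
        push_cast at hn₁ ⊢
        refine le_trans ?_ (hn₁.trans hnn1)
        have h2 : (m : ℝ) ≤ 2 / a' := by
          have h3 : r / a' ≤ 1 / a' := by gcongr
          have h4 : 1 ≤ 1 / a' := by
            rw [le_div_iff₀ ha'0]
            linarith
          calc (m : ℝ) ≤ r / a' + 1 := hm2.le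
            _ ≤ 1 / a' + 1 / a' := by linarith
            _ = 2 / a' := by ring
        gcongr
      exact_mod_cast h1
    · rw [hb2]
      have h1 : (m : ℂ) * ev U (zz θ) - r * u = m * (ev U (zz θ) - ((r / m : ℝ) : ℂ) * u) := by
        have : (m : ℂ) ≠ 0 := by exact_mod_cast hm0.ne'
        push_cast
        field_simp
      rw [h1, norm_mul, Complex.norm_natCast]
      calc (m : ℝ) * ‖ev U (zz θ) - ((r / m : ℝ) : ℂ) * u‖ ≤ m * (r / m / 50) := by gcongr
        _ = r / 50 := by field_simp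
  · -- the general scale
    have hex : ∃ N : ℕ, M ≤ N ∧ -Real.log r ≤ 3 * (N : ℝ) / 4 := by
      obtain ⟨N, hN⟩ := exists_nat_ge (-Real.log r * 2)
      refine ⟨N + M, by omega, ?_⟩
      push_cast
      have h2 : 0 < -Real.log r := by linarith
      linarith
    classical
    set N := Nat.find hex with hNdef
    obtain ⟨hN1, hN2⟩ := Nat.find_spec hex
    rw [← hNdef] at hN1 hN2
    have hNM : M < N := by
      rcases hN1.lt_or_eq with h1 | h1
      · exact h1
      · rw [← h1] at hN2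
        linarith
    have hmin : 3 * (((N - 1 : ℕ) : ℝ)) / 4 < -Real.log r := by
      have := Nat.find_min hex (m := N - 1) (by omega)
      push Not at this
      exact this (by omega)
    have hNr : (21 : ℝ) ≤ N := by exact_mod_cast (by omega : 21 ≤ N)
    rw [Nat.cast_sub (by omega : 1 ≤ N), Nat.cast_one] at hmin
    obtain ⟨U, hU1, hU2, hU3⟩ := h N (by omega) r u (by
        conv_rhs => rw [← Real.exp_log hr0]
        apply Real.exp_le_exp.2
        linarith) (by
        conv_lhs => rw [← Real.exp_log hr0]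
        apply Real.exp_le_exp.2
        linarith) hu
    obtain ⟨b, hb1, hb2⟩ := poly_to_vecT θ U (2 * N + K) 1 _ hU1 hU2
    refine ⟨2 * N + K, b, ?_, ?_⟩
    · have hNy : (N : ℝ) ≤ 3 * y := by linarith
      have h1 : ((weight (2 * N + K) b : ℤ) : ℝ) ≤ ((n : ℤ) : ℝ) := by
        refine hb1.trans ?_
        have hNK : ((20 + K : ℕ) : ℝ) ≤ N := by exact_mod_cast (by omega : 20 + K ≤ N)
        push_cast at hNK ⊢
        have hK0 : (0 : ℝ) ≤ K := Nat.cast_nonneg K
        have hNp : (N : ℝ) ≤ (N : ℝ) ^ p := by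
          conv_lhs => rw [← Real.rpow_one (N : ℝ)]
          exact Real.rpow_le_rpow_of_exponent_le (by linarith) hp1
        calc 2 * (N : ℝ) + K + 1 + 1 * (N : ℝ) ^ p ≤ 5 * (N : ℝ) ^ p := by linarith
          _ ≤ 5 * (3 * y) ^ p := by
              have := Real.rpow_le_rpow (Nat.cast_nonneg N) hNy (by linarith : (0 : ℝ) ≤ p)
              linarith
          _ = (5 * (3 : ℝ) ^ p) * y ^ p := by
              rw [Real.mul_rpow (by norm_num) hy0.le]
              ring
          _ ≤ y ^ ε * y ^ p := by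
              apply mul_le_mul_of_nonneg_right hyε
              exact Real.rpow_nonneg hy0.le _
          _ = n := by rw [mul_comm]; exact hye
      exact_mod_cast h1
    · rw [hb2, Nat.cast_one, one_mul]
      exact hU3

end Pool.Agent.K7.H54.DP
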