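import Pool.Agent.K7.H54.DP.Stm

/-!
# Project DP, job DPV: from the values to their logarithms
-/

set_option autoImplicit false

namespace Pool.Agent.K7.H54.DP

open Polynomial MeasureTheory

/-- numbers close to `1` -/
lemma near_one {v : ℂ} (hv : ‖v - 1‖ ≤ 1 / 50) : v ≠ 0 ∧ |Real.log ‖v‖| ≤ 1 / 49 ∧
    |v.arg| ≤ 33 / 1000 := by
  have h1 : ‖v‖ ≤ 51 / 50 := by
    have := norm_le_norm_add_norm_sub' v 1
    rw [norm_one] at this
    linarith
  have h2 : 49 / 50 ≤ ‖v‖ := by
    have := norm_sub_norm_le (1 : ℂ) (1 - v)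
    rw [norm_one, sub_sub_cancel, norm_sub_rev] at this
    linarith
  have h0 : 0 < ‖v‖ := by linarith
  refine ⟨norm_pos_iff.1 h0, ?_, ?_⟩
  · rw [abs_le]
    constructor
    · have h3 := Real.one_sub_inv_le_log_of_pos h0
      have h4 : ‖v‖⁻¹ ≤ 50 / 49 := by
        rw [inv_le_comm₀ h0 (by norm_num)]
        norm_num
        exact h2
      linarith
    · have h3 := Real.log_le_sub_one_of_pos h0
      linarith
  · have hre : 0 < v.re := by
      have h3 := (Complex.abs_re_le_norm (v - 1)).trans hv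
      rw [Complex.sub_re, Complex.one_re, abs_le] at h3
      linarith [h3.1]
    have him : |v.im| ≤ 1 / 50 := by
      have h3 := (Complex.abs_im_le_norm (v - 1)).trans hv
      rwa [Complex.sub_im, Complex.one_im, sub_zero] at h3
    have h3 : |v.arg| ≤ Real.pi / 2 := Complex.abs_arg_le_pi_div_two_iff.2 hre.le
    have h4 := Real.mul_abs_le_abs_sin h3
    have h5 : |Real.sin v.arg| ≤ 1 / 49 := by
      rw [Complex.sin_arg, abs_div, abs_of_pos h0, div_le_iff₀ h0]
      linarith
    have hpi : 0 < Real.pi := Real.pi_pos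
    have hpi2 := Real.pi_lt_d2
    have h6 : 2 / Real.pi * |v.arg| ≤ 1 / 49 := h4.trans h5
    have h7 : |v.arg| ≤ Real.pi / 2 * (1 / 49) := by
      calc |v.arg| = Real.pi / 2 * (2 / Real.pi * |v.arg|) := by field_simp
        _ ≤ Real.pi / 2 * (1 / 49) := by gcongr
    linarith

theorem dpv : StDpv := by
  intro θ c n hC x h1 h2 h3 h4
  rw [Real.log_exp] at h1
  obtain ⟨φ, hφ1, hφ2, hφ3⟩ : ∃ φ : ℝ, 4 / 100 ≤ φ ∧ φ ≤ 2 * Real.pi - 4 / 100 ∧
      |x.im - φ| ≤ 4 / 100 := by
    have hpi := Real.pi_gt_three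
    refine ⟨max (4 / 100) (min x.im (2 * Real.pi - 4 / 100)), le_max_left _ _, ?_, ?_⟩
    · exact max_le (by linarith) (min_le_right _ _)
    · rcases le_total x.im (2 * Real.pi - 4 / 100) with h | h
      · rw [min_eq_left h]
        rcases le_total (4 / 100) x.im with h' | h'
        · rw [max_eq_right h', sub_self, abs_zero]
          norm_num
        · rw [max_eq_left h', abs_le]
          constructor <;> linarith
      · rw [min_eq_right h, max_eq_right (by linarith), abs_le]
        constructor <;> linarith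
  set r := Real.exp x.re with hr
  have hr0 : 0 < r := Real.exp_pos _
  set u := Complex.exp (φ * Complex.I) with hu
  have hu1 : ‖u‖ = 1 := Complex.norm_exp_ofReal_mul_I φ
  have hu0 : u ≠ 0 := Complex.exp_ne_zero _
  obtain ⟨D, b, hb, hval⟩ := hC r u (Real.exp_le_exp.2 h1) (by
    rw [hr, ← Real.exp_zero]
    exact Real.exp_le_exp.2 h2) hu1
  set w := val θ D b with hw
  have hru : (r : ℂ) * u ≠ 0 := mul_ne_zero (by exact_mod_cast hr0.ne') hu0
  set v : ℂ := w / (r * u) with hv
  have hwv : w = r * (u * v) := by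
    rw [hv, ← mul_assoc, mul_div_cancel₀ _ hru]
  have hv1 : ‖v - 1‖ ≤ 1 / 50 := by
    have e : v - 1 = (w - r * u) / (r * u) := by
      rw [hv, sub_div, div_self hru]
    rw [e, norm_div, norm_mul, hu1, mul_one, Complex.norm_real, Real.norm_of_nonneg hr0.le,
      div_le_iff₀ hr0]
    linarith
  obtain ⟨hv0, hlog, harg⟩ := near_one hv1
  have hnw : ‖w‖ = r * ‖v‖ := by
    rw [hwv, norm_mul, norm_mul, hu1, one_mul, Complex.norm_real, Real.norm_of_nonneg hr0.le]
  have hw0 : w ≠ 0 := by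
    rw [hwv]
    exact mul_ne_zero (by exact_mod_cast hr0.ne') (mul_ne_zero hu0 hv0)
  have hlogw : Real.log ‖w‖ = x.re + Real.log ‖v‖ := by
    rw [hnw, Real.log_mul hr0.ne' (norm_ne_zero_iff.2 hv0), hr, Real.log_exp]
  have hargw : toIcoMod Real.two_pi_pos 0 w.arg = φ + v.arg := by
    have e1 : w = ((r * ‖v‖ : ℝ) : ℂ) * Complex.exp (((φ + v.arg : ℝ) : ℂ) * Complex.I) := by
      rw [hwv]
      have h5 := Complex.norm_mul_exp_arg_mul_I v
      conv_lhs => rw [← h5]
      push_cast
      rw [hu, add_mul, Complex.exp_add]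
      ring
    rw [e1, Complex.arg_real_mul _ (mul_pos hr0 (norm_pos_iff.2 hv0)), Complex.arg_exp_mul_I,
      toIcoMod_toIocMod, toIcoMod_eq_self]
    rw [abs_le] at harg
    constructor
    · linarith [harg.1]
    · linarith [harg.2]
  refine ⟨lg w, ⟨D, b, hb, hw0, rfl⟩, ?_⟩
  refine (Complex.norm_le_abs_re_add_abs_im _).trans ?_
  have e1 : (x - lg w).re = -Real.log ‖v‖ := by
    rw [Complex.sub_re]
    show x.re - Real.log ‖w‖ = _
    rw [hlogw]
    ring
  have e2 : (x - lg w).im = (x.im - φ) - v.arg := by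
    rw [Complex.sub_im]
    show x.im - toIcoMod Real.two_pi_pos 0 w.arg = _
    rw [hargw]
    ring
  rw [e1, e2, abs_neg]
  have h5 := abs_sub (x.im - φ) v.arg
  linarith

end Pool.Agent.K7.H54.DP
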