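import Pool.Agent.K7.H54.DP.Stm

/-!
# Project DP (MP_4c4335_nt): the products of differences of the roots

`dl u` is the product of all `‖u i - u j‖`, `i ≠ j` (the absolute value of the squared Vandermonde).
-/

set_option autoImplicit false

namespace Pool.Agent.K7.H54.DP

open Polynomial

/-- the product of all `‖u i - u j‖`, `i ≠ j` -/
noncomputable def dl {ι : Type*} [Fintype ι] [DecidableEq ι] (u : ι → ℂ) : ℝ :=
  ∏ i, ∏ j, (if i = j then 1 else ‖u i - u j‖)

theorem dl_nonneg {ι : Type*} [Fintype ι] [DecidableEq ι] (u : ι → ℂ) : 0 ≤ dl u := by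
  unfold dl
  refine Finset.prod_nonneg (fun i _ => Finset.prod_nonneg (fun j _ => ?_))
  split_ifs
  · exact zero_le_one
  · exact norm_nonneg _

theorem dl_equiv {ι κ : Type*} [Fintype ι] [DecidableEq ι] [Fintype κ] [DecidableEq κ]
    (e : κ ≃ ι) (u : ι → ℂ) : dl (u ∘ e) = dl u := by
  unfold dl
  rw [← Equiv.prod_comp e (fun i => ∏ j, (if i = j then 1 else ‖u i - u j‖))]
  refine Finset.prod_congr rfl (fun i _ => ?_)
  rw [← Equiv.prod_comp e (fun j => (if e i = j then 1 else ‖u (e i) - u j‖))]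
  refine Finset.prod_congr rfl (fun j _ => ?_)
  simp [Function.comp]

theorem dl_sum {ι κ : Type*} [Fintype ι] [DecidableEq ι] [Fintype κ] [DecidableEq κ]
    (v : ι → ℂ) (w : κ → ℂ) :
    dl (Sum.elim v w) = dl v * dl w * (∏ i, ∏ j, ‖v i - w j‖) ^ 2 := by
  unfold dl
  rw [Fintype.prod_sum_type]
  have h1 : ∀ i : ι, (∏ j : ι ⊕ κ, (if (Sum.inl i : ι ⊕ κ) = j then (1 : ℝ) else
      ‖Sum.elim v w (Sum.inl i) - Sum.elim v w j‖)) =
      (∏ j : ι, (if i = j then 1 else ‖v i - v j‖)) * ∏ j : κ, ‖v i - w j‖ := by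
    intro i
    rw [Fintype.prod_sum_type]
    simp
  have h2 : ∀ i : κ, (∏ j : ι ⊕ κ, (if (Sum.inr i : ι ⊕ κ) = j then (1 : ℝ) else
      ‖Sum.elim v w (Sum.inr i) - Sum.elim v w j‖)) =
      (∏ j : ι, ‖v j - w i‖) * ∏ j : κ, (if i = j then 1 else ‖w i - w j‖) := by
    intro i
    rw [Fintype.prod_sum_type]
    simp [norm_sub_rev]
  simp_rw [h1, h2, Finset.prod_mul_distrib]
  rw [Finset.prod_comm (s := (Finset.univ : Finset κ)) (t := (Finset.univ : Finset ι))]
  ring

theorem dl_succ {m : ℕ} (v : Fin (m + 1) → ℂ) :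
    dl v = (∏ j : Fin m, ‖v 0 - v j.succ‖) ^ 2 * dl (fun j : Fin m => v j.succ) := by
  unfold dl
  rw [Fin.prod_univ_succ]
  simp_rw [Fin.prod_univ_succ]
  simp only [if_true, one_mul, Fin.succ_ne_zero, if_false, Fin.succ_inj, (Fin.succ_ne_zero _).symm,
    Finset.prod_mul_distrib]
  have h : ∏ x : Fin m, ‖v x.succ - v 0‖ = ∏ x : Fin m, ‖v 0 - v x.succ‖ :=
    Finset.prod_congr rfl (fun x _ => norm_sub_rev _ _)
  rw [h]
  ring

theorem dl_eq_det {m : ℕ} (v : Fin m → ℂ) : dl v = ‖(Matrix.vandermonde v).det‖ ^ 2 := by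
  induction m with
  | zero => simp [dl]
  | succ m ih =>
    rw [dl_succ, ih, Matrix.det_vandermonde, Matrix.det_vandermonde, Fin.prod_univ_succ]
    simp only [Fin.prod_Ioi_zero, Fin.prod_Ioi_succ, norm_mul, norm_prod]
    rw [mul_pow]
    congr 2
    exact Finset.prod_congr rfl (fun x _ => norm_sub_rev _ _)

theorem dl_le (hV : StVdm) {ι : Type*} [Fintype ι] [DecidableEq ι] (u : ι → ℂ) :
    dl u ≤ ((Fintype.card ι).factorial * (∏ i, max 1 ‖u i‖) ^ (Fintype.card ι - 1)) ^ 2 := by
  have e := Fintype.equivFin ι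
  rw [← dl_equiv e.symm u, dl_eq_det]
  refine pow_le_pow_left₀ (norm_nonneg _) ?_ 2
  refine (hV _ _).trans (le_of_eq ?_)
  rw [Finset.prod_pow]
  congr 2
  exact Equiv.prod_comp e.symm (fun i => max 1 ‖u i‖)

/-! ### Irreducible polynomials and their roots -/

/-- `v` is the family of the roots of `G` (with multiplicity) -/
def IsRoots (G : ℤ[X]) {f : ℕ} (v : Fin f → ℂ) : Prop :=
  G.map (Int.castRingHom ℂ) = C (G.leadingCoeff : ℂ) * ∏ i, (X - C (v i))

theorem isPrimitive_of_irreducible' {G : ℤ[X]} (hG : Irreducible G) (h1 : 1 ≤ G.natDegree) :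
    G.IsPrimitive := hG.isPrimitive (by omega)

theorem irreducible_map_rat {G : ℤ[X]} (hG : Irreducible G) (h1 : 1 ≤ G.natDegree) :
    Irreducible (G.map (Int.castRingHom ℚ)) :=
  (Polynomial.IsPrimitive.Int.irreducible_iff_irreducible_map_cast
    (isPrimitive_of_irreducible' hG h1)).1 hG

theorem map_complex_eq (G : ℤ[X]) :
    G.map (Int.castRingHom ℂ) = (G.map (Int.castRingHom ℚ)).map (algebraMap ℚ ℂ) := by
  rw [Polynomial.map_map]
  congr 1

theorem natDegree_map_complex (G : ℤ[X]) : (G.map (Int.castRingHom ℂ)).natDegree = G.natDegree :=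
  natDegree_map_eq_of_injective (Int.castRingHom ℂ).injective_int G

theorem leadingCoeff_map_complex (G : ℤ[X]) :
    (G.map (Int.castRingHom ℂ)).leadingCoeff = (G.leadingCoeff : ℂ) := by
  rw [leadingCoeff_map_of_injective (Int.castRingHom ℂ).injective_int]
  simp

theorem separable_map_complex {G : ℤ[X]} (hG : Irreducible G) (h1 : 1 ≤ G.natDegree) :
    (G.map (Int.castRingHom ℂ)).Separable := by
  rw [map_complex_eq]
  exact (irreducible_map_rat hG h1).separable.map

/-- the roots of an irreducible polynomial -/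
theorem exists_roots {G : ℤ[X]} (hG : Irreducible G) (h1 : 1 ≤ G.natDegree) :
    ∃ v : Fin G.natDegree → ℂ, Function.Injective v ∧ IsRoots G v := by
  set g := G.map (Int.castRingHom ℂ) with hg
  have hnd : g.roots.Nodup := nodup_roots (separable_map_complex hG h1)
  have hsp : g.Splits := IsAlgClosed.splits g
  have hcard : Multiset.card g.roots = G.natDegree := by
    rw [← hsp.natDegree_eq_card_roots, natDegree_map_complex]
  have hcard' : (g.roots.toFinset).card = G.natDegree := by
    rw [Multiset.toFinset_card_of_nodup hnd, hcard]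
  have e := Finset.equivFinOfCardEq hcard'
  refine ⟨fun i => (e.symm i : ℂ), ?_, ?_⟩
  · intro i j h
    exact e.symm.injective (Subtype.ext h)
  · have h := hsp.eq_prod_roots
    unfold IsRoots
    rw [← hg]
    conv_lhs => rw [h]
    rw [leadingCoeff_map_complex]
    congr 1
    have h2 : (g.roots.map (fun a => X - C a)).prod = ∏ a ∈ g.roots.toFinset, (X - C a) := by
      rw [Finset.prod, Multiset.toFinset_val, Multiset.dedup_eq_self.2 hnd]
    rw [h2, ← Finset.prod_coe_sort, ← Equiv.prod_comp e.symm]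

theorem IsRoots.ev_eq {G : ℤ[X]} {f : ℕ} {v : Fin f → ℂ} (h : IsRoots G v) (z : ℂ) :
    ev G z = G.leadingCoeff * ∏ i, (z - v i) := by
  unfold ev
  rw [h, eval_mul, eval_C, eval_prod]
  simp

theorem IsRoots.roots_eq {G : ℤ[X]} {f : ℕ} {v : Fin f → ℂ} (h : IsRoots G v) (h0 : G ≠ 0) :
    (G.map (Int.castRingHom ℂ)).roots = (Finset.univ : Finset (Fin f)).val.map v := by
  rw [h, roots_C_mul _ (by exact_mod_cast leadingCoeff_ne_zero.2 h0)]
  have : (∏ i, (X - C (v i))) = ((Finset.univ.val.map v).map (fun a => X - C a)).prod := by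
    rw [Multiset.map_map]; rfl
  rw [this, roots_multiset_prod_X_sub_C]

theorem IsRoots.MM_eq {G : ℤ[X]} {f : ℕ} {v : Fin f → ℂ} (h : IsRoots G v) (h0 : G ≠ 0) :
    MM G = |(G.leadingCoeff : ℝ)| * ∏ i, max 1 ‖v i‖ := by
  unfold MM
  rw [mahlerMeasure_eq_leadingCoeff_mul_prod_roots, h.roots_eq h0, leadingCoeff_map_complex,
    Multiset.map_map]
  congr 1
  exact Complex.norm_intCast _

theorem one_le_lc {G : ℤ[X]} (h0 : G ≠ 0) : 1 ≤ |(G.leadingCoeff : ℝ)| := by
  have := Int.one_le_abs (leadingCoeff_ne_zero.2 h0)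
  exact_mod_cast this

theorem one_le_prod_max {ι : Type*} (s : Finset ι) (v : ι → ℂ) : 1 ≤ ∏ i ∈ s, max 1 ‖v i‖ := by
  induction s using Finset.cons_induction with
  | empty => simp
  | cons a s ha ih =>
    rw [Finset.prod_cons]
    exact one_le_mul_of_one_le_of_one_le (le_max_left _ _) ih

/-- the resultant as a product -/
theorem resultant_cast {G E : ℤ[X]} {f : ℕ} {v : Fin f → ℂ} (h : IsRoots G v) (h0 : G ≠ 0)
    (n : ℕ) (hE : E.natDegree ≤ n) :
    ((resultant G E G.natDegree n : ℤ) : ℂ) = (G.leadingCoeff : ℂ) ^ n * ∏ i, ev E (v i) := by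
  have h1 := resultant_map_map G E G.natDegree n (Int.castRingHom ℂ)
  have h2 := resultant_eq_prod_eval (G.map (Int.castRingHom ℂ)) (E.map (Int.castRingHom ℂ)) n
    (natDegree_map_le.trans hE) (IsAlgClosed.splits _)
  rw [natDegree_map_complex, h1, leadingCoeff_map_complex, h.roots_eq h0, Multiset.map_map] at h2
  exact h2

theorem ev_derivative {G : ℤ[X]} {f : ℕ} {v : Fin f → ℂ} (h : IsRoots G v) (i : Fin f) :
    ‖ev (derivative G) (v i)‖ = |(G.leadingCoeff : ℝ)| *
      ∏ j, (if i = j then 1 else ‖v i - v j‖) := by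
  unfold ev
  rw [← derivative_map, h, derivative_C_mul, eval_mul, eval_C, derivative_prod_finset, eval_finsetSum]
  rw [Finset.sum_eq_single i]
  · rw [norm_mul, eval_mul, eval_prod]
    simp only [derivative_sub, derivative_X, derivative_C, sub_zero, eval_one, mul_one, eval_sub,
      eval_X, eval_C]
    rw [Complex.norm_intCast, norm_prod]
    congr 1
    rw [← Finset.mul_prod_erase Finset.univ _ (Finset.mem_univ i)]
    simp only [if_true, one_mul]
    refine Finset.prod_congr rfl (fun j hj => ?_)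
    rw [if_neg (Finset.ne_of_mem_erase hj).symm]
  · intro j _ hj
    rw [eval_mul, eval_prod]
    rw [Finset.prod_eq_zero (i := i)]
    · simp
    · simp [hj.symm]
    · simp
  · simp

/-- the key fact: the discriminant of an irreducible polynomial is at least one -/
theorem one_le_disc {G : ℤ[X]} (hG : Irreducible G) (h1 : 1 ≤ G.natDegree)
    {v : Fin G.natDegree → ℂ} (h : IsRoots G v) (hv : Function.Injective v) :
    1 ≤ |(G.leadingCoeff : ℝ)| ^ (2 * G.natDegree - 1) * dl v := by
  have h0 : G ≠ 0 := hG.ne_zero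
  have hr := resultant_cast h h0 (G.natDegree - 1) (natDegree_derivative_le G)
  set R : ℤ := resultant G (derivative G) G.natDegree (G.natDegree - 1) with hR
  have hn : |(R : ℝ)| = |(G.leadingCoeff : ℝ)| ^ (2 * G.natDegree - 1) * dl v := by
    rw [← Complex.norm_intCast, hr, norm_mul, norm_pow, Complex.norm_intCast, norm_prod]
    simp_rw [ev_derivative h]
    rw [Finset.prod_mul_distrib, Finset.prod_const, Finset.card_univ, Fintype.card_fin, ← mul_assoc,
      ← pow_add]
    congr 2
    omega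
  rw [← hn]
  have hR0 : R ≠ 0 := by
    intro hR0
    rw [hR0] at hn
    have : 0 < |(G.leadingCoeff : ℝ)| ^ (2 * G.natDegree - 1) * dl v := by
      have := one_le_lc h0
      refine mul_pos (by positivity) ?_
      unfold dl
      refine Finset.prod_pos (fun i _ => Finset.prod_pos (fun j _ => ?_))
      split_ifs with hij
      · exact one_pos
      · exact norm_pos_iff.2 (sub_ne_zero.2 (fun h => hij (hv h)))
    rw [← hn] at this
    simp at this
  exact_mod_cast Int.one_le_abs hR0

end Pool.Agent.K7.H54.DP
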