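import Pool.Agent.K7.H54.DP.Stm

/-! Project DP, job FAC: products of irreducible polynomials. -/

set_option autoImplicit false

namespace Pool.Agent.K7.H54.DP

open Polynomial

lemma ev_mul' (P Q : ℤ[X]) (z : ℂ) : ev (P * Q) z = ev P z * ev Q z := by
  unfold ev
  rw [Polynomial.map_mul, eval_mul]

lemma one_le_ev_const {P : ℤ[X]} (hP : P ≠ 0) (hd : P.natDegree = 0) (z : ℂ) : 1 ≤ ‖ev P z‖ := by
  obtain ⟨c, rfl⟩ := natDegree_eq_zero.1 hd
  have hc : c ≠ 0 := by
    rintro rfl
    exact hP C_0
  unfold ev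
  rw [map_C, eval_C, eq_intCast, Complex.norm_intCast]
  exact_mod_cast Int.one_le_abs hc

theorem fac : StFac := by
  intro z N hN hG G
  have hN1 : (1 : ℝ) ≤ N := by exact_mod_cast hN
  induction G using WfDvdMonoid.induction_on_irreducible with
  | zero => intro h; exact absurd rfl h
  | unit u hu =>
    intro h0 _ _
    have hd : u.natDegree = 0 := natDegree_eq_zero_of_isUnit hu
    rw [hd, mul_zero, pow_zero, one_mul]
    exact one_le_ev_const h0 hd z
  | mul a i ha hi ih =>
    intro h0 hdeg hM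
    have hi0 : i ≠ 0 := hi.ne_zero
    have hdm : (i * a).natDegree = i.natDegree + a.natDegree := natDegree_mul hi0 ha
    have hMM : MM (i * a) = MM i * MM a := by
      unfold MM
      rw [Polynomial.map_mul, mahlerMeasure_mul]
    have hMi : 1 ≤ MM i := Polynomial.one_le_mahlerMeasure_of_ne_zero hi0
    have hMa : 1 ≤ MM a := Polynomial.one_le_mahlerMeasure_of_ne_zero ha
    have h1 : MM i ≤ (N : ℝ) ^ 3 := by
      refine le_trans ?_ hM
      rw [hMM]
      exact le_mul_of_one_le_right (by linarith) hMa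
    have h2 : MM a ≤ (N : ℝ) ^ 3 := by
      refine le_trans ?_ hM
      rw [hMM]
      exact le_mul_of_one_le_left (by linarith) hMi
    have h3 := ih ha (by omega) h2
    have h4 : 1 ≤ (N : ℝ) ^ (60 * i.natDegree) * ‖ev i z‖ := by
      rcases Nat.eq_zero_or_pos i.natDegree with h | h
      · rw [h, mul_zero, pow_zero, one_mul]
        exact one_le_ev_const hi0 h z
      · exact hG i hi h (by omega) h1
    rw [hdm, mul_add, pow_add, ev_mul', norm_mul]
    calc (1 : ℝ) ≤ ((N : ℝ) ^ (60 * i.natDegree) * ‖ev i z‖) *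
        ((N : ℝ) ^ (60 * a.natDegree) * ‖ev a z‖) := one_le_mul_of_one_le_of_one_le h4 h3
      _ = _ := by ring

end Pool.Agent.K7.H54.DP
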