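import Pool.Agent.K7.H54.DP.Stm2
import Pool.Agent.K7.H54.DP.FAC

/-! Project DPT, job FACT: products of irreducible polynomials. -/

set_option autoImplicit false

namespace Pool.Agent.K7.H54.DP

open Polynomial

theorem fact : StFacT := by
  intro z T ε C hε hC hG N G hN
  have hN1 : (1 : ℝ) ≤ N := by exact_mod_cast hN
  induction G using WfDvdMonoid.induction_on_irreducible with
  | zero => intro h; exact absurd rfl h
  | unit u hu =>
    intro h0 _ _
    have hd : u.natDegree = 0 := natDegree_eq_zero_of_isUnit hu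
    rw [hd, pow_zero, one_mul]
    exact one_le_ev_const h0 hd z
  | mul a i ha hi ih =>
    intro h0 hdeg hM
    have hi0 : i ≠ 0 := hi.ne_zero
    have hdm : (i * a).natDegree = i.natDegree + a.natDegree := natDegree_mul hi0 ha
    have hMM : MM (i * a) = MM i * MM a := by
      unfold MM
      rw [Polynomial.map_mul, mahlerMeasure_mul]
    have hMi : 1 ≤ MM i := Polynomial.one_le_mahlerMeasure_of_ne_zero hi0
    have hMa : 1 ≤ MM a := Polynomial.one_le_mahlerMeasure_of_ne_zero ha
    have h1 : MM i ≤ T := by
      refine le_trans ?_ hM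
      rw [hMM]
      exact le_mul_of_one_le_right (by linarith) hMa
    have h2 : MM a ≤ T := by
      refine le_trans ?_ hM
      rw [hMM]
      exact le_mul_of_one_le_left (by linarith) hMi
    have h3 := ih ha (by omega) h2
    have h4 : 1 ≤ (C * (N : ℝ) ^ ε) ^ i.natDegree * ‖ev i z‖ := by
      rcases Nat.eq_zero_or_pos i.natDegree with h | h
      · rw [h, pow_zero, one_mul]
        exact one_le_ev_const hi0 h z
      · refine (hG i hi h h1).trans ?_
        refine mul_le_mul_of_nonneg_right ?_ (norm_nonneg _)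
        have hdi : (i.natDegree : ℝ) ≤ N := by
          have : i.natDegree ≤ N := by omega
          exact_mod_cast this
        have h5 : (i.natDegree : ℝ) ^ ε ≤ (N : ℝ) ^ ε :=
          Real.rpow_le_rpow (Nat.cast_nonneg _) hdi hε.le
        have hC0 : 0 ≤ C := by linarith
        exact pow_le_pow_left₀ (mul_nonneg hC0 (Real.rpow_nonneg (Nat.cast_nonneg _) _))
          (mul_le_mul_of_nonneg_left h5 hC0) _
    rw [hdm, pow_add, ev_mul', norm_mul]
    calc (1 : ℝ) ≤ ((C * (N : ℝ) ^ ε) ^ i.natDegree * ‖ev i z‖) *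
        ((C * (N : ℝ) ^ ε) ^ a.natDegree * ‖ev a z‖) := one_le_mul_of_one_le_of_one_le h4 h3
      _ = _ := by ring

end Pool.Agent.K7.H54.DP
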