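import Pool.Agent.K7.H54.DP.Stm2

/-!
# Project DPT, job FINALT
-/

set_option autoImplicit false

namespace Pool.Agent.K7.H54.DP

open Polynomial MeasureTheory

lemma cover_mono {θ c c' : ℝ} {n : ℕ} (hcc : c' ≤ c) (hn : 1 ≤ n) (h : Cover θ c n) :
    Cover θ c' n := by
  intro r u hr hr1 hu
  refine h r u (le_trans ?_ hr) hr1 hu
  apply Real.exp_le_exp.2
  apply neg_le_neg
  exact Real.rpow_le_rpow_of_exponent_le (by exact_mod_cast hn) hcc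

lemma exponent_le {ε δ : ℝ} (hε : 0 < ε) (hδ : 0 < δ) (h : ε < δ * 3 / 56) :
    2 / 3 - δ ≤ 1 / (3 / 2 + 42 * ε) := by
  rw [le_div_iff₀ (by positivity)]
  have := mul_pos hε hδ
  nlinarith

/-- JOB FINALT -/
theorem finalt (hA : StAET) (hC : StCoverT) (hD : StDpv) (hI : StIrr) : StFinalT := by
  have h1 : ∀ᵐ θ ∂(volume.restrict (Set.Ico (0 : ℝ) (2 * Real.pi))),
      ∀ k : ℕ, ∃ C : ℝ, 1 ≤ C ∧ Good2 (zz θ) 150 (1 / ((k : ℝ) + 1)) C :=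
    ae_mono (Measure.restrict_mono Set.Ico_subset_Icc_self le_rfl)
      (ae_all_iff.2 fun k => hA 150 (1 / ((k : ℝ) + 1)) (by positivity))
  have h2 : ∀ᵐ θ ∂(volume.restrict (Set.Ico (0 : ℝ) (2 * Real.pi))),
      ∀ k : ℕ, 1 ≤ k → zz θ ^ k ≠ 1 := ae_restrict_of_ae hI
  filter_upwards [h1, h2] with θ h3 h4
  intro δ hδ
  obtain ⟨k, hk⟩ := exists_nat_one_div_lt (show (0 : ℝ) < δ * 3 / 56 by positivity)
  obtain ⟨C, hC1, hG⟩ := h3 k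
  have hk0 : (0 : ℝ) < 1 / ((k : ℝ) + 1) := by positivity
  obtain ⟨n₀, hn⟩ := hC θ (1 / ((k : ℝ) + 1)) C h4 hk0 hC1 hG
  refine ⟨max n₀ 1, fun n hn0 => ?_⟩
  have h5 := hD θ (2 / 3 - δ) n
    (cover_mono (exponent_le hk0 hδ hk) ((le_max_right _ _).trans hn0)
      (hn n ((le_max_left _ _).trans hn0)))
  exact ⟨h5, le_sSup ⟨_, Real.exp_pos _, h5, rfl⟩⟩

end Pool.Agent.K7.H54.DP
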