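import Pool.Agent.K7.H54.DP.Stm

/-!
# Project DP, job FINAL
-/

set_option autoImplicit false

namespace Pool.Agent.K7.H54.DP

open Polynomial MeasureTheory

/-- JOB FINAL -/
theorem final (hAE : StAE) (hCover : StCover) (hDpv : StDpv) (hIrr : StIrr) : StFinal := by
  obtain ⟨c, hc, hcov⟩ := hCover
  refine ⟨c, hc, ?_⟩
  have h1 : ∀ᵐ θ ∂(volume.restrict (Set.Ico (0 : ℝ) (2 * Real.pi))),
      ∃ N₀ : ℕ, ∀ N : ℕ, N₀ ≤ N → Good (zz θ) N :=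
    ae_mono (Measure.restrict_mono Set.Ico_subset_Icc_self le_rfl) hAE
  have h2 : ∀ᵐ θ ∂(volume.restrict (Set.Ico (0 : ℝ) (2 * Real.pi))),
      ∀ k : ℕ, 1 ≤ k → zz θ ^ k ≠ 1 := ae_restrict_of_ae hIrr
  filter_upwards [h1, h2] with θ h3 h4
  obtain ⟨n₀, hn⟩ := hcov θ h4 h3
  refine ⟨n₀, fun n hn0 => ?_⟩
  have h5 := hDpv θ c n (hn n hn0)
  exact ⟨h5, le_sSup ⟨_, Real.exp_pos _, h5, rfl⟩⟩

end Pool.Agent.K7.H54.DP
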