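import Pool.Agent.K7.H54.DP.Stm

/-! Project DP, job GCD: the greatest common divisor and Bezout with bounded degrees. -/

set_option autoImplicit false

namespace Pool.Agent.K7.H54.DP

open Polynomial

namespace GcdJob

variable {S : Set ℝ[X]}

/-- small multiples -/
noncomputable def W (S : Set ℝ[X]) (d : ℕ) : Submodule ℝ ℝ[X] :=
  Submodule.span ℝ {Q | ∃ P ∈ S, ∃ i ≤ d, Q = X ^ i * P}

lemma mul_mem_W {P B : ℝ[X]} {d : ℕ} (hP : P ∈ S) (hB : B.natDegree ≤ d) : B * P ∈ W S d := by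
  rw [B.as_sum_range_C_mul_X_pow, Finset.sum_mul]
  refine Submodule.sum_mem _ fun i hi => ?_
  rw [Finset.mem_range] at hi
  rw [mul_assoc, ← smul_eq_C_mul]
  exact Submodule.smul_mem _ _ (Submodule.subset_span ⟨P, hP, i, by omega, rfl⟩)

/-- reduction of a product modulo `P0` -/
lemma red (P0 : ℝ[X]) (h0 : P0 ≠ 0) (a : ℝ[X]) {v : ℝ[X]} (hv : v ∈ W S P0.natDegree) :
    ∃ v' ∈ W S P0.natDegree, ∃ E : ℝ[X], a * v = v' + P0 * E := by
  induction hv using Submodule.span_induction with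
  | mem x hx =>
    obtain ⟨P, hP, i, -, rfl⟩ := hx
    refine ⟨(a * X ^ i % P0) * P, mul_mem_W hP ?_, (a * X ^ i / P0) * P, ?_⟩
    · exact natDegree_le_natDegree (EuclideanDomain.mod_lt (a * X ^ i) h0).le
    · have := EuclideanDomain.div_add_mod (a * X ^ i) P0
      linear_combination -P * this
  | zero => exact ⟨0, Submodule.zero_mem _, 0, by simp⟩
  | add x y _ _ hx hy =>
    obtain ⟨v1, h1, E1, e1⟩ := hx
    obtain ⟨v2, h2, E2, e2⟩ := hy
    exact ⟨v1 + v2, Submodule.add_mem _ h1 h2, E1 + E2, by linear_combination e1 + e2⟩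
  | smul c x _ hx =>
    obtain ⟨v1, h1, E1, e1⟩ := hx
    refine ⟨c • v1, Submodule.smul_mem _ _ h1, c • E1, ?_⟩
    rw [mul_smul_comm, e1, smul_add, mul_smul_comm]

lemma ideal_red (P0 : ℝ[X]) (h0 : P0 ≠ 0) {h : ℝ[X]} (hh : h ∈ Ideal.span S) :
    ∃ v ∈ W S P0.natDegree, ∃ E : ℝ[X], h = v + P0 * E := by
  induction hh using Submodule.span_induction with
  | mem x hx =>
    exact ⟨x, Submodule.subset_span ⟨x, hx, 0, Nat.zero_le _, by simp⟩, 0, by simp⟩
  | zero => exact ⟨0, Submodule.zero_mem _, 0, by simp⟩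
  | add x y _ _ hx hy =>
    obtain ⟨v1, h1, E1, e1⟩ := hx
    obtain ⟨v2, h2, E2, e2⟩ := hy
    exact ⟨v1 + v2, Submodule.add_mem _ h1 h2, E1 + E2, by linear_combination e1 + e2⟩
  | smul c x _ hx =>
    obtain ⟨v1, h1, E1, e1⟩ := hx
    obtain ⟨v2, h2, E2, e2⟩ := red P0 h0 c h1
    refine ⟨v2, h2, E2 + c * E1, ?_⟩
    rw [smul_eq_mul, e1]
    linear_combination e2

lemma W_degree {d M : ℕ} (hM : ∀ P ∈ S, P.natDegree ≤ M) {v : ℝ[X]} (hv : v ∈ W S d) :
    v.natDegree ≤ d + M := by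
  induction hv using Submodule.span_induction with
  | mem x hx =>
    obtain ⟨P, hP, i, hi, rfl⟩ := hx
    refine natDegree_mul_le.trans ?_
    rw [natDegree_X_pow]
    have := hM P hP
    omega
  | zero => simp
  | add x y _ _ hx hy => exact (natDegree_add_le x y).trans (max_le hx hy)
  | smul c x _ hx => exact (natDegree_smul_le c x).trans hx

/-- Bezout with bounded degrees -/
lemma bezout {M : ℕ} (hM : ∀ P ∈ S, P.natDegree ≤ M) {P0 : ℝ[X]} (hP0 : P0 ∈ S) (h0 : P0 ≠ 0)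
    {h : ℝ[X]} (hh : h ∈ Ideal.span S) (hd : h.natDegree ≤ P0.natDegree) : h ∈ W S M := by
  obtain ⟨v, hv, E, e⟩ := ideal_red P0 h0 hh
  have hv' : v ∈ W S M := by
    refine Submodule.span_mono ?_ hv
    rintro Q ⟨P, hP, i, hi, rfl⟩
    exact ⟨P, hP, i, hi.trans (hM P0 hP0), rfl⟩
  rw [e]
  refine Submodule.add_mem _ hv' ?_
  rw [mul_comm]
  apply mul_mem_W hP0
  by_cases hE : E = 0
  · rw [hE]; simp
  have h1 : (P0 * E).natDegree ≤ P0.natDegree + M := by
    have h2 : P0 * E = h - v := by rw [e]; ring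
    rw [h2]
    exact (natDegree_sub_le h v).trans (max_le (by omega) (W_degree hM hv))
  rw [natDegree_mul h0 hE] at h1
  omega

end GcdJob

open GcdJob in
/-- JOB GCD -/
theorem gcd : StGcd := by
  classical
  intro Γ M hne hM
  obtain ⟨P0, hP0, h0⟩ := hne
  let φ : ℤ[X] → ℚ[X] := Polynomial.map (Int.castRingHom ℚ)
  have hinj : Function.Injective (Int.castRingHom ℚ) := Int.cast_injective
  have hinjR : Function.Injective (Int.castRingHom ℝ) := Int.cast_injective
  have hφ0 : φ P0 ≠ 0 := by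
    intro h
    exact h0 ((Polynomial.map_injective _ hinj) (by rw [Polynomial.map_zero]; exact h))
  -- the generator of the ideal
  obtain ⟨g, hg⟩ := (IsPrincipalIdealRing.principal (Ideal.span (φ '' Γ))).principal
  have hgd : ∀ P ∈ Γ, g ∣ φ P := by
    intro P hP
    have : φ P ∈ Ideal.span (φ '' Γ) := Ideal.subset_span ⟨P, hP, rfl⟩
    rw [hg] at this
    exact Ideal.mem_span_singleton.1 this
  have hgm : g ∈ Ideal.span (φ '' Γ) := by
    rw [hg]; exact Submodule.mem_span_singleton_self g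
  have hg0 : g ≠ 0 := by
    rintro rfl
    exact hφ0 (zero_dvd_iff.1 (hgd P0 hP0))
  obtain ⟨b, hb⟩ := IsLocalization.integerNormalization_map_to_map (nonZeroDivisors ℤ) g
  have hb0 : ((b : ℤ) : ℚ) ≠ 0 := by
    have := nonZeroDivisors.ne_zero b.2
    exact_mod_cast this
  obtain ⟨G1, hG1⟩ : ∃ G1 : ℤ[X], G1 = IsLocalization.integerNormalization (nonZeroDivisors ℤ) g :=
    ⟨_, rfl⟩
  rw [← hG1] at hb
  have hb' : φ G1 = C ((b : ℤ) : ℚ) * g := by
    have e1 : φ G1 = G1.map (algebraMap ℤ ℚ) := rfl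
    rw [e1, hb]
    ext i
    simp
  have hG10 : G1 ≠ 0 := by
    rintro rfl
    have h1 : φ 0 = 0 := Polynomial.map_zero _
    rw [h1] at hb'
    exact mul_ne_zero (C_ne_zero.2 hb0) hg0 hb'.symm
  have hc0 : ((G1.content : ℤ) : ℚ) ≠ 0 := by
    have : G1.content ≠ 0 := by rwa [Ne, content_eq_zero_iff]
    exact_mod_cast this
  have hG : φ G1 = C ((G1.content : ℤ) : ℚ) * φ G1.primPart := by
    conv_lhs => rw [G1.eq_C_content_mul_primPart]
    change Polynomial.map _ _ = _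
    rw [Polynomial.map_mul, Polynomial.map_C]
    rfl
  have hG' : φ G1.primPart = C (((b : ℤ) : ℚ) / ((G1.content : ℤ) : ℚ)) * g := by
    have h1 : C ((G1.content : ℤ) : ℚ) * φ G1.primPart = C ((b : ℤ) : ℚ) * g := by
      rw [← hG, hb']
    have h2 : (C ((G1.content : ℤ) : ℚ) : ℚ[X]) ≠ 0 := C_ne_zero.2 hc0
    apply mul_left_cancel₀ h2
    rw [h1, ← mul_assoc, ← C_mul, mul_div_cancel₀ _ hc0]
  have hdiv : ∀ P ∈ Γ, G1.primPart ∣ P := by
    intro P hP
    by_cases hPz : P = 0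
    · rw [hPz]; exact dvd_zero _
    have h1 : φ G1.primPart ∣ φ P := by
      obtain ⟨c, hc⟩ := hgd P hP
      refine ⟨C (((G1.content : ℤ) : ℚ) / ((b : ℤ) : ℚ)) * c, ?_⟩
      rw [hG', hc]
      have : (C (((b : ℤ) : ℚ) / ((G1.content : ℤ) : ℚ)) * g *
          (C (((G1.content : ℤ) : ℚ) / ((b : ℤ) : ℚ)) * c) : ℚ[X]) =
          C ((((b : ℤ) : ℚ) / ((G1.content : ℤ) : ℚ)) * (((G1.content : ℤ) : ℚ) / ((b : ℤ) : ℚ))) *
            (g * c) := by
        rw [C_mul]; ring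
      rw [this, div_mul_div_cancel₀ hc0, div_self hb0, C_1, one_mul]
    exact IsPrimitive.dvd_of_fraction_map_dvd_fraction_map (K := ℚ) G1.isPrimitive_primPart h1
  refine ⟨G1.primPart, G1.primPart_ne_zero, hdiv, ?_⟩
  · -- the ideal over the real numbers
    let ψ : ℤ[X] → ℝ[X] := Polynomial.map (Int.castRingHom ℝ)
    have hmem : φ G1.primPart ∈ Ideal.span (φ '' Γ) := by
      rw [hG']
      exact Ideal.mul_mem_left _ _ hgm
    have hcomp : ∀ P : ℤ[X], (φ P).map (algebraMap ℚ ℝ) = ψ P := by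
      intro P
      change (Polynomial.map _ P).map _ = Polynomial.map _ P
      rw [Polynomial.map_map]
      congr 1
    have hmemR : ψ G1.primPart ∈ Ideal.span (ψ '' Γ) := by
      have h1 := Ideal.mem_map_of_mem (mapRingHom (algebraMap ℚ ℝ)) hmem
      rw [Ideal.map_span, ← Set.image_comp] at h1
      have h2 : (mapRingHom (algebraMap ℚ ℝ)) (φ G1.primPart) = ψ G1.primPart := hcomp _
      rw [h2] at h1
      have h3 : ((mapRingHom (algebraMap ℚ ℝ) : ℚ[X] → ℝ[X]) ∘ φ) '' Γ = ψ '' Γ := by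
        apply Set.image_congr
        intro P _
        exact hcomp P
      rw [h3] at h1
      exact h1
    have hψ0 : ψ P0 ≠ 0 := by
      intro h
      exact h0 ((Polynomial.map_injective _ hinjR) (by rw [Polynomial.map_zero]; exact h))
    have hdvd : G1.primPart ∣ P0 := hdiv P0 hP0
    have hdeg : (ψ G1.primPart).natDegree ≤ (ψ P0).natDegree := by
      rw [natDegree_map_eq_of_injective hinjR, natDegree_map_eq_of_injective hinjR]
      exact natDegree_le_of_dvd hdvd h0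
    have hMψ : ∀ Q ∈ ψ '' Γ, Q.natDegree ≤ M := by
      rintro Q ⟨P, hP, rfl⟩
      exact natDegree_map_le.trans (hM P hP)
    have h1 := bezout hMψ ⟨P0, hP0, rfl⟩ hψ0 hmemR hdeg
    refine Submodule.span_mono ?_ h1
    rintro Q ⟨_, ⟨P, hP, rfl⟩, i, hi, rfl⟩
    exact ⟨P, hP, i, hi, rfl⟩

end Pool.Agent.K7.H54.DP
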