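import Pool.Agent.K7.H54.DP.Stm2

/-!
# Job GSC of project DPT (helper94): counting lattice points by a Gaussian sum
-/

set_option autoImplicit false

namespace Pool.Agent.K7.H54.DP.GSC

open scoped InnerProductSpace

lemma geo {ι : Type*} (B : Finset ι) (g : ι → ℕ) (hg : Set.InjOn g B) (r : ℝ) (h0 : 0 ≤ r)
    (h1 : r < 1) : ∑ k ∈ B, r ^ (g k) ≤ (1 - r)⁻¹ := by
  classical
  have h : ∑ i ∈ B.image g, r ^ i = ∑ k ∈ B, r ^ (g k) := Finset.sum_image hg
  rw [← h, ← tsum_geometric_of_lt_one h0 h1]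
  exact (summable_geometric_of_lt_one h0 h1).sum_le_tsum _ (fun i _ => pow_nonneg h0 i)

lemma one_dim (a l : ℝ) (ha : 0 < a) (B : Finset ℤ) :
    ∑ k ∈ B, Real.exp (-(a ^ 2 * ((k : ℝ) + l) ^ 2)) ≤ 3 * (1 + 1 / a) := by
  classical
  set r := Real.exp (-a) with hr
  have hr0 : 0 ≤ r := (Real.exp_pos _).le
  have hr1 : r < 1 := by
    rw [hr]
    have := Real.exp_lt_exp.mpr (show -a < 0 by linarith)
    rwa [Real.exp_zero] at this
  have hpow : ∀ i : ℕ, r ^ i = Real.exp (-(a * i)) := by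
    intro i
    rw [hr, ← Real.exp_nat_mul]; congr 1; ring
  have hterm : ∀ k : ℤ, ∀ i : ℕ, (i : ℝ) ≤ |(k : ℝ) + l| →
      Real.exp (-(a ^ 2 * ((k : ℝ) + l) ^ 2)) ≤ (3 / 2) * r ^ i := by
    intro k i hi
    have e1 : -(a ^ 2 * ((k : ℝ) + l) ^ 2) ≤ 1 / 4 + -(a * i) := by
      have : a ^ 2 * ((k : ℝ) + l) ^ 2 = (a * |(k : ℝ) + l|) ^ 2 := by
        rw [mul_pow, sq_abs]
      rw [this]
      have h2 : a * i ≤ a * |(k : ℝ) + l| := mul_le_mul_of_nonneg_left hi ha.le
      nlinarith [sq_nonneg (a * |(k : ℝ) + l| - 1 / 2)]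
    calc Real.exp (-(a ^ 2 * ((k : ℝ) + l) ^ 2)) ≤ Real.exp (1 / 4 + -(a * i)) :=
          Real.exp_le_exp.mpr e1
      _ = Real.exp (1 / 4) * r ^ i := by rw [Real.exp_add, hpow]
      _ ≤ (3 / 2) * r ^ i := by
          refine mul_le_mul_of_nonneg_right ?_ (pow_nonneg hr0 i)
          have h4 : Real.exp (1 / 4) ≤ 1 / (1 - 1 / 4) := by
            have h5 : (1 : ℝ) - 1 / 4 ≤ Real.exp (-(1 / 4)) := by
              have := Real.add_one_le_exp (-(1 / 4 : ℝ)); linarith
            rw [Real.exp_neg] at h5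
            rw [le_div_iff₀ (by norm_num)]
            have h6 : 0 < Real.exp (1 / 4) := Real.exp_pos _
            have h7 : Real.exp (1 / 4) * (1 - 1 / 4) ≤ Real.exp (1 / 4) * (Real.exp (1 / 4))⁻¹ :=
              mul_le_mul_of_nonneg_left h5 h6.le
            rwa [mul_inv_cancel₀ h6.ne'] at h7
          refine h4.trans ?_
          norm_num
  have hinv : (1 - r)⁻¹ ≤ 1 + 1 / a := by
    have h5 : 1 + a ≤ Real.exp a := by have := Real.add_one_le_exp a; linarith
    have h6 : r * Real.exp a = 1 := by rw [hr, ← Real.exp_add]; simp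
    have h7 : r * (1 + a) ≤ 1 := by
      calc r * (1 + a) ≤ r * Real.exp a := mul_le_mul_of_nonneg_left h5 hr0
        _ = 1 := h6
    rw [inv_le_comm₀ (by linarith) (by positivity)]
    have h8 : (1 + 1 / a)⁻¹ = a / (1 + a) := by
      field_simp
      ring
    rw [h8, div_le_iff₀ (by linarith)]
    nlinarith
  set c : ℤ := ⌊l⌋ with hc
  have hfl : (c : ℝ) ≤ l := Int.floor_le l
  have hfl2 : l < c + 1 := Int.lt_floor_add_one l
  have hsplit := Finset.sum_filter_add_sum_filter_not B (fun k => 0 ≤ k + c)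
    (fun k : ℤ => Real.exp (-(a ^ 2 * ((k : ℝ) + l) ^ 2)))
  rw [← hsplit]
  have hA : ∑ k ∈ B.filter (fun k => 0 ≤ k + c), Real.exp (-(a ^ 2 * ((k : ℝ) + l) ^ 2)) ≤
      (3 / 2) * (1 - r)⁻¹ := by
    calc _ ≤ ∑ k ∈ B.filter (fun k => 0 ≤ k + c), (3 / 2) * r ^ ((k + c).toNat) := by
          refine Finset.sum_le_sum fun k hk => hterm k _ ?_
          have hk0 := (Finset.mem_filter.mp hk).2
          have : ((k + c).toNat : ℝ) = (k : ℝ) + c := by
            have h := Int.toNat_of_nonneg hk0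
            have h' : (((k + c).toNat : ℤ) : ℝ) = ((k + c : ℤ) : ℝ) := by rw [h]
            push_cast at h'
            exact h'
          rw [this]
          have : (k : ℝ) + c ≤ k + l := by linarith
          exact this.trans (le_abs_self _)
      _ = (3 / 2) * ∑ k ∈ B.filter (fun k => 0 ≤ k + c), r ^ ((k + c).toNat) := by
          rw [Finset.mul_sum]
      _ ≤ _ := by
          refine mul_le_mul_of_nonneg_left (geo _ _ ?_ r hr0 hr1) (by norm_num)
          intro x hx y hy hxy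
          have hx0 := (Finset.mem_filter.mp (Finset.mem_coe.mp hx)).2
          have hy0 := (Finset.mem_filter.mp (Finset.mem_coe.mp hy)).2
          simp only at hxy
          omega
  have hB : ∑ k ∈ B.filter (fun k => ¬ 0 ≤ k + c), Real.exp (-(a ^ 2 * ((k : ℝ) + l) ^ 2)) ≤
      (3 / 2) * (1 - r)⁻¹ := by
    calc _ ≤ ∑ k ∈ B.filter (fun k => ¬ 0 ≤ k + c), (3 / 2) * r ^ ((-(k + c) - 1).toNat) := by
          refine Finset.sum_le_sum fun k hk => hterm k _ ?_
          have hk0 := (Finset.mem_filter.mp hk).2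
          have : ((-(k + c) - 1).toNat : ℝ) = -((k : ℝ) + c) - 1 := by
            have h := Int.toNat_of_nonneg (show 0 ≤ -(k + c) - 1 by omega)
            have h' : (((-(k + c) - 1).toNat : ℤ) : ℝ) = ((-(k + c) - 1 : ℤ) : ℝ) := by rw [h]
            push_cast at h'
            linarith
          rw [this]
          have : -((k : ℝ) + c) - 1 ≤ -(k + l) := by linarith
          exact this.trans (neg_le_abs _)
      _ = (3 / 2) * ∑ k ∈ B.filter (fun k => ¬ 0 ≤ k + c), r ^ ((-(k + c) - 1).toNat) := by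
          rw [Finset.mul_sum]
      _ ≤ _ := by
          refine mul_le_mul_of_nonneg_left (geo _ _ ?_ r hr0 hr1) (by norm_num)
          intro x hx y hy hxy
          have hx0 := (Finset.mem_filter.mp (Finset.mem_coe.mp hx)).2
          have hy0 := (Finset.mem_filter.mp (Finset.mem_coe.mp hy)).2
          simp only at hxy
          omega
  nlinarith

variable {E : Type*} [NormedAddCommGroup E] [InnerProductSpace ℝ E] [FiniteDimensional ℝ E]

lemma main (T s : ℝ) (hT : 0 < T) (hs : 0 < s) : ∀ (m : ℕ) (b : Fin m → E),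
    (∀ i, ∀ x ∈ Submodule.span ℝ (b '' {j | j < i}), T ≤ ‖b i + x‖) →
    ∀ (F : E) (A : Finset (Fin m → ℤ)),
      ∑ q ∈ A, Real.exp (-(‖F + ∑ i, (q i : ℝ) • b i‖ / s) ^ 2) ≤ (3 * (1 + s / T)) ^ m := by
  classical
  intro m
  induction m with
  | zero =>
    intro b _ F A
    rw [pow_zero]
    have hcard : A.card ≤ 1 := Finset.card_le_one.mpr fun x _ y _ => Subsingleton.elim x y
    calc ∑ q ∈ A, Real.exp (-(‖F + ∑ i, (q i : ℝ) • b i‖ / s) ^ 2) ≤ ∑ q ∈ A, (1 : ℝ) := by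
          refine Finset.sum_le_sum fun q _ => Real.exp_le_one_iff.mpr ?_
          have := sq_nonneg (‖F + ∑ i, (q i : ℝ) • b i‖ / s)
          linarith
      _ = A.card := by simp
      _ ≤ 1 := by exact_mod_cast hcard
  | succ m ih =>
    intro b hb F A
    set W : Submodule ℝ E := Submodule.span ℝ (b '' {j | j < Fin.last m}) with hW
    set b' : Fin m → E := fun i => b i.castSucc with hb'
    have hbW : ∀ i, b' i ∈ W := fun i =>
      Submodule.subset_span ⟨i.castSucc, Fin.castSucc_lt_last i, rfl⟩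
    have hb'gs : ∀ i, ∀ x ∈ Submodule.span ℝ (b' '' {j | j < i}), T ≤ ‖b' i + x‖ := by
      intro i x hx
      refine hb i.castSucc x ?_
      refine Submodule.span_mono ?_ hx
      rintro _ ⟨j, hj, rfl⟩
      exact ⟨j.castSucc, Fin.castSucc_lt_castSucc_iff.mpr hj, rfl⟩
    set P : E → E := fun v => W.starProjection v with hP
    have hPmem : ∀ v, P v ∈ W := fun v => W.starProjection_apply_mem v
    have hPorth : ∀ v, v - P v ∈ Wᗮ := fun v => Submodule.sub_starProjection_mem_orthogonal v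
    set bs : E := b (Fin.last m) - P (b (Fin.last m)) with hbs
    set Fs : E := F - P F with hFs
    have hbsT : T ≤ ‖bs‖ := by
      have := hb (Fin.last m) (-(P (b (Fin.last m)))) (W.neg_mem (hPmem _))
      rwa [← sub_eq_add_neg] at this
    have hbspos : 0 < ‖bs‖ := lt_of_lt_of_le hT hbsT
    set l : ℝ := ⟪Fs, bs⟫_ℝ / ‖bs‖ ^ 2 with hl
    -- the decomposition
    have hdec : ∀ q : Fin (m + 1) → ℤ,
        ‖F + ∑ i, (q i : ℝ) • b i‖ ^ 2 =
          ‖Fs + (q (Fin.last m) : ℝ) • bs‖ ^ 2 +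
            ‖(P F + (q (Fin.last m) : ℝ) • P (b (Fin.last m))) +
              ∑ i : Fin m, (q i.castSucc : ℝ) • b' i‖ ^ 2 := by
      intro q
      set k : ℝ := (q (Fin.last m) : ℝ)
      set y : E := (P F + k • P (b (Fin.last m))) + ∑ i : Fin m, (q i.castSucc : ℝ) • b' i with hy
      have hyW : y ∈ W := W.add_mem (W.add_mem (hPmem _) (W.smul_mem _ (hPmem _)))
        (W.sum_mem fun i _ => W.smul_mem _ (hbW i))
      have hx : Fs + k • bs ∈ Wᗮ := Wᗮ.add_mem (hPorth F) (Wᗮ.smul_mem _ (hPorth _))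
      have hsum : F + ∑ i, (q i : ℝ) • b i = (Fs + k • bs) + y := by
        rw [Fin.sum_univ_castSucc, hy, hFs, hbs, smul_sub]
        simp only [hb']
        abel
      have hin : ⟪Fs + k • bs, y⟫_ℝ = 0 := Submodule.inner_left_of_mem_orthogonal hyW hx
      rw [hsum, norm_add_sq_real, hin]
      ring
    have hlow : ∀ k : ℝ, T ^ 2 * (k + l) ^ 2 ≤ ‖Fs + k • bs‖ ^ 2 := by
      intro k
      have e1 : ‖Fs + k • bs‖ ^ 2 = ‖Fs‖ ^ 2 + 2 * (k * ⟪Fs, bs⟫_ℝ) + k ^ 2 * ‖bs‖ ^ 2 := by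
        rw [norm_add_sq_real, inner_smul_right, norm_smul, mul_pow, Real.norm_eq_abs, sq_abs]
      have e2 : ⟪Fs, bs⟫_ℝ = l * ‖bs‖ ^ 2 := by
        rw [hl, div_mul_cancel₀ _ (by positivity)]
      have e3 : ⟪Fs, bs⟫_ℝ ^ 2 ≤ ‖Fs‖ ^ 2 * ‖bs‖ ^ 2 := by
        have := abs_real_inner_le_norm Fs bs
        rw [← sq_abs, ← mul_pow]
        exact pow_le_pow_left₀ (abs_nonneg _) this 2
      have e4 : l ^ 2 * ‖bs‖ ^ 2 ≤ ‖Fs‖ ^ 2 := by
        rw [e2] at e3
        have h5 : 0 < ‖bs‖ ^ 2 := by positivity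
        have h6 : (l ^ 2 * ‖bs‖ ^ 2) * ‖bs‖ ^ 2 ≤ ‖Fs‖ ^ 2 * ‖bs‖ ^ 2 := by
          calc (l ^ 2 * ‖bs‖ ^ 2) * ‖bs‖ ^ 2 = (l * ‖bs‖ ^ 2) ^ 2 := by ring
            _ ≤ _ := e3
        exact le_of_mul_le_mul_right h6 h5
      have e5 : T ^ 2 ≤ ‖bs‖ ^ 2 := pow_le_pow_left₀ hT.le hbsT 2
      rw [e1, e2]
      nlinarith [sq_nonneg (k + l), mul_le_mul_of_nonneg_right e5 (sq_nonneg (k + l))]
    -- grouping by the last coordinate
    have hgroup : ∑ q ∈ A, Real.exp (-(‖F + ∑ i, (q i : ℝ) • b i‖ / s) ^ 2) =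
        ∑ k ∈ A.image (fun q => q (Fin.last m)), ∑ q ∈ A.filter (fun q => q (Fin.last m) = k),
          Real.exp (-(‖F + ∑ i, (q i : ℝ) • b i‖ / s) ^ 2) := by
      rw [Finset.sum_fiberwise_of_maps_to]
      intro q hq
      exact Finset.mem_image_of_mem _ hq
    rw [hgroup]
    have hKpos : 0 ≤ 3 * (1 + s / T) := by positivity
    have hinner : ∀ k : ℤ, ∑ q ∈ A.filter (fun q => q (Fin.last m) = k),
          Real.exp (-(‖F + ∑ i, (q i : ℝ) • b i‖ / s) ^ 2) ≤
        Real.exp (-((T / s) ^ 2 * ((k : ℝ) + l) ^ 2)) * (3 * (1 + s / T)) ^ m := by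
      intro k
      set Ak := A.filter (fun q => q (Fin.last m) = k) with hAk
      have hinj : Set.InjOn (fun q : Fin (m + 1) → ℤ => fun i : Fin m => q i.castSucc) Ak := by
        intro x hx y hy hxy
        have hx' := (Finset.mem_filter.mp (Finset.mem_coe.mp hx)).2
        have hy' := (Finset.mem_filter.mp (Finset.mem_coe.mp hy)).2
        funext i
        refine Fin.lastCases ?_ (fun j => ?_) i
        · rw [hx', hy']
        · exact congrFun hxy j
      have hih := ih b' hb'gs (P F + (k : ℝ) • P (b (Fin.last m)))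
        (Ak.image (fun q : Fin (m + 1) → ℤ => fun i : Fin m => q i.castSucc))
      rw [Finset.sum_image hinj] at hih
      calc ∑ q ∈ Ak, Real.exp (-(‖F + ∑ i, (q i : ℝ) • b i‖ / s) ^ 2) ≤
          ∑ q ∈ Ak, Real.exp (-((T / s) ^ 2 * ((k : ℝ) + l) ^ 2)) *
            Real.exp (-(‖(P F + (k : ℝ) • P (b (Fin.last m))) +
              ∑ i : Fin m, (q i.castSucc : ℝ) • b' i‖ / s) ^ 2) := by
            refine Finset.sum_le_sum fun q hq => ?_
            have hqk := (Finset.mem_filter.mp hq).2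
            rw [← Real.exp_add]
            refine Real.exp_le_exp.mpr ?_
            have h1 := hdec q
            rw [hqk] at h1
            have h2 := hlow (k : ℝ)
            rw [div_pow, div_pow, div_pow, h1]
            have h3 : T ^ 2 / s ^ 2 * ((k : ℝ) + l) ^ 2 = (T ^ 2 * ((k : ℝ) + l) ^ 2) / s ^ 2 := by
              ring
            rw [h3, add_div]
            have h4 : (T ^ 2 * ((k : ℝ) + l) ^ 2) / s ^ 2 ≤ ‖Fs + (k : ℝ) • bs‖ ^ 2 / s ^ 2 :=
              div_le_div_of_nonneg_right h2 (by positivity)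
            linarith
        _ = Real.exp (-((T / s) ^ 2 * ((k : ℝ) + l) ^ 2)) * ∑ q ∈ Ak,
            Real.exp (-(‖(P F + (k : ℝ) • P (b (Fin.last m))) +
              ∑ i : Fin m, (q i.castSucc : ℝ) • b' i‖ / s) ^ 2) := by rw [Finset.mul_sum]
        _ ≤ _ := mul_le_mul_of_nonneg_left hih (Real.exp_pos _).le
    set J : Finset ℤ := A.image (fun q : Fin (m + 1) → ℤ => q (Fin.last m)) with hJ
    calc _ ≤ ∑ k ∈ J,
          Real.exp (-((T / s) ^ 2 * ((k : ℝ) + l) ^ 2)) * (3 * (1 + s / T)) ^ m :=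
          Finset.sum_le_sum fun k _ => hinner k
      _ = (∑ k ∈ J,
          Real.exp (-((T / s) ^ 2 * ((k : ℝ) + l) ^ 2))) * (3 * (1 + s / T)) ^ m := by
          rw [Finset.sum_mul]
      _ ≤ (3 * (1 + 1 / (T / s))) * (3 * (1 + s / T)) ^ m :=
          mul_le_mul_of_nonneg_right (one_dim _ _ (by positivity) _) (pow_nonneg hKpos m)
      _ = (3 * (1 + s / T)) ^ (m + 1) := by
          rw [one_div_div, pow_succ]; ring

end Pool.Agent.K7.H54.DP.GSC

namespace Pool.Agent.K7.H54.DP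

theorem gsc : StGsc := by
  intro n m b T R s hT hs hb A hA
  have hmain := GSC.main T s hT hs m b hb 0 A
  have h1 : ∀ q ∈ A, Real.exp (-(R / s) ^ 2) ≤
      Real.exp (-(‖(0 : EuclideanSpace ℝ (Fin n)) + ∑ i, (q i : ℝ) • b i‖ / s) ^ 2) := by
    intro q hq
    refine Real.exp_le_exp.mpr ?_
    rw [zero_add]
    have h2 := hA q hq
    have h3 : ‖∑ i, (q i : ℝ) • b i‖ / s ≤ R / s := div_le_div_of_nonneg_right h2 hs.le
    have h4 : 0 ≤ ‖∑ i, (q i : ℝ) • b i‖ / s := by positivity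
    have h5 := pow_le_pow_left₀ h4 h3 2
    linarith
  have h2 : (A.card : ℝ) * Real.exp (-(R / s) ^ 2) ≤ (3 * (1 + s / T)) ^ m := by
    calc (A.card : ℝ) * Real.exp (-(R / s) ^ 2) = ∑ q ∈ A, Real.exp (-(R / s) ^ 2) := by
          rw [Finset.sum_const, nsmul_eq_mul]
      _ ≤ _ := Finset.sum_le_sum h1
      _ ≤ _ := hmain
  have h3 : Real.exp ((R / s) ^ 2) * Real.exp (-(R / s) ^ 2) = 1 := by
    rw [← Real.exp_add]; simp
  calc (A.card : ℝ) = Real.exp ((R / s) ^ 2) * ((A.card : ℝ) * Real.exp (-(R / s) ^ 2)) := by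
        rw [mul_left_comm, h3, mul_one]
    _ ≤ _ := mul_le_mul_of_nonneg_left h2 (Real.exp_pos _).le

end Pool.Agent.K7.H54.DP
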