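import Pool.Agent.K7.H54.DP.Stm

/-! # Project DP, job IRR -/

set_option autoImplicit false

namespace Pool.Agent.K7.H54.DP

open Polynomial MeasureTheory

theorem irr : StIrr := by
  unfold StIrr
  rw [ae_all_iff]
  intro k
  have hc : ({θ : ℝ | 1 ≤ k ∧ zz θ ^ k = 1}).Countable := by
    refine (Set.countable_range (fun n : ℤ => 2 * Real.pi * n / k)).mono ?_
    rintro θ ⟨hk, hθ⟩
    have hk0 : (k : ℝ) ≠ 0 := by positivity
    rw [zz, ← Complex.exp_nat_mul, Complex.exp_eq_one_iff] at hθ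
    obtain ⟨n, hn⟩ := hθ
    refine ⟨n, ?_⟩
    have h1 := congrArg Complex.im hn
    simp at h1
    simp only
    rw [div_eq_iff hk0]
    linarith
  filter_upwards [hc.ae_notMem volume] with θ hθ hk h
  exact hθ ⟨hk, h⟩

end Pool.Agent.K7.H54.DP
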