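import Pool.Agent.K7.H54.DP.Disc

/-!
# Project DP (MP_4c4335_nt), job MODQ: irreducible polynomials are determined modulo `q`
-/

set_option autoImplicit false

namespace Pool.Agent.K7.H54.DP

open Polynomial

theorem coprime_rat {G₁ G₂ : ℤ[X]} (h₁ : Irreducible G₁) (h₂ : Irreducible G₂)
    (hd₁ : 1 ≤ G₁.natDegree) (hne : G₁ ≠ G₂) (hne' : G₁ ≠ -G₂) :
    IsCoprime (G₁.map (Int.castRingHom ℚ)) (G₂.map (Int.castRingHom ℚ)) := by
  rcases (irreducible_map_rat h₁ hd₁).isCoprime_or_dvd (G₂.map (Int.castRingHom ℚ)) with h | h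
  · exact h
  · exfalso
    have hdvd : G₁ ∣ G₂ := (IsPrimitive.Int.dvd_iff_map_cast_dvd_map_cast G₁ G₂
      (isPrimitive_of_irreducible' h₁ hd₁)).2 h
    obtain ⟨u, hu⟩ := (h₁.associated_of_dvd h₂ hdvd)
    obtain ⟨c, hc, hcu⟩ := Polynomial.isUnit_iff.1 u.isUnit
    rw [← hcu] at hu
    rcases Int.isUnit_iff.1 hc with rfl | rfl
    · apply hne; simpa using hu
    · apply hne'; rw [← hu]; simp

theorem resultant_ne_zero' {G₁ G₂ : ℤ[X]}
    (h : IsCoprime (G₁.map (Int.castRingHom ℚ)) (G₂.map (Int.castRingHom ℚ))) :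
    resultant G₁ G₂ G₁.natDegree G₂.natDegree ≠ 0 := by
  intro h0
  have h1 := resultant_ne_zero _ _ h
  rw [natDegree_map_eq_of_injective (Int.castRingHom ℚ).injective_int,
    natDegree_map_eq_of_injective (Int.castRingHom ℚ).injective_int, resultant_map_map, h0] at h1
  simp at h1

theorem exists_roots_disc {G : ℤ[X]} {f : ℕ} (hG : Irreducible G) (hf : G.natDegree = f)
    (h1 : 1 ≤ f) : ∃ v : Fin f → ℂ, IsRoots G v ∧
      1 ≤ |(G.leadingCoeff : ℝ)| ^ (2 * f - 1) * dl v := by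
  subst hf
  obtain ⟨v, hv, hr⟩ := exists_roots hG h1
  exact ⟨v, hr, one_le_disc hG h1 hr hv⟩

theorem modq_of (hV : StVdm) : StModq := by
  intro G₁ G₂ f q T hG₁ hG₂ hf₁ hf₂ hf hM₁ hM₂ hq hdvd
  by_contra hne
  rw [not_or] at hne
  obtain ⟨v, hr₁, hdisc₁⟩ := exists_roots_disc hG₁ hf₁ hf
  obtain ⟨w, hr₂, hdisc₂⟩ := exists_roots_disc hG₂ hf₂ hf
  have hne₁ : G₁ ≠ 0 := hG₁.ne_zero
  have hne₂ : G₂ ≠ 0 := hG₂.ne_zero
  have hcop := coprime_rat hG₁ hG₂ (by omega) hne.1 hne.2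
  have hR0 := resultant_ne_zero' hcop
  rw [hf₁, hf₂] at hR0
  -- the quotient by q
  have hq0 : (q : ℤ) ≠ 0 := by
    rintro h0
    have : (q : ℝ) = 0 := by exact_mod_cast h0
    rw [this] at hq
    have : 0 ≤ 4 * (f : ℝ) ^ 2 * T ^ 4 := by positivity
    linarith
  obtain ⟨E, hE⟩ : C (q : ℤ) ∣ G₂ - G₁ := by
    rw [C_dvd_iff_dvd_coeff]
    intro i
    rw [coeff_sub]
    have := (hdvd i).neg_right
    rwa [neg_sub] at this
  have hRq : resultant G₁ G₂ f f = (q : ℤ) ^ f * resultant G₁ E f f := by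
    have h1 : G₂ = C (q : ℤ) * E + G₁ * 1 := by rw [← hE]; ring
    conv_lhs => rw [h1]
    rw [resultant_add_mul_right _ _ _ _ _ (by simp) hf₁.le, resultant_C_mul_right]
  set R : ℤ := resultant G₁ G₂ f f with hR
  have hRlow : (q : ℝ) ^ f ≤ |(R : ℝ)| := by
    have h1 : resultant G₁ E f f ≠ 0 := by
      intro h0
      rw [h0, mul_zero] at hRq
      exact hR0 hRq
    have h2 : (1 : ℝ) ≤ |((resultant G₁ E f f : ℤ) : ℝ)| := by
      exact_mod_cast Int.one_le_abs h1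
    rw [hRq]
    push_cast
    rw [abs_mul, abs_pow, Nat.abs_cast]
    exact le_mul_of_one_le_right (by positivity) h2
  set a : ℝ := |(G₁.leadingCoeff : ℝ)| with ha
  set b : ℝ := |(G₂.leadingCoeff : ℝ)| with hb
  have ha1 : 1 ≤ a := one_le_lc hne₁
  have hb1 : 1 ≤ b := one_le_lc hne₂
  set S : ℝ := ∏ i : Fin f, ∏ j : Fin f, ‖v i - w j‖ with hS
  have hS0 : 0 ≤ S := Finset.prod_nonneg fun _ _ => Finset.prod_nonneg fun _ _ => norm_nonneg _
  have hRval : |(R : ℝ)| = a ^ f * b ^ f * S := by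
    have hcast := resultant_cast hr₁ hne₁ f hf₂.le
    rw [hf₁] at hcast
    rw [← Complex.norm_intCast, hR, hcast, norm_mul, norm_pow, Complex.norm_intCast, norm_prod]
    simp_rw [hr₂.ev_eq, norm_mul, Complex.norm_intCast, norm_prod]
    rw [Finset.prod_mul_distrib, Finset.prod_const, Finset.card_univ, Fintype.card_fin]
    ring
  set Q₁ : ℝ := ∏ i, max 1 ‖v i‖ with hQ₁
  set Q₂ : ℝ := ∏ i, max 1 ‖w i‖ with hQ₂
  have hQ₁1 : 1 ≤ Q₁ := one_le_prod_max _ _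
  have hQ₂1 : 1 ≤ Q₂ := one_le_prod_max _ _
  have hMM₁ : a * Q₁ ≤ T := by rw [← hr₁.MM_eq hne₁]; exact hM₁
  have hMM₂ : b * Q₂ ≤ T := by rw [← hr₂.MM_eq hne₂]; exact hM₂
  have hle := dl_le hV (Sum.elim v w)
  rw [dl_sum, Fintype.card_sum, Fintype.card_fin, Fintype.prod_sum_type] at hle
  simp only [Sum.elim_inl, Sum.elim_inr] at hle
  set F : ℝ := ((f + f).factorial : ℝ) with hF
  have hF0 : 0 ≤ F := by positivity
  have ht1 : 1 ≤ T := by
    have : 1 ≤ a * Q₁ := one_le_mul_of_one_le_of_one_le ha1 hQ₁1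
    linarith
  -- the main inequality
  have hmain : |(R : ℝ)| ^ 2 ≤ F ^ 2 * T ^ (8 * f) := by
    have hA0 : 0 ≤ dl v := dl_nonneg v
    have hB0 : 0 ≤ dl w := dl_nonneg w
    have e1 : |(R : ℝ)| ^ 2 ≤ |(R : ℝ)| ^ 2 * ((a ^ (2 * f - 1) * dl v) * (b ^ (2 * f - 1) * dl w)) :=
      le_mul_of_one_le_right (by positivity) (one_le_mul_of_one_le_of_one_le hdisc₁ hdisc₂)
    have e2 : |(R : ℝ)| ^ 2 * ((a ^ (2 * f - 1) * dl v) * (b ^ (2 * f - 1) * dl w)) =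
        (a ^ (2 * f) * a ^ (2 * f - 1)) * (b ^ (2 * f) * b ^ (2 * f - 1)) *
          (dl v * dl w * S ^ 2) := by
      rw [hRval]; ring
    have e3 : (a ^ (2 * f) * a ^ (2 * f - 1)) * (b ^ (2 * f) * b ^ (2 * f - 1)) *
          (dl v * dl w * S ^ 2) ≤ (a ^ (2 * f) * a ^ (2 * f)) * (b ^ (2 * f) * b ^ (2 * f)) *
          (F * (Q₁ * Q₂) ^ (2 * f)) ^ 2 := by
      have i1 : a ^ (2 * f - 1) ≤ a ^ (2 * f) := pow_le_pow_right₀ ha1 (by omega)
      have i2 : b ^ (2 * f - 1) ≤ b ^ (2 * f) := pow_le_pow_right₀ hb1 (by omega)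
      have i3 : dl v * dl w * S ^ 2 ≤ (F * (Q₁ * Q₂) ^ (2 * f)) ^ 2 := by
        refine hle.trans (pow_le_pow_left₀ (by positivity) ?_ 2)
        refine mul_le_mul_of_nonneg_left ?_ hF0
        exact pow_le_pow_right₀ (one_le_mul_of_one_le_of_one_le hQ₁1 hQ₂1) (by omega)
      gcongr
    have e4 : (a ^ (2 * f) * a ^ (2 * f)) * (b ^ (2 * f) * b ^ (2 * f)) *
          (F * (Q₁ * Q₂) ^ (2 * f)) ^ 2 = F ^ 2 * ((a * Q₁) ^ (4 * f) * (b * Q₂) ^ (4 * f)) := by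
      ring
    have e5 : (a * Q₁) ^ (4 * f) * (b * Q₂) ^ (4 * f) ≤ T ^ (4 * f) * T ^ (4 * f) :=
      mul_le_mul (pow_le_pow_left₀ (by positivity) hMM₁ _)
        (pow_le_pow_left₀ (by positivity) hMM₂ _) (by positivity) (by positivity)
    calc |(R : ℝ)| ^ 2 ≤ _ := e1
      _ = _ := e2
      _ ≤ _ := e3
      _ = _ := e4
      _ ≤ F ^ 2 * (T ^ (4 * f) * T ^ (4 * f)) := mul_le_mul_of_nonneg_left e5 (by positivity)
      _ = F ^ 2 * T ^ (8 * f) := by rw [← pow_add]; congr 2; omega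
  have hFle : F ≤ (4 * (f : ℝ) ^ 2) ^ f := by
    have h1 : (f + f).factorial ≤ (f + f) ^ (f + f) := Nat.factorial_le_pow _
    have h2 : F ≤ ((f : ℝ) + f) ^ (f + f) := by
      rw [hF]; exact_mod_cast h1
    refine h2.trans (le_of_eq ?_)
    rw [← two_mul, ← two_mul, pow_mul]
    congr 1
    ring
  have hfin : F ^ 2 * T ^ (8 * f) ≤ ((4 * (f : ℝ) ^ 2 * T ^ 4) ^ f) ^ 2 := by
    have : ((4 * (f : ℝ) ^ 2 * T ^ 4) ^ f) ^ 2 = ((4 * (f : ℝ) ^ 2) ^ f) ^ 2 * T ^ (8 * f) := by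
      ring
    rw [this]
    exact mul_le_mul_of_nonneg_right (pow_le_pow_left₀ hF0 hFle 2) (by positivity)
  have hlt : (4 * (f : ℝ) ^ 2 * T ^ 4) ^ f < (q : ℝ) ^ f :=
    pow_lt_pow_left₀ hq (by positivity) (by omega)
  have h1 : |(R : ℝ)| ≤ (4 * (f : ℝ) ^ 2 * T ^ 4) ^ f :=
    le_of_sq_le_sq (hmain.trans hfin) (by positivity)
  linarith

end Pool.Agent.K7.H54.DP
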