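import Pool.Agent.K7.H54.DP.Stm

/-! # Project DP, job VDM -/

set_option autoImplicit false

namespace Pool.Agent.K7.H54.DP

open Polynomial MeasureTheory

theorem vdm : StVdm := by
  intro m v
  rw [Matrix.det_apply]
  refine (norm_sum_le _ _).trans ?_
  have h : ∀ σ ∈ (Finset.univ : Finset (Equiv.Perm (Fin m))),
      ‖Equiv.Perm.sign σ • ∏ i, Matrix.vandermonde v (σ i) i‖ ≤
        ∏ i, (max 1 ‖v i‖) ^ (m - 1) := by
    intro σ _
    have h1 : ‖Equiv.Perm.sign σ • ∏ i, Matrix.vandermonde v (σ i) i‖ =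
        ∏ i, ‖v (σ i)‖ ^ (i : ℕ) := by
      have h2 : ‖∏ i, Matrix.vandermonde v (σ i) i‖ = ∏ i, ‖v (σ i)‖ ^ (i : ℕ) := by
        rw [norm_prod]
        refine Finset.prod_congr rfl fun i _ => ?_
        rw [Matrix.vandermonde_apply, norm_pow]
      rw [← h2]
      rcases Int.units_eq_one_or (Equiv.Perm.sign σ) with h | h
      · rw [h, one_smul]
      · rw [h, Units.neg_smul, one_smul, norm_neg]
    rw [h1, ← Equiv.prod_comp σ (fun i => (max 1 ‖v i‖) ^ (m - 1))]
    refine Finset.prod_le_prod (fun i _ => by positivity) fun i _ => ?_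
    calc ‖v (σ i)‖ ^ (i : ℕ) ≤ (max 1 ‖v (σ i)‖) ^ (i : ℕ) :=
          pow_le_pow_left₀ (norm_nonneg _) (le_max_right _ _) _
      _ ≤ (max 1 ‖v (σ i)‖) ^ (m - 1) :=
          pow_le_pow_right₀ (le_max_left _ _) (by have := i.isLt; omega)
  refine (Finset.sum_le_card_nsmul _ _ _ h).trans (le_of_eq ?_)
  rw [Finset.card_univ, Fintype.card_perm, Fintype.card_fin, nsmul_eq_mul]

end Pool.Agent.K7.H54.DP
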