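import Pool.Agent.K7.H54.DP.Stm2
import Pool.Agent.K7.H54.DP.ModqOf
import Pool.Agent.K7.H54.DP.VDM

/-!
# Project DPT (MP_4c4335_nt), job MODK: `K` congruent irreducible polynomials (helper20)
-/

set_option autoImplicit false

namespace Pool.Agent.K7.H54.DP

open Polynomial

/-- the discriminant of an irreducible polynomial is at least one, sharp form -/
theorem exists_roots_discr {G : ℤ[X]} {f : ℕ} (hG : Irreducible G) (hf : G.natDegree = f)
    (h1 : 1 ≤ f) : ∃ v : Fin f → ℂ, IsRoots G v ∧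
      1 ≤ |(G.leadingCoeff : ℝ)| ^ (2 * f - 2) * dl v := by
  subst hf
  obtain ⟨v, hv, hr⟩ := exists_roots hG h1
  refine ⟨v, hr, ?_⟩
  have h0 : G ≠ 0 := hG.ne_zero
  have hc := resultant_cast hr h0 (G.natDegree - 1) (natDegree_derivative_le G)
  have hd := resultant_deriv (f := G) (natDegree_pos_iff_degree_pos.1 h1)
  have hone := one_le_disc hG h1 hr hv
  set R : ℤ := resultant G (derivative G) G.natDegree (G.natDegree - 1) with hR
  have hn : |(R : ℝ)| = |(G.leadingCoeff : ℝ)| ^ (2 * G.natDegree - 1) * dl v := by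
    rw [← Complex.norm_intCast, hc, norm_mul, norm_pow, Complex.norm_intCast, norm_prod]
    simp_rw [ev_derivative hr]
    rw [Finset.prod_mul_distrib, Finset.prod_const, Finset.card_univ, Fintype.card_fin, ← mul_assoc,
      ← pow_add]
    congr 2
    omega
  have ha : 1 ≤ |(G.leadingCoeff : ℝ)| := one_le_lc h0
  have hR1 : |(R : ℝ)| = |(G.leadingCoeff : ℝ)| * |((G.discr : ℤ) : ℝ)| := by
    rw [hd]
    push_cast
    rw [abs_mul, abs_mul, abs_pow, abs_neg, abs_one, one_pow, one_mul]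
  have hD : G.discr ≠ 0 := by
    intro hD
    rw [hD] at hR1
    rw [← hn, hR1] at hone
    norm_num at hone
  have hD1 : (1 : ℝ) ≤ |((G.discr : ℤ) : ℝ)| := by exact_mod_cast Int.one_le_abs hD
  have e : |(G.leadingCoeff : ℝ)| * |((G.discr : ℤ) : ℝ)| =
      |(G.leadingCoeff : ℝ)| * (|(G.leadingCoeff : ℝ)| ^ (2 * G.natDegree - 2) * dl v) := by
    rw [← hR1, hn, ← mul_assoc, ← pow_succ']
    congr 2
    omega
  have e2 := mul_left_cancel₀ (by positivity : |(G.leadingCoeff : ℝ)| ≠ 0) e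
  rw [← e2]
  exact hD1

/-- the resultant of two congruent coprime polynomials -/
theorem res_ge {G₁ G₂ : ℤ[X]} {f q : ℕ} {v w : Fin f → ℂ} (hG₁ : Irreducible G₁)
    (hG₂ : Irreducible G₂) (hf₁ : G₁.natDegree = f) (hf₂ : G₂.natDegree = f) (hf : 1 ≤ f)
    (hne : G₁ ≠ G₂) (hne' : G₁ ≠ -G₂) (hr₁ : IsRoots G₁ v) (hr₂ : IsRoots G₂ w)
    (hdvd : ∀ i, (q : ℤ) ∣ G₁.coeff i - G₂.coeff i) :
    (q : ℝ) ^ f ≤ |(G₁.leadingCoeff : ℝ)| ^ f * |(G₂.leadingCoeff : ℝ)| ^ f *
      ∏ i, ∏ j, ‖v i - w j‖ := by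
  have hne₁ : G₁ ≠ 0 := hG₁.ne_zero
  have hcop := coprime_rat hG₁ hG₂ (by omega) hne hne'
  have hR0 := resultant_ne_zero' hcop
  rw [hf₁, hf₂] at hR0
  obtain ⟨E, hE⟩ : C (q : ℤ) ∣ G₂ - G₁ := by
    rw [C_dvd_iff_dvd_coeff]
    intro i
    rw [coeff_sub]
    have := (hdvd i).neg_right
    rwa [neg_sub] at this
  have hRq : resultant G₁ G₂ f f = (q : ℤ) ^ f * resultant G₁ E f f := by
    have h1 : G₂ = C (q : ℤ) * E + G₁ * 1 := by rw [← hE]; ring
    conv_lhs => rw [h1]
    rw [resultant_add_mul_right _ _ _ _ _ (by simp) hf₁.le, resultant_C_mul_right]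
  set R : ℤ := resultant G₁ G₂ f f with hR
  have hRlow : (q : ℝ) ^ f ≤ |(R : ℝ)| := by
    have h1 : resultant G₁ E f f ≠ 0 := by
      intro h0
      rw [h0, mul_zero] at hRq
      exact hR0 hRq
    have h2 : (1 : ℝ) ≤ |((resultant G₁ E f f : ℤ) : ℝ)| := by
      exact_mod_cast Int.one_le_abs h1
    rw [hRq]
    push_cast
    rw [abs_mul, abs_pow, Nat.abs_cast]
    exact le_mul_of_one_le_right (by positivity) h2
  refine hRlow.trans (le_of_eq ?_)
  have hcast := resultant_cast hr₁ hne₁ f hf₂.le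
  rw [hf₁] at hcast
  rw [← Complex.norm_intCast, hR, hcast, norm_mul, norm_pow, Complex.norm_intCast, norm_prod]
  simp_rw [hr₂.ev_eq, norm_mul, Complex.norm_intCast, norm_prod]
  rw [Finset.prod_mul_distrib, Finset.prod_const, Finset.card_univ, Fintype.card_fin]
  ring

theorem dl_prod {K f : ℕ} (v : Fin K → Fin f → ℂ) :
    dl (fun p : Fin K × Fin f => v p.1 p.2) =
      ∏ k, ∏ l, (if k = l then dl (v k) else ∏ i, ∏ j, ‖v k i - v l j‖) := by
  unfold dl
  rw [Fintype.prod_prod_type]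
  refine Finset.prod_congr rfl fun k _ => ?_
  have h1 : ∀ i : Fin f, (∏ r : Fin K × Fin f, (if (k, i) = r then (1 : ℝ) else
      ‖v k i - v r.1 r.2‖)) = ∏ l, ∏ j, (if (k, i) = (l, j) then (1 : ℝ) else
      ‖v k i - v l j‖) := fun i => Fintype.prod_prod_type _
  simp only [h1]
  rw [Finset.prod_comm]
  refine Finset.prod_congr rfl fun l _ => ?_
  split_ifs with h
  · subst h
    refine Finset.prod_congr rfl fun i _ => Finset.prod_congr rfl fun j _ => ?_
    by_cases hij : i = j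
    · simp [hij]
    · simp [hij]
  · refine Finset.prod_congr rfl fun i _ => Finset.prod_congr rfl fun j _ => ?_
    simp [h]

theorem prod_ite_const {K : ℕ} (k : Fin K) (c : ℝ) :
    ∏ l : Fin K, (if k = l then 1 else c) = c ^ (K - 1) := by
  rw [← Finset.mul_prod_erase Finset.univ _ (Finset.mem_univ k), if_pos rfl, one_mul]
  rw [Finset.prod_congr rfl (g := fun _ => c)
    (fun l hl => if_neg (Finset.ne_of_mem_erase hl).symm), Finset.prod_const,
    Finset.card_erase_of_mem (Finset.mem_univ k), Finset.card_univ, Fintype.card_fin]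

theorem prod_lc {K f : ℕ} (hf : 1 ≤ f) (hK : 1 ≤ K) (a : Fin K → ℝ) (ha : ∀ k, 1 ≤ a k) :
    ∏ k, ∏ l, (if k = l then a k ^ (2 * f - 2) else a k ^ f * a l ^ f) =
      (∏ k, a k ^ (K * f - 1)) ^ 2 := by
  have hpos : 0 < ∏ k, a k ^ 2 := Finset.prod_pos fun k _ => by
    have := ha k
    positivity
  apply mul_right_cancel₀ hpos.ne'
  have e1 : ∏ k, a k ^ 2 = ∏ k, ∏ l, (if k = l then a k ^ 2 else 1) := by
    refine Finset.prod_congr rfl fun k _ => ?_
    rw [Finset.prod_ite_eq]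
    simp
  have e2 : (∏ k, ∏ l, (if k = l then a k ^ (2 * f - 2) else a k ^ f * a l ^ f)) *
      ∏ k, a k ^ 2 = ∏ k, ∏ l, (a k ^ f * a l ^ f) := by
    rw [e1, ← Finset.prod_mul_distrib]
    refine Finset.prod_congr rfl fun k _ => ?_
    rw [← Finset.prod_mul_distrib]
    refine Finset.prod_congr rfl fun l _ => ?_
    split_ifs with h
    · subst h
      rw [← pow_add, ← pow_add]
      congr 1
      omega
    · rw [mul_one]
  rw [e2]
  simp only [Finset.prod_mul_distrib, Finset.prod_const, Finset.card_univ, Fintype.card_fin]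
  rw [← Finset.prod_pow, ← Finset.prod_pow, ← Finset.prod_mul_distrib, ← Finset.prod_mul_distrib]
  refine Finset.prod_congr rfl fun k _ => ?_
  rw [← pow_mul, ← pow_mul, ← pow_add, ← pow_add]
  congr 1
  have : 1 ≤ K * f := Nat.mul_pos hK hf
  have h2 : f * K = K * f := mul_comm _ _
  omega

/-- JOB MODK -/
theorem modk (hV : StVdm) : StModk := by
  intro K f q T G hf hirr hdeg hMM hne hdvd
  rcases Nat.eq_zero_or_pos K with rfl | hK
  · simp
  choose v hr hdisc using fun k => exists_roots_discr (hirr k) (hdeg k) hf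
  have hne0 : ∀ k, G k ≠ 0 := fun k => (hirr k).ne_zero
  obtain ⟨a, ha⟩ : ∃ a : Fin K → ℝ, ∀ k, a k = |((G k).leadingCoeff : ℝ)| := ⟨_, fun _ => rfl⟩
  obtain ⟨Q, hQ⟩ : ∃ Q : Fin K → ℝ, ∀ k, Q k = ∏ i, max 1 ‖v k i‖ := ⟨_, fun _ => rfl⟩
  have ha1 : ∀ k, 1 ≤ a k := fun k => by rw [ha]; exact one_le_lc (hne0 k)
  have hQ1 : ∀ k, 1 ≤ Q k := fun k => by rw [hQ]; exact one_le_prod_max _ _
  have hT : ∀ k, a k * Q k ≤ T := fun k => by
    rw [ha, hQ, ← (hr k).MM_eq (hne0 k)]; exact hMM k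
  -- the lower bound
  have hlow : ∏ k : Fin K, ∏ l : Fin K, (if k = l then 1 else (q : ℝ) ^ f) ≤
      ∏ k, ∏ l, (if k = l then a k ^ (2 * f - 2) * dl (v k) else
        a k ^ f * a l ^ f * ∏ i, ∏ j, ‖v k i - v l j‖) := by
    refine Finset.prod_le_prod (fun k _ => Finset.prod_nonneg fun l _ => ?_)
      fun k _ => Finset.prod_le_prod (fun l _ => ?_) fun l _ => ?_
    · split_ifs <;> positivity
    · split_ifs <;> positivity
    · split_ifs with h
      · rw [ha]; exact hdisc k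
      · rw [ha, ha]
        exact res_ge (hirr k) (hirr l) (hdeg k) (hdeg l) hf (hne k l h).1 (hne k l h).2
          (hr k) (hr l) (hdvd k l)
  have hL : ∏ k : Fin K, ∏ l : Fin K, (if k = l then 1 else (q : ℝ) ^ f) =
      ((q : ℝ) ^ (f * (K * (K - 1) / 2))) ^ 2 := by
    simp only [prod_ite_const, Finset.prod_const, Finset.card_univ, Fintype.card_fin]
    rw [← pow_mul, ← pow_mul, ← pow_mul]
    congr 1
    have h2 : K * (K - 1) / 2 * 2 = K * (K - 1) :=
      Nat.div_mul_cancel (Nat.even_mul_pred_self K).two_dvd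
    calc f * ((K - 1) * K) = f * (K * (K - 1)) := by ring
      _ = f * (K * (K - 1) / 2 * 2) := by rw [h2]
      _ = f * (K * (K - 1) / 2) * 2 := by ring
  have hRt : ∏ k, ∏ l, (if k = l then a k ^ (2 * f - 2) * dl (v k) else
        a k ^ f * a l ^ f * ∏ i, ∏ j, ‖v k i - v l j‖) =
      (∏ k, a k ^ (K * f - 1)) ^ 2 * dl (fun p : Fin K × Fin f => v p.1 p.2) := by
    rw [dl_prod, ← prod_lc hf hK a ha1, ← Finset.prod_mul_distrib]
    refine Finset.prod_congr rfl fun k _ => ?_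
    rw [← Finset.prod_mul_distrib]
    refine Finset.prod_congr rfl fun l _ => ?_
    split_ifs <;> rfl
  have hdl := dl_le hV (fun p : Fin K × Fin f => v p.1 p.2)
  rw [Fintype.card_prod, Fintype.card_fin, Fintype.card_fin, Fintype.prod_prod_type] at hdl
  simp only [← hQ] at hdl
  rw [hL, hRt] at hlow
  have hup : (∏ k, a k ^ (K * f - 1)) ^ 2 * dl (fun p : Fin K × Fin f => v p.1 p.2) ≤
      ((K * f).factorial * T ^ (K * (K * f - 1))) ^ 2 := by
    have hP0 : 0 ≤ ∏ k, a k ^ (K * f - 1) := Finset.prod_nonneg fun k _ => by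
      have := ha1 k
      positivity
    refine (mul_le_mul_of_nonneg_left hdl (by positivity)).trans ?_
    rw [← mul_pow]
    have hQ0 : 0 ≤ ∏ k, Q k := Finset.prod_nonneg fun k _ => by
      have := hQ1 k
      positivity
    refine pow_le_pow_left₀ (by positivity) ?_ 2
    have e : (∏ k, a k ^ (K * f - 1)) * (((K * f).factorial : ℝ) * (∏ k, Q k) ^ (K * f - 1)) =
        ((K * f).factorial : ℝ) * ∏ k, (a k * Q k) ^ (K * f - 1) := by
      rw [← Finset.prod_pow]
      simp only [mul_pow, Finset.prod_mul_distrib]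
      ring
    rw [e]
    refine mul_le_mul_of_nonneg_left ?_ (by positivity)
    calc ∏ k, (a k * Q k) ^ (K * f - 1) ≤ ∏ _k : Fin K, T ^ (K * f - 1) :=
          Finset.prod_le_prod (fun k _ => by
            have := ha1 k; have := hQ1 k; positivity) fun k _ =>
            pow_le_pow_left₀ (by have := ha1 k; have := hQ1 k; positivity) (hT k) _
      _ = T ^ (K * (K * f - 1)) := by
          rw [Finset.prod_const, Finset.card_univ, Fintype.card_fin, ← pow_mul, mul_comm]
  have hT0 : 0 ≤ T := by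
    have h1 := hT ⟨0, hK⟩
    have h2 := ha1 ⟨0, hK⟩
    have h3 := hQ1 ⟨0, hK⟩
    exact le_trans (by positivity) h1
  exact le_of_sq_le_sq (hlow.trans hup) (by positivity)

end Pool.Agent.K7.H54.DP
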