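import Pool.Agent.K7.H54.DP.ModqOf
import Pool.Agent.K7.H54.DP.VDM

/-!
# Project DP (MP_4c4335_nt), job MODQ
-/

set_option autoImplicit false

namespace Pool.Agent.K7.H54.DP

theorem modq : StModq := modq_of vdm

end Pool.Agent.K7.H54.DP
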