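import Pool.Agent.K7.H54.DP.Stm

/-!
# Project DP: lemmas for the job SCALE
-/

set_option autoImplicit false

namespace Pool.Agent.K7.H54.DP

open Polynomial MeasureTheory

theorem norm_zz (θ : ℝ) : ‖zz θ‖ = 1 := by
  unfold zz
  exact Complex.norm_exp_ofReal_mul_I θ

theorem ev_mul (P Q : ℤ[X]) (z : ℂ) : ev (P * Q) z = ev P z * ev Q z := by
  unfold ev
  rw [Polynomial.map_mul, eval_mul]

theorem ev_X_pow_mul (k : ℕ) (Q : ℤ[X]) (z : ℂ) : ev (X ^ k * Q) z = z ^ k * ev Q z := by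
  unfold ev
  simp

theorem MM_mul (P Q : ℤ[X]) : MM (P * Q) = MM P * MM Q := by
  unfold MM
  rw [Polynomial.map_mul, mahlerMeasure_mul]

theorem one_le_MM {P : ℤ[X]} (h : P ≠ 0) : 1 ≤ MM P := one_le_mahlerMeasure_of_ne_zero h

theorem MM_nonneg (P : ℤ[X]) : 0 ≤ MM P := mahlerMeasure_nonneg _

theorem MM_le_of_dvd {P Q : ℤ[X]} (h : P ∣ Q) (hQ : Q ≠ 0) : MM P ≤ MM Q := by
  obtain ⟨R, rfl⟩ := h
  rw [MM_mul]
  exact le_mul_of_one_le_right (MM_nonneg P) (one_le_MM (right_ne_zero_of_mul hQ))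

theorem MM_le (P : ℤ[X]) (N : ℕ) (H : ℝ) (hN : P.natDegree < N)
    (hH : ∀ i, |(P.coeff i : ℝ)| ≤ H) : MM P ≤ N * H := by
  have hH0 : 0 ≤ H := (abs_nonneg _).trans (hH 0)
  unfold MM
  refine (mahlerMeasure_le_sum_norm_coeff _).trans ?_
  rw [Polynomial.sum_over_range _ (by simp)]
  have h1 : ((P.map (Int.castRingHom ℂ)).natDegree + 1) ≤ N := by
    have := natDegree_map_le (f := Int.castRingHom ℂ) (p := P)
    omega
  calc ∑ i ∈ Finset.range ((P.map (Int.castRingHom ℂ)).natDegree + 1),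
        ‖(P.map (Int.castRingHom ℂ)).coeff i‖
      ≤ ∑ i ∈ Finset.range ((P.map (Int.castRingHom ℂ)).natDegree + 1), H := by
        refine Finset.sum_le_sum fun i _ => ?_
        rw [coeff_map]
        have : ‖(Int.castRingHom ℂ) (P.coeff i)‖ = |(P.coeff i : ℝ)| := by
          simp
        rw [this]
        exact hH i
    _ = ((P.map (Int.castRingHom ℂ)).natDegree + 1 : ℕ) * H := by
        rw [Finset.sum_const, Finset.card_range, nsmul_eq_mul]
    _ ≤ N * H := mul_le_mul_of_nonneg_right (by exact_mod_cast h1) hH0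

theorem coeff_le (G : ℤ[X]) (i : ℕ) : |(G.coeff i : ℝ)| ≤ 2 ^ G.natDegree * MM G := by
  have h := norm_coeff_le_choose_mul_mahlerMeasure i (G.map (Int.castRingHom ℂ))
  rw [coeff_map] at h
  have e : ‖(Int.castRingHom ℂ) (G.coeff i)‖ = |(G.coeff i : ℝ)| := by
    simp
  rw [e] at h
  refine h.trans ?_
  unfold MM
  refine mul_le_mul_of_nonneg_right ?_ (mahlerMeasure_nonneg _)
  have h1 : (G.map (Int.castRingHom ℂ)).natDegree ≤ G.natDegree := natDegree_map_le
  have h2 : (G.map (Int.castRingHom ℂ)).natDegree.choose i ≤ 2 ^ G.natDegree :=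
    (Nat.choose_le_two_pow _ _).trans (Nat.pow_le_pow_right (by norm_num) h1)
  exact_mod_cast h2

end Pool.Agent.K7.H54.DP
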