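import Pool.Agent.K7.H54.DP.Stm2
import Pool.Agent.K7.H54.DP.Scale0

/-!
# Project DP, job MULT
-/

set_option autoImplicit false

namespace Pool.Agent.K7.H54.DP

open Polynomial MeasureTheory

namespace MULT

/-- the coefficient vector of `Q * G` -/
noncomputable def phi (G : ℤ[X]) (M : ℕ) : ℝ[X] →ₗ[ℝ] EuclideanSpace ℝ (Fin M) where
  toFun Q := WithLp.toLp 2 fun j : Fin M => (Q * G.map (Int.castRingHom ℝ)).coeff j
  map_add' Q Q' := by
    ext j
    simp [add_mul]
  map_smul' c Q := by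
    ext j
    simp

lemma phi_apply (G : ℤ[X]) (M : ℕ) (Q : ℝ[X]) (j : Fin M) :
    phi G M Q j = (Q * G.map (Int.castRingHom ℝ)).coeff j := rfl

lemma norm_sq (G : ℤ[X]) (M : ℕ) (Q : ℝ[X]) :
    ‖phi G M Q‖ ^ 2 = ∑ j ∈ Finset.range M, (Q * G.map (Int.castRingHom ℝ)).coeff j ^ 2 := by
  rw [EuclideanSpace.norm_sq_eq, ← Fin.sum_univ_eq_sum_range
    (fun j => (Q * G.map (Int.castRingHom ℝ)).coeff j ^ 2) M]
  refine Finset.sum_congr rfl fun j _ => ?_
  rw [phi_apply, Real.norm_eq_abs, sq_abs]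

/-- the Mahler measure of a multiple with a monic cofactor -/
lemma mahler (G : ℤ[X]) (M : ℕ) (Q : ℝ[X]) (hQ : Q.Monic) (hG : G ≠ 0)
    (hd : Q.natDegree + G.natDegree < M) : MM G ≤ ‖phi G M Q‖ := by
  set F : ℝ[X] := Q * G.map (Int.castRingHom ℝ) with hF
  have h1 : F.natDegree < M := by
    refine lt_of_le_of_lt (natDegree_mul_le.trans (Nat.add_le_add_left natDegree_map_le _)) hd
  have h2 : MM G ≤ (F.map (algebraMap ℝ ℂ)).mahlerMeasure := by
    have e : F.map (algebraMap ℝ ℂ) = Q.map (algebraMap ℝ ℂ) * G.map (Int.castRingHom ℂ) := by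
      rw [hF, Polynomial.map_mul, Polynomial.map_map]
      congr 2
    rw [e, mahlerMeasure_mul, MM]
    refine le_mul_of_one_le_left (mahlerMeasure_nonneg _) ?_
    have h3 := leadingCoeff_le_mahlerMeasure (Q.map (algebraMap ℝ ℂ))
    rw [(hQ.map (algebraMap ℝ ℂ)).leadingCoeff, norm_one] at h3
    exact h3
  refine h2.trans ((mahlerMeasure_le_sqrt_sum_sq_norm_coeff _).trans ?_)
  rw [Real.sqrt_le_left (norm_nonneg _), norm_sq]
  have h4 : (F.map (algebraMap ℝ ℂ)).support ⊆ Finset.range M := by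
    intro i hi
    rw [Finset.mem_range]
    have h5 := le_natDegree_of_mem_supp i hi
    have h6 : (F.map (algebraMap ℝ ℂ)).natDegree ≤ F.natDegree := natDegree_map_le
    omega
  refine (Finset.sum_le_sum_of_subset_of_nonneg h4 fun _ _ _ => sq_nonneg _).trans ?_
  refine Finset.sum_le_sum fun j _ => ?_
  rw [coeff_map]
  have h7 : ‖(algebraMap ℝ ℂ) (F.coeff j)‖ ^ 2 = F.coeff j ^ 2 := by
    simp
  rw [h7]

end MULT

open MULT in
/-- **MULT** -/
theorem mult (h : StGsc) : StMult := by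
  classical
  intro G M H hG hdM hH A hA
  set m := M - G.natDegree with hm
  have hMM : 1 ≤ MM G := one_le_MM hG
  have hH1 : (1 : ℝ) ≤ H := by exact_mod_cast hH
  have hQ : ∀ P : A, ∃ Q : ℤ[X], (P : ℤ[X]) = G * Q ∧ Q.degree < (m : WithBot ℕ) := by
    rintro ⟨P, hP⟩
    obtain ⟨⟨Q, hQ⟩, hd, -⟩ := hA P hP
    refine ⟨Q, hQ, ?_⟩
    by_cases hQ0 : Q = 0
    · subst hQ0
      rw [degree_zero]
      exact WithBot.bot_lt_coe _
    · have hP0 : P ≠ 0 := by
        rw [hQ]
        exact mul_ne_zero hG hQ0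
      rw [degree_eq_natDegree hP0] at hd
      rw [degree_eq_natDegree hQ0]
      have h1 : P.natDegree < M := by exact_mod_cast hd
      rw [hQ, natDegree_mul hG hQ0] at h1
      have h2 : Q.natDegree < m := by omega
      exact_mod_cast h2
  choose Q hQ1 hQ2 using hQ
  set b : Fin m → EuclideanSpace ℝ (Fin M) := fun i => phi G M (X ^ (i : ℕ)) with hb
  set f : A → Fin m → ℤ := fun P i => (Q P).coeff i with hf
  have hfi : Function.Injective f := by
    intro P P' hPP
    have h1 : Q P = Q P' := by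
      ext i
      by_cases hi : i < m
      · exact congrFun hPP ⟨i, hi⟩
      · rw [coeff_eq_zero_of_degree_lt ((hQ2 P).trans_le (by exact_mod_cast not_lt.1 hi)),
          coeff_eq_zero_of_degree_lt ((hQ2 P').trans_le (by exact_mod_cast not_lt.1 hi))]
    apply Subtype.ext
    rw [hQ1 P, hQ1 P', h1]
  have hsum : ∀ P : A, ∑ i, ((f P i : ℤ) : ℝ) • b i = phi G M ((Q P).map (Int.castRingHom ℝ)) := by
    intro P
    have h1 : (Q P).map (Int.castRingHom ℝ) = ∑ i : Fin m, ((f P i : ℤ) : ℝ) • (X ^ (i : ℕ) : ℝ[X]) := by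
      have h2 : ((Q P).map (Int.castRingHom ℝ)).degree < (m : WithBot ℕ) := degree_map_le.trans_lt (hQ2 P)
      rw [Fin.sum_univ_eq_sum_range (fun i => (((Q P).coeff i : ℤ) : ℝ) • (X ^ i : ℝ[X])) m]
      ext k
      rw [coeff_map, finsetSum_coeff]
      simp only [coeff_smul, coeff_X_pow, smul_eq_mul, mul_ite, mul_one, mul_zero]
      rw [Finset.sum_ite_eq]
      split_ifs with hk
      · rfl
      · rw [Finset.mem_range] at hk
        rw [coeff_eq_zero_of_degree_lt ((hQ2 P).trans_le (by exact_mod_cast not_lt.1 hk))]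
        simp
    rw [h1, map_sum]
    refine Finset.sum_congr rfl fun i _ => ?_
    rw [map_smul]
  have key := h M m b (MM G) (H * Real.sqrt M) H (by linarith) (by linarith) ?_
    (Finset.univ.image f) ?_
  · rw [Finset.card_image_of_injective _ hfi, Finset.card_univ, Fintype.card_coe] at key
    have e : (H * Real.sqrt M / H) ^ 2 = (M : ℝ) := by
      rw [mul_div_cancel_left₀ _ (by linarith : (H : ℝ) ≠ 0), Real.sq_sqrt (Nat.cast_nonneg _)]
    rw [e] at key
    exact key
  · intro i x hx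
    have h1 : ∃ R : ℝ[X], R.degree < ((i : ℕ) : WithBot ℕ) ∧ phi G M R = x := by
      have h2 : Submodule.span ℝ (b '' {j | j < i}) ≤ (degreeLT ℝ (i : ℕ)).map (phi G M) := by
        rw [Submodule.span_le]
        rintro y ⟨j, hj, rfl⟩
        refine ⟨X ^ (j : ℕ), ?_, rfl⟩
        rw [SetLike.mem_coe, mem_degreeLT, degree_X_pow]
        exact_mod_cast (Fin.lt_def.1 hj)
      obtain ⟨R, hR, hRx⟩ := h2 hx
      exact ⟨R, mem_degreeLT.1 hR, hRx⟩
    obtain ⟨R, hR, rfl⟩ := h1
    have h3 : b i + phi G M R = phi G M (X ^ (i : ℕ) + R) := by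
      rw [map_add]
    rw [h3]
    have hmon : (X ^ (i : ℕ) + R).Monic := by
      apply monic_X_pow_add
      exact hR
    have hnd : (X ^ (i : ℕ) + R).natDegree = (i : ℕ) := by
      rw [natDegree_add_eq_left_of_degree_lt, natDegree_X_pow]
      rw [degree_X_pow]
      exact hR
    refine MULT.mahler G M _ hmon hG ?_
    rw [hnd]
    have := i.2
    omega
  · intro q hq
    obtain ⟨P, -, rfl⟩ := Finset.mem_image.1 hq
    rw [hsum P]
    refine abs_le_of_sq_le_sq' ?_ (by positivity) |>.2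
    rw [norm_sq, mul_pow, Real.sq_sqrt (Nat.cast_nonneg _)]
    have h1 : (Q P).map (Int.castRingHom ℝ) * G.map (Int.castRingHom ℝ) =
        (P : ℤ[X]).map (Int.castRingHom ℝ) := by
      rw [hQ1 P, Polynomial.map_mul, mul_comm]
    rw [h1]
    calc ∑ j ∈ Finset.range M, ((P : ℤ[X]).map (Int.castRingHom ℝ)).coeff j ^ 2
        ≤ ∑ j ∈ Finset.range M, (H : ℝ) ^ 2 := by
          refine Finset.sum_le_sum fun j _ => ?_
          rw [coeff_map]
          have h2 : |(((P : ℤ[X]).coeff j : ℤ) : ℝ)| ≤ H := by exact_mod_cast (hA P P.2).2.2 j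
          exact sq_le_sq' (abs_le.1 h2).1 (abs_le.1 h2).2
      _ = (H : ℝ) ^ 2 * M := by
          rw [Finset.sum_const, Finset.card_range, nsmul_eq_mul, mul_comm]

end Pool.Agent.K7.H54.DP
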