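import Pool.Agent.K7.H54.DP.Stm

/-!
# Project DP, job PIG
-/

set_option autoImplicit false

namespace Pool.Agent.K7.H54.DP

open Polynomial MeasureTheory

namespace PIG

lemma ev_ofFn (N : ℕ) (c : Fin N → ℤ) (z : ℂ) :
    ev (ofFn N c) z = ∑ i, (c i : ℂ) * z ^ (i : ℕ) := by
  rw [ev, ofFn_eq_sum_monomial, Polynomial.map_sum, eval_finsetSum]
  refine Finset.sum_congr rfl fun i _ => ?_
  rw [map_monomial, eval_monomial]
  rfl

lemma floor_close {a b t : ℝ} (ht : 0 < t) (ha : 0 ≤ a) (hb : 0 ≤ b)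
    (h : ⌊2 * a / t⌋₊ = ⌊2 * b / t⌋₊) : |a - b| ≤ t / 2 := by
  have h1 := Nat.floor_le (show 0 ≤ 2 * a / t by positivity)
  have h2 := Nat.floor_le (show 0 ≤ 2 * b / t by positivity)
  have h3 := Nat.lt_floor_add_one (2 * a / t)
  have h4 := Nat.lt_floor_add_one (2 * b / t)
  rw [h] at h1 h3
  have h5 : 2 * a / t - 2 * b / t ≤ 1 := by linarith
  have h6 : 2 * b / t - 2 * a / t ≤ 1 := by linarith
  have h7 : 2 * a / t - 2 * b / t = 2 * (a - b) / t := by ring
  have h8 : 2 * b / t - 2 * a / t = 2 * (b - a) / t := by ring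
  rw [h7, div_le_one ht] at h5
  rw [h8, div_le_one ht] at h6
  rw [abs_le]
  constructor <;> linarith

end PIG

open PIG in
/-- **PIG** -/
theorem pig : StPig := by
  intro z N H t hz hN hH ht ht1 hlt
  set A : ℝ := N * H with hA
  have hA1 : 1 ≤ A := by
    have h1 : (1 : ℝ) ≤ N := by exact_mod_cast hN
    have h2 : (1 : ℝ) ≤ H := by exact_mod_cast hH
    rw [hA]; nlinarith
  set v : (Fin N → Fin (H + 1)) → ℂ := fun c => ∑ i, ((c i : ℕ) : ℂ) * z ^ (i : ℕ) with hv
  have hvn : ∀ c, ‖v c‖ ≤ A := by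
    intro c
    refine (norm_sum_le _ _).trans ?_
    calc ∑ i, ‖((c i : ℕ) : ℂ) * z ^ (i : ℕ)‖ ≤ ∑ i : Fin N, (H : ℝ) := by
          refine Finset.sum_le_sum fun i _ => ?_
          rw [norm_mul, norm_pow, hz, one_pow, mul_one, Complex.norm_natCast]
          exact_mod_cast Nat.lt_succ_iff.1 (c i).2
      _ = A := by
          rw [Finset.sum_const, Finset.card_univ, Fintype.card_fin, nsmul_eq_mul, hA]
  have hre : ∀ c, 0 ≤ (v c).re + A ∧ (v c).re + A ≤ 2 * A := by
    intro c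
    have h1 := (Complex.abs_re_le_norm (v c)).trans (hvn c)
    rw [abs_le] at h1
    constructor <;> linarith
  have him : ∀ c, 0 ≤ (v c).im + A ∧ (v c).im + A ≤ 2 * A := by
    intro c
    have h1 := (Complex.abs_im_le_norm (v c)).trans (hvn c)
    rw [abs_le] at h1
    constructor <;> linarith
  set K : ℕ := ⌊4 * A / t⌋₊ + 1 with hK
  have hflK : ∀ a : ℝ, a ≤ 2 * A → ⌊2 * a / t⌋₊ < K := by
    intro a ha
    rw [hK, Nat.lt_succ_iff]
    apply Nat.floor_le_floor
    exact div_le_div_of_nonneg_right (by linarith) ht.le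
  let f : (Fin N → Fin (H + 1)) → Fin K × Fin K := fun c =>
    (⟨⌊2 * ((v c).re + A) / t⌋₊, hflK _ (hre c).2⟩, ⟨⌊2 * ((v c).im + A) / t⌋₊, hflK _ (him c).2⟩)
  have hcard : Fintype.card (Fin K × Fin K) < Fintype.card (Fin N → Fin (H + 1)) := by
    rw [Fintype.card_prod, Fintype.card_fin, Fintype.card_fun, Fintype.card_fin, Fintype.card_fin]
    have h1 : (K : ℝ) ≤ 8 * N * H / t := by
      rw [hK]
      push_cast
      have h2 : (⌊4 * A / t⌋₊ : ℝ) ≤ 4 * A / t := Nat.floor_le (by positivity)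
      have h3 : (1 : ℝ) ≤ 4 * A / t := by
        rw [le_div_iff₀ ht]; linarith
      have h4 : 8 * (N : ℝ) * H / t = 4 * A / t + 4 * A / t := by
        rw [hA]; ring
      rw [h4]; linarith
    have h5 : ((K : ℝ)) * K < ((H : ℝ) + 1) ^ N := by
      refine lt_of_le_of_lt ?_ hlt
      rw [pow_two]
      gcongr
    exact_mod_cast h5
  obtain ⟨c, c', hne, hcc⟩ := Fintype.exists_ne_map_eq_of_card_lt f hcard
  have hcc1 := congrArg (fun p => (p.1 : ℕ)) hcc
  have hcc2 := congrArg (fun p => (p.2 : ℕ)) hcc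
  have hc1 := floor_close ht (hre c).1 (hre c').1 hcc1
  have hc2 := floor_close ht (him c).1 (him c').1 hcc2
  set d : Fin N → ℤ := fun i => ((c i : ℕ) : ℤ) - ((c' i : ℕ) : ℤ) with hd
  refine ⟨ofFn N d, ?_, ofFn_natDegree_lt hN d, ?_, ?_⟩
  · intro h0
    apply hne
    funext i
    have h1 : (ofFn N d).coeff i = d i := ofFn_coeff_eq_val_of_lt d i.2
    rw [h0, coeff_zero] at h1
    apply Fin.ext
    have h2 : ((c i : ℕ) : ℤ) - ((c' i : ℕ) : ℤ) = 0 := h1.symm
    omega
  · intro i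
    by_cases hi : i < N
    · rw [ofFn_coeff_eq_val_of_lt d hi, hd, abs_le]
      have h1 := (c ⟨i, hi⟩).2
      have h2 := (c' ⟨i, hi⟩).2
      constructor <;> simp only [] <;> omega
    · rw [ofFn_coeff_eq_zero_of_ge d (not_lt.1 hi), abs_zero]
      positivity
  · have h1 : ev (ofFn N d) z = v c - v c' := by
      rw [ev_ofFn, hv]
      simp only []
      rw [← Finset.sum_sub_distrib]
      refine Finset.sum_congr rfl fun i _ => ?_
      rw [hd]
      push_cast
      ring
    rw [h1]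
    refine (Complex.norm_le_abs_re_add_abs_im _).trans ?_
    rw [Complex.sub_re, Complex.sub_im]
    have h2 : (v c).re - (v c').re = ((v c).re + A) - ((v c').re + A) := by ring
    have h3 : (v c).im - (v c').im = ((v c).im + A) - ((v c').im + A) := by ring
    rw [h2, h3]
    linarith

end Pool.Agent.K7.H54.DP
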