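import Pool.Agent.K7.H54.DP.Stm2
import Pool.Agent.K7.H54.DP.PIG

/-!
# Project DP, job PIGC: the pigeonhole principle with the number of solutions
-/

set_option autoImplicit false

namespace Pool.Agent.K7.H54.DP

open Polynomial MeasureTheory

open PIG in
/-- **PIGC** -/
theorem pigc : StPigc := by
  intro z N H t hz hN hH ht ht1
  set A : ℝ := N * H with hA
  have hA1 : 1 ≤ A := by
    have h1 : (1 : ℝ) ≤ N := by exact_mod_cast hN
    have h2 : (1 : ℝ) ≤ H := by exact_mod_cast hH
    rw [hA]; nlinarith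
  set v : (Fin N → Fin (H + 1)) → ℂ := fun c => ∑ i, ((c i : ℕ) : ℂ) * z ^ (i : ℕ) with hv
  have hvn : ∀ c, ‖v c‖ ≤ A := by
    intro c
    refine (norm_sum_le _ _).trans ?_
    calc ∑ i, ‖((c i : ℕ) : ℂ) * z ^ (i : ℕ)‖ ≤ ∑ i : Fin N, (H : ℝ) := by
          refine Finset.sum_le_sum fun i _ => ?_
          rw [norm_mul, norm_pow, hz, one_pow, mul_one, Complex.norm_natCast]
          exact_mod_cast Nat.lt_succ_iff.1 (c i).2
      _ = A := by
          rw [Finset.sum_const, Finset.card_univ, Fintype.card_fin, nsmul_eq_mul, hA]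
  have hre : ∀ c, 0 ≤ (v c).re + A ∧ (v c).re + A ≤ 2 * A := by
    intro c
    have h1 := (Complex.abs_re_le_norm (v c)).trans (hvn c)
    rw [abs_le] at h1
    constructor <;> linarith
  have him : ∀ c, 0 ≤ (v c).im + A ∧ (v c).im + A ≤ 2 * A := by
    intro c
    have h1 := (Complex.abs_im_le_norm (v c)).trans (hvn c)
    rw [abs_le] at h1
    constructor <;> linarith
  set K : ℕ := ⌊4 * A / t⌋₊ + 1 with hK
  have hflK : ∀ a : ℝ, a ≤ 2 * A → ⌊2 * a / t⌋₊ < K := by
    intro a ha
    rw [hK, Nat.lt_succ_iff]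
    apply Nat.floor_le_floor
    exact div_le_div_of_nonneg_right (by linarith) ht.le
  let f : (Fin N → Fin (H + 1)) → Fin K × Fin K := fun c =>
    (⟨⌊2 * ((v c).re + A) / t⌋₊, hflK _ (hre c).2⟩, ⟨⌊2 * ((v c).im + A) / t⌋₊, hflK _ (him c).2⟩)
  have hK1 : (K : ℝ) ≤ 8 * N * H / t := by
    rw [hK]
    push_cast
    have h2 : (⌊4 * A / t⌋₊ : ℝ) ≤ 4 * A / t := Nat.floor_le (by positivity)
    have h3 : (1 : ℝ) ≤ 4 * A / t := by
      rw [le_div_iff₀ ht]; linarith
    have h4 : 8 * (N : ℝ) * H / t = 4 * A / t + 4 * A / t := by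
      rw [hA]; ring
    rw [h4]; linarith
  have hK0 : (0 : ℝ) < K := by rw [hK]; positivity
  have : NeZero K := ⟨by rw [hK]; exact Nat.succ_ne_zero _⟩
  set b : ℝ := ((H : ℝ) + 1) ^ N / (K * K) with hb
  have hb0 : 0 < b := by rw [hb]; positivity
  have hcard : Fintype.card (Fin K × Fin K) • b ≤ (Fintype.card (Fin N → Fin (H + 1)) : ℝ) := by
    rw [Fintype.card_prod, Fintype.card_fin, Fintype.card_fun, Fintype.card_fin, Fintype.card_fin,
      nsmul_eq_mul, hb]
    push_cast
    rw [mul_div_cancel₀]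
    positivity
  obtain ⟨y, hy⟩ := Fintype.exists_le_card_fiber_of_nsmul_le_card f hcard
  set s : Finset (Fin N → Fin (H + 1)) := Finset.univ.filter (fun c => f c = y) with hs
  have hs0 : s.Nonempty := by
    rw [← Finset.card_pos]
    have : (0 : ℝ) < s.card := hb0.trans_le hy
    exact_mod_cast this
  obtain ⟨c', hc'⟩ := hs0
  set g : (Fin N → Fin (H + 1)) → ℤ[X] := fun c =>
    ofFn N (fun i => ((c i : ℕ) : ℤ) - ((c' i : ℕ) : ℤ)) with hg
  have hginj : Function.Injective g := by
    intro c₁ c₂ h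
    funext i
    have h1 := congrArg (fun P : ℤ[X] => P.coeff i) h
    simp only [hg] at h1
    rw [ofFn_coeff_eq_val_of_lt _ i.2, ofFn_coeff_eq_val_of_lt _ i.2] at h1
    apply Fin.ext
    have h2 : ((c₁ i : ℕ) : ℤ) - ((c' i : ℕ) : ℤ) = ((c₂ i : ℕ) : ℤ) - ((c' i : ℕ) : ℤ) := h1
    omega
  refine ⟨s.image g, ?_, ?_⟩
  · intro P hP
    obtain ⟨c, hc, rfl⟩ := Finset.mem_image.1 hP
    have hcc : f c = f c' := by
      rw [(Finset.mem_filter.1 hc).2, (Finset.mem_filter.1 hc').2]
    have hcc1 := congrArg (fun p => (p.1 : ℕ)) hcc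
    have hcc2 := congrArg (fun p => (p.2 : ℕ)) hcc
    have hc1 := floor_close ht (hre c).1 (hre c').1 hcc1
    have hc2 := floor_close ht (him c).1 (him c').1 hcc2
    refine ⟨ofFn_natDegree_lt hN _, ?_, ?_⟩
    · intro i
      by_cases hi : i < N
      · simp only [hg]
        rw [ofFn_coeff_eq_val_of_lt _ hi, abs_le]
        have h1 := (c ⟨i, hi⟩).2
        have h2 := (c' ⟨i, hi⟩).2
        constructor <;> omega
      · simp only [hg]
        rw [ofFn_coeff_eq_zero_of_ge _ (not_lt.1 hi), abs_zero]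
        positivity
    · have h1 : ev (g c) z = v c - v c' := by
        simp only [hg]
        rw [ev_ofFn, hv]
        simp only []
        rw [← Finset.sum_sub_distrib]
        refine Finset.sum_congr rfl fun i _ => ?_
        push_cast
        ring
      rw [h1]
      refine (Complex.norm_le_abs_re_add_abs_im _).trans ?_
      rw [Complex.sub_re, Complex.sub_im]
      have h2 : (v c).re - (v c').re = ((v c).re + A) - ((v c').re + A) := by ring
      have h3 : (v c).im - (v c').im = ((v c).im + A) - ((v c').im + A) := by ring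
      rw [h2, h3]
      linarith
  · rw [Finset.card_image_of_injective _ hginj]
    have h1 : ((H : ℝ) + 1) ^ N = (K * K) * b := by
      rw [hb, mul_div_cancel₀]
      positivity
    have hy' : b ≤ (s.card : ℝ) := hy
    rw [h1, pow_two]
    gcongr

end Pool.Agent.K7.H54.DP
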