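import Pool.Agent.K7.H54.DP.Stm

/-! Project DP, job ROT: the powers of `z` are dense in the circle. -/

set_option autoImplicit false

namespace Pool.Agent.K7.H54.DP

open Polynomial

theorem rot : StRot := by
  intro θ hθ
  have hp : Fact (0 < 2 * Real.pi) := ⟨Real.two_pi_pos⟩
  set a : AddCircle (2 * Real.pi) := ((θ : ℝ) : AddCircle (2 * Real.pi)) with ha
  have hfa : ∀ k : ℕ, ((AddCircle.toCircle (k • a) : Circle) : ℂ) = zz θ ^ k := by
    intro k
    rw [AddCircle.toCircle_nsmul, ha, AddCircle.toCircle_apply_mk, div_self Real.two_pi_pos.ne',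
      one_mul, Circle.coe_pow, Circle.coe_exp]
    rfl
  have hord : addOrderOf a = 0 := by
    rw [addOrderOf_eq_zero_iff, isOfFinAddOrder_iff_nsmul_eq_zero]
    rintro ⟨k, hk, h0⟩
    apply hθ k hk
    rw [← hfa, h0, AddCircle.toCircle_zero, Circle.coe_one]
  have hdense : DenseRange (fun k : ℕ => k • a) :=
    denseRange_zsmul_iff_nsmul.1 (AddCircle.denseRange_zsmul_iff.2 hord)
  have hopen : ∀ k : ℕ, IsOpen {u : ℂ | ‖zz θ ^ k - u‖ < 1 / 200} := fun k =>
    isOpen_lt (by fun_prop) continuous_const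
  have hcov : Metric.sphere (0 : ℂ) 1 ⊆ ⋃ k : ℕ, {u : ℂ | ‖zz θ ^ k - u‖ < 1 / 200} := by
    intro u hu
    rw [mem_sphere_zero_iff_norm] at hu
    have hc : Continuous fun b : AddCircle (2 * Real.pi) => ‖((AddCircle.toCircle b : Circle) : ℂ) - u‖ :=
      ((continuous_subtype_val.comp AddCircle.continuous_toCircle).sub continuous_const).norm
    have hne : ({b : AddCircle (2 * Real.pi) |
        ‖((AddCircle.toCircle b : Circle) : ℂ) - u‖ < 1 / 200}).Nonempty := by
      refine ⟨((Complex.arg u : ℝ) : AddCircle (2 * Real.pi)), ?_⟩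
      have h1 : ((AddCircle.toCircle ((Complex.arg u : ℝ) : AddCircle (2 * Real.pi)) : Circle) : ℂ) = u := by
        rw [AddCircle.toCircle_apply_mk, div_self Real.two_pi_pos.ne', one_mul, Circle.coe_exp]
        have := Complex.norm_mul_exp_arg_mul_I u
        rw [hu, Complex.ofReal_one, one_mul] at this
        exact this
      change ‖((AddCircle.toCircle ((Complex.arg u : ℝ) : AddCircle (2 * Real.pi)) : Circle) : ℂ) - u‖ < 1 / 200
      rw [h1, sub_self, norm_zero]
      norm_num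
    obtain ⟨b, hb, k, rfl⟩ := hdense.inter_open_nonempty _ (isOpen_lt hc continuous_const) hne
    refine Set.mem_iUnion.2 ⟨k, ?_⟩
    have hb' : ‖((AddCircle.toCircle (k • a) : Circle) : ℂ) - u‖ < 1 / 200 := hb
    rw [hfa] at hb'
    exact hb'
  obtain ⟨t, ht⟩ := (isCompact_sphere (0 : ℂ) 1).elim_finite_subcover _ hopen hcov
  refine ⟨t.sup id, fun u hu => ?_⟩
  have h1 := ht (mem_sphere_zero_iff_norm.2 hu)
  rw [Set.mem_iUnion₂] at h1
  obtain ⟨k, hk, h2⟩ := h1
  exact ⟨k, Finset.le_sup (f := id) hk, le_of_lt h2⟩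

end Pool.Agent.K7.H54.DP
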