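import Pool.Agent.K7.H54.DP.Stm

/-!
# Project DP, job ROUND
-/

set_option autoImplicit false

namespace Pool.Agent.K7.H54.DP

open Polynomial MeasureTheory

namespace ROUND

lemma ev_eq (P : ℤ[X]) (z : ℂ) : ev P z = aeval z (P.map (Int.castRingHom ℝ)) := by
  rw [← algebraMap_int_eq, aeval_map_algebraMap, ev, aeval_def, eval₂_eq_eval_map,
    algebraMap_int_eq]

lemma fin_card (M : ℕ) (b : Set ℝ[X]) (hb : ∀ Q ∈ b, Q.natDegree ≤ 2 * M)
    (hl : LinearIndependent ℝ (Subtype.val : b → ℝ[X])) :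
    Finite b ∧ Nat.card b ≤ 2 * M + 1 := by
  let W := degreeLT ℝ (2 * M + 1)
  have hmem : ∀ Q : b, (Q : ℝ[X]) ∈ W := by
    rintro ⟨Q, hQ⟩
    rw [mem_degreeLT]
    exact lt_of_le_of_lt degree_le_natDegree (by exact_mod_cast Nat.lt_succ_of_le (hb Q hQ))
  let e := degreeLTEquiv ℝ (2 * M + 1)
  have : Module.Finite ℝ W := Module.Finite.equiv e.symm
  have hl' : LinearIndependent ℝ (fun Q : b => (⟨Q, hmem Q⟩ : W)) := by
    apply LinearIndependent.of_comp W.subtype
    exact hl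
  have hf : Finite b := hl'.finite_of_isNoetherian
  refine ⟨hf, ?_⟩
  have := Fintype.ofFinite b
  rw [Nat.card_eq_fintype_card]
  refine hl'.fintype_card_le_finrank.trans ?_
  rw [e.finrank_eq, Module.finrank_fin_fun]

end ROUND

open ROUND in
/-- **ROUND** -/
theorem round : StRound := by
  intro z Γ M H t G s hz hH ht hΓ hG
  obtain ⟨b, hbB, hbs, hbl⟩ := exists_linearIndependent ℝ (Mult Γ M)
  have hT : ∀ Q : b, ∃ T : ℤ[X], T.map (Int.castRingHom ℝ) = Q ∧ T.natDegree ≤ 2 * M ∧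
      (∀ i, |(T.coeff i : ℝ)| ≤ H) ∧ ‖ev T z‖ ≤ t := by
    rintro ⟨Q, hQ⟩
    obtain ⟨P, hP, i, hi, rfl⟩ := hbB hQ
    obtain ⟨h1, h2, h3⟩ := hΓ P hP
    refine ⟨X ^ i * P, by simp, ?_, ?_, ?_⟩
    · calc (X ^ i * P).natDegree ≤ (X ^ i : ℤ[X]).natDegree + P.natDegree := natDegree_mul_le
        _ ≤ i + M := by rw [natDegree_X_pow]; omega
        _ ≤ 2 * M := by omega
    · intro k
      rw [coeff_X_pow_mul']
      split_ifs
      · exact h2 _
      · simpa using hH
    · have : ev (X ^ i * P) z = z ^ i * ev P z := by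
        unfold ev; simp
      rw [this, norm_mul, norm_pow, hz, one_pow, one_mul]
      exact h3
  choose T hT1 hT2 hT3 hT4 using hT
  obtain ⟨hfin, hcard⟩ := fin_card M b (by
    intro Q hQ
    have h0 : (T ⟨Q, hQ⟩).map (Int.castRingHom ℝ) = Q := hT1 ⟨Q, hQ⟩
    rw [← h0]
    exact natDegree_map_le.trans (hT2 _)) hbl
  have := Fintype.ofFinite b
  rw [Nat.card_eq_fintype_card] at hcard
  have hcard' : (Fintype.card b : ℝ) ≤ 2 * M + 1 := by exact_mod_cast hcard
  have hG' : s • G.map (Int.castRingHom ℝ) ∈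
      Submodule.span ℝ (Set.range (Subtype.val : b → ℝ[X])) := by
    rw [Subtype.range_coe, hbs]; exact Submodule.smul_mem _ _ hG
  obtain ⟨x, hx⟩ := (Submodule.mem_span_range_iff_exists_fun ℝ).1 hG'
  have hfl : ∀ y : ℝ, |(⌊y⌋ : ℝ) - y| ≤ 1 := by
    intro y
    rw [abs_sub_comm, abs_le]
    constructor
    · linarith [Int.floor_le y]
    · linarith [Int.lt_floor_add_one y]
  refine ⟨∑ q, ⌊x q⌋ • T q, ?_, ?_, ?_⟩
  · apply natDegree_sum_le_of_forall_le
    intro q _
    exact (natDegree_smul_le _ _).trans (hT2 q)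
  · intro i
    have h1 : s * (G.coeff i : ℝ) = ∑ q, x q * ((T q).coeff i : ℝ) := by
      have h2 := congrArg (fun Q : ℝ[X] => Q.coeff i) hx
      simp only [finsetSum_coeff, coeff_smul, smul_eq_mul, coeff_map] at h2
      rw [show (Int.castRingHom ℝ) (G.coeff i) = (G.coeff i : ℝ) from rfl] at h2
      rw [← h2]
      refine Finset.sum_congr rfl fun q _ => ?_
      rw [← hT1 q, coeff_map]
      rfl
    have h3 : (((∑ q, ⌊x q⌋ • T q).coeff i : ℤ) : ℝ) = ∑ q, (⌊x q⌋ : ℝ) * ((T q).coeff i : ℝ) := by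
      rw [finsetSum_coeff]
      push_cast [coeff_smul, smul_eq_mul]
      rfl
    have h4 : (((∑ q, ⌊x q⌋ • T q).coeff i : ℤ) : ℝ) =
        s * (G.coeff i : ℝ) + ∑ q, ((⌊x q⌋ : ℝ) - x q) * ((T q).coeff i : ℝ) := by
      rw [h1, h3, ← Finset.sum_add_distrib]
      refine Finset.sum_congr rfl fun q _ => ?_
      ring
    rw [h4]
    refine (abs_add_le _ _).trans ?_
    rw [abs_mul]
    gcongr
    refine (Finset.abs_sum_le_sum_abs _ _).trans ?_
    calc ∑ q, |((⌊x q⌋ : ℝ) - x q) * ((T q).coeff i : ℝ)| ≤ ∑ q : b, 1 * H := by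
          refine Finset.sum_le_sum fun q _ => ?_
          rw [abs_mul]
          exact mul_le_mul (hfl _) (hT3 q i) (abs_nonneg _) zero_le_one
      _ = (Fintype.card b : ℝ) * H := by
          rw [Finset.sum_const, Finset.card_univ, nsmul_eq_mul, one_mul]
      _ ≤ (2 * M + 1) * H := by gcongr
  · have h1 : (s : ℂ) * ev G z = ∑ q, (x q : ℂ) * ev (T q) z := by
      have h2 := congrArg (fun Q : ℝ[X] => aeval z Q) hx
      simp only [map_sum, map_smul, ← ev_eq] at h2
      rw [Complex.real_smul] at h2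
      rw [← h2]
      refine Finset.sum_congr rfl fun q _ => ?_
      rw [← hT1 q, ← ev_eq, Complex.real_smul]
    have h3 : ev (∑ q, ⌊x q⌋ • T q) z = ∑ q, (⌊x q⌋ : ℂ) * ev (T q) z := by
      rw [ev_eq, Polynomial.map_sum, map_sum]
      refine Finset.sum_congr rfl fun q _ => ?_
      rw [zsmul_eq_mul, Polynomial.map_mul, map_mul, ev_eq]
      simp
    have h4 : ev (∑ q, ⌊x q⌋ • T q) z - s * ev G z =
        ∑ q, (((⌊x q⌋ : ℝ) - x q : ℝ) : ℂ) * ev (T q) z := by
      rw [h1, h3, ← Finset.sum_sub_distrib]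
      refine Finset.sum_congr rfl fun q _ => ?_
      push_cast
      ring
    rw [h4]
    refine (norm_sum_le _ _).trans ?_
    calc ∑ q, ‖(((⌊x q⌋ : ℝ) - x q : ℝ) : ℂ) * ev (T q) z‖ ≤ ∑ q : b, 1 * t := by
          refine Finset.sum_le_sum fun q _ => ?_
          rw [norm_mul, Complex.norm_real, Real.norm_eq_abs]
          exact mul_le_mul (hfl _) (hT4 q) (norm_nonneg _) zero_le_one
      _ = (Fintype.card b : ℝ) * t := by
          rw [Finset.sum_const, Finset.card_univ, nsmul_eq_mul, one_mul]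
      _ ≤ (2 * M + 1) * t := by gcongr

end Pool.Agent.K7.H54.DP
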