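import Pool.Agent.K7.H54.DP.Stm2

/-!
# Project DP, job ROUNDT
-/

set_option autoImplicit false

namespace Pool.Agent.K7.H54.DP

open Polynomial MeasureTheory

namespace ROUNDT

lemma ev_eq (P : ℤ[X]) (z : ℂ) : ev P z = aeval z (P.map (Int.castRingHom ℝ)) := by
  rw [← algebraMap_int_eq, aeval_map_algebraMap, ev, aeval_def, eval₂_eq_eval_map,
    algebraMap_int_eq]

lemma fin_card (M : ℕ) (b : Set ℝ[X]) (hb : ∀ Q ∈ b, Q.natDegree ≤ 2 * M)
    (hl : LinearIndependent ℝ (Subtype.val : b → ℝ[X])) :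
    Finite b ∧ Nat.card b ≤ 2 * M + 1 := by
  let W := degreeLT ℝ (2 * M + 1)
  have hmem : ∀ Q : b, (Q : ℝ[X]) ∈ W := by
    rintro ⟨Q, hQ⟩
    rw [mem_degreeLT]
    exact lt_of_le_of_lt degree_le_natDegree (by exact_mod_cast Nat.lt_succ_of_le (hb Q hQ))
  let e := degreeLTEquiv ℝ (2 * M + 1)
  have : Module.Finite ℝ W := Module.Finite.equiv e.symm
  have hl' : LinearIndependent ℝ (fun Q : b => (⟨Q, hmem Q⟩ : W)) := by
    apply LinearIndependent.of_comp W.subtype
    exact hl
  have hf : Finite b := hl'.finite_of_isNoetherian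
  refine ⟨hf, ?_⟩
  have := Fintype.ofFinite b
  rw [Nat.card_eq_fintype_card]
  refine hl'.fintype_card_le_finrank.trans ?_
  rw [e.finrank_eq, Module.finrank_fin_fun]

/-- one step: one of the two roundings is good -/
lemma step (S P Q f : ℝ) (hQ : 0 ≤ Q) (hf0 : 0 ≤ f) (hf1 : f ≤ 1) :
    S + 2 * (-f) * P + (-f) ^ 2 * Q ≤ S + 1 / 4 * Q ∨
      S + 2 * (1 - f) * P + (1 - f) ^ 2 * Q ≤ S + 1 / 4 * Q := by
  by_contra h
  push Not at h
  obtain ⟨h1, h2⟩ := h
  rcases hf1.eq_or_lt with h3 | h3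
  · subst h3
    nlinarith
  · have h4 := mul_lt_mul_of_pos_left h1 (by linarith : (0 : ℝ) < 1 - f)
    have h5 := mul_le_mul_of_nonneg_left h2.le hf0
    nlinarith [mul_nonneg hQ (sq_nonneg (f - 1 / 2))]

/-- rounding with a small mean square error -/
lemma rnd {ι : Type*} [DecidableEq ι] (R : Finset ℕ) (v : ι → ℕ → ℝ) (x : ι → ℝ) (s : Finset ι) :
    ∃ n : ι → ℤ, (∀ q, |(n q : ℝ) - x q| ≤ 1) ∧
      ∑ i ∈ R, (∑ q ∈ s, ((n q : ℝ) - x q) * v q i) ^ 2 ≤ ∑ q ∈ s, (1 / 4) * ∑ i ∈ R, v q i ^ 2 := by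
  induction s using Finset.induction_on with
  | empty =>
    refine ⟨fun q => ⌊x q⌋, fun q => ?_, by simp⟩
    rw [abs_sub_comm, abs_le]
    constructor
    · linarith [Int.floor_le (x q)]
    · linarith [Int.lt_floor_add_one (x q)]
  | insert a s ha ih =>
    obtain ⟨n, hn, hs⟩ := ih
    set E : ℕ → ℝ := fun i => ∑ q ∈ s, ((n q : ℝ) - x q) * v q i with hE
    have key : ∀ m : ℤ, |(m : ℝ) - x a| ≤ 1 →
        ∑ i ∈ R, E i ^ 2 + 2 * ((m : ℝ) - x a) * ∑ i ∈ R, E i * v a i +
          ((m : ℝ) - x a) ^ 2 * ∑ i ∈ R, v a i ^ 2 ≤ ∑ i ∈ R, E i ^ 2 + 1 / 4 * ∑ i ∈ R, v a i ^ 2 →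
        ∃ n : ι → ℤ, (∀ q, |(n q : ℝ) - x q| ≤ 1) ∧
          ∑ i ∈ R, (∑ q ∈ insert a s, ((n q : ℝ) - x q) * v q i) ^ 2 ≤
            ∑ q ∈ insert a s, (1 / 4) * ∑ i ∈ R, v q i ^ 2 := by
      intro m hm h
      refine ⟨Function.update n a m, fun q => ?_, ?_⟩
      · by_cases hq : q = a
        · subst hq
          simpa using hm
        · rw [Function.update_of_ne hq]
          exact hn q
      · rw [Finset.sum_insert ha]
        have h1 : ∀ i, ∑ q ∈ insert a s, (((Function.update n a m q : ℤ) : ℝ) - x q) * v q i =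
            E i + ((m : ℝ) - x a) * v a i := by
          intro i
          rw [Finset.sum_insert ha, Function.update_self, add_comm]
          congr 1
          refine Finset.sum_congr rfl fun q hq => ?_
          rw [Function.update_of_ne]
          rintro rfl
          exact ha hq
        simp only [h1]
        have h2 : ∑ i ∈ R, (E i + ((m : ℝ) - x a) * v a i) ^ 2 =
            ∑ i ∈ R, E i ^ 2 + 2 * ((m : ℝ) - x a) * ∑ i ∈ R, E i * v a i +
              ((m : ℝ) - x a) ^ 2 * ∑ i ∈ R, v a i ^ 2 := by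
          rw [Finset.mul_sum, Finset.mul_sum, ← Finset.sum_add_distrib, ← Finset.sum_add_distrib]
          refine Finset.sum_congr rfl fun i _ => ?_
          ring
        rw [h2]
        linarith
    have hQ : 0 ≤ ∑ i ∈ R, v a i ^ 2 := Finset.sum_nonneg fun i _ => sq_nonneg _
    rcases step (∑ i ∈ R, E i ^ 2) (∑ i ∈ R, E i * v a i) (∑ i ∈ R, v a i ^ 2) (Int.fract (x a)) hQ
      (Int.fract_nonneg _) (Int.fract_lt_one _).le with h | h
    · refine key ⌊x a⌋ ?_ ?_
      · rw [abs_sub_comm, abs_le]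
        constructor
        · linarith [Int.floor_le (x a)]
        · linarith [Int.lt_floor_add_one (x a)]
      · have e : ((⌊x a⌋ : ℤ) : ℝ) - x a = -Int.fract (x a) := by
          rw [Int.fract]
          ring
        rw [e]
        exact h
    · refine key (⌊x a⌋ + 1) ?_ ?_
      · push_cast
        rw [abs_le]
        constructor
        · linarith [Int.lt_floor_add_one (x a)]
        · linarith [Int.floor_le (x a)]
      · have e : (((⌊x a⌋ + 1 : ℤ)) : ℝ) - x a = 1 - Int.fract (x a) := by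
          rw [Int.fract]
          push_cast
          ring
        rw [e]
        exact h

end ROUNDT

open ROUNDT in
/-- **ROUNDT** -/
theorem roundt : StRoundT := by
  classical
  intro z Γ M H t G s hz hH ht hΓ hG
  obtain ⟨b, hbB, hbs, hbl⟩ := exists_linearIndependent ℝ (Mult Γ M)
  have hT : ∀ Q : b, ∃ T : ℤ[X], T.map (Int.castRingHom ℝ) = Q ∧ T.natDegree ≤ 2 * M ∧
      (∑ i ∈ Finset.range (2 * M + 1), (T.coeff i : ℝ) ^ 2 ≤ (M + 1) * H ^ 2) ∧ ‖ev T z‖ ≤ t := by
    rintro ⟨Q, hQ⟩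
    obtain ⟨P, hP, i, hi, rfl⟩ := hbB hQ
    obtain ⟨h1, h2, h3⟩ := hΓ P hP
    refine ⟨X ^ i * P, by simp, ?_, ?_, ?_⟩
    · calc (X ^ i * P).natDegree ≤ (X ^ i : ℤ[X]).natDegree + P.natDegree := natDegree_mul_le
        _ ≤ i + M := by rw [natDegree_X_pow]; omega
        _ ≤ 2 * M := by omega
    · have h5 : ∀ k ∈ Finset.range (2 * M + 1), (((X ^ i * P).coeff k : ℤ) : ℝ) ^ 2 ≤
          if k ∈ Finset.Icc i (i + M) then H ^ 2 else 0 := by
        intro k _
        rw [coeff_X_pow_mul']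
        split_ifs with h6 h7 h7
        · exact sq_le_sq' (by linarith [neg_abs_le (P.coeff (k - i) : ℝ), h2 (k - i)])
            ((le_abs_self _).trans (h2 _))
        · rw [Finset.mem_Icc] at h7
          have : P.coeff (k - i) = 0 := coeff_eq_zero_of_natDegree_lt (by omega)
          rw [this]
          simp
        · rw [Int.cast_zero, zero_pow two_ne_zero]
          exact sq_nonneg H
        · simp
      refine (Finset.sum_le_sum h5).trans ?_
      rw [← Finset.sum_filter]
      rw [Finset.sum_const, nsmul_eq_mul]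
      have h8 : ((Finset.range (2 * M + 1)).filter (fun k => k ∈ Finset.Icc i (i + M))).card ≤ M + 1 := by
        refine (Finset.card_le_card (t := Finset.Icc i (i + M)) ?_).trans ?_
        · intro k hk
          exact (Finset.mem_filter.1 hk).2
        · rw [Nat.card_Icc]
          omega
      have h9 : (((Finset.range (2 * M + 1)).filter (fun k => k ∈ Finset.Icc i (i + M))).card : ℝ) ≤ M + 1 := by
        exact_mod_cast h8
      exact mul_le_mul_of_nonneg_right h9 (sq_nonneg H)
    · have : ev (X ^ i * P) z = z ^ i * ev P z := by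
        unfold ev; simp
      rw [this, norm_mul, norm_pow, hz, one_pow, one_mul]
      exact h3
  choose T hT1 hT2 hT3 hT4 using hT
  obtain ⟨hfin, hcard⟩ := fin_card M b (by
    intro Q hQ
    have h0 : (T ⟨Q, hQ⟩).map (Int.castRingHom ℝ) = Q := hT1 ⟨Q, hQ⟩
    rw [← h0]
    exact natDegree_map_le.trans (hT2 _)) hbl
  have := Fintype.ofFinite b
  rw [Nat.card_eq_fintype_card] at hcard
  have hcard' : (Fintype.card b : ℝ) ≤ 2 * M + 1 := by exact_mod_cast hcard
  have hG' : s • G.map (Int.castRingHom ℝ) ∈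
      Submodule.span ℝ (Set.range (Subtype.val : b → ℝ[X])) := by
    rw [Subtype.range_coe, hbs]; exact Submodule.smul_mem _ _ hG
  obtain ⟨x, hx⟩ := (Submodule.mem_span_range_iff_exists_fun ℝ).1 hG'
  obtain ⟨n, hfl, hsq⟩ := rnd (Finset.range (2 * M + 1)) (fun (q : b) i => ((T q).coeff i : ℝ)) x Finset.univ
  refine ⟨∑ q, n q • T q, ?_, ?_, ?_⟩
  · apply natDegree_sum_le_of_forall_le
    intro q _
    exact (natDegree_smul_le _ _).trans (hT2 q)
  · set E : ℕ → ℝ := fun i => ∑ q, ((n q : ℝ) - x q) * ((T q).coeff i : ℝ) with hE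
    have h0 : ∀ i, (((∑ q, n q • T q).coeff i : ℤ) : ℝ) = s * (G.coeff i : ℝ) + E i := by
      intro i
      have h1 : s * (G.coeff i : ℝ) = ∑ q, x q * ((T q).coeff i : ℝ) := by
        have h2 := congrArg (fun Q : ℝ[X] => Q.coeff i) hx
        simp only [finsetSum_coeff, coeff_smul, smul_eq_mul, coeff_map] at h2
        rw [show (Int.castRingHom ℝ) (G.coeff i) = (G.coeff i : ℝ) from rfl] at h2
        rw [← h2]
        refine Finset.sum_congr rfl fun q _ => ?_
        rw [← hT1 q, coeff_map]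
        rfl
      have h3 : (((∑ q, n q • T q).coeff i : ℤ) : ℝ) = ∑ q, (n q : ℝ) * ((T q).coeff i : ℝ) := by
        rw [finsetSum_coeff]
        push_cast [coeff_smul, smul_eq_mul]
        rfl
      rw [h1, h3, hE, ← Finset.sum_add_distrib]
      refine Finset.sum_congr rfl fun q _ => ?_
      ring
    have h4 : ∑ i ∈ Finset.range (2 * M + 1), |E i| ≤ (2 * M + 1) * Real.sqrt (M + 1) * H := by
      have h5 : ∑ i ∈ Finset.range (2 * M + 1), E i ^ 2 ≤ (2 * M + 1) * ((M + 1) * H ^ 2) := by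
        refine hsq.trans ?_
        calc ∑ q : b, 1 / 4 * ∑ i ∈ Finset.range (2 * M + 1), ((T q).coeff i : ℝ) ^ 2
            ≤ ∑ q : b, (M + 1) * H ^ 2 := by
              refine Finset.sum_le_sum fun q _ => ?_
              have h6 := hT3 q
              have h7 : 0 ≤ ∑ i ∈ Finset.range (2 * M + 1), ((T q).coeff i : ℝ) ^ 2 :=
                Finset.sum_nonneg fun i _ => sq_nonneg _
              linarith
          _ = (Fintype.card b : ℝ) * ((M + 1) * H ^ 2) := by
              rw [Finset.sum_const, Finset.card_univ, nsmul_eq_mul]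
          _ ≤ (2 * M + 1) * ((M + 1) * H ^ 2) := by gcongr
      have h6 : (∑ i ∈ Finset.range (2 * M + 1), |E i|) ^ 2 ≤
          (2 * M + 1) * ∑ i ∈ Finset.range (2 * M + 1), E i ^ 2 := by
        have h7 := sq_sum_le_card_mul_sum_sq (s := Finset.range (2 * M + 1)) (f := fun i => |E i|)
        simp only [Finset.card_range, sq_abs] at h7
        refine h7.trans (le_of_eq ?_)
        push_cast
        ring
      refine abs_le_of_sq_le_sq' ?_ (by positivity) |>.2
      refine h6.trans ?_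
      rw [mul_pow, mul_pow, Real.sq_sqrt (by positivity)]
      calc (2 * (M : ℝ) + 1) * ∑ i ∈ Finset.range (2 * M + 1), E i ^ 2
          ≤ (2 * (M : ℝ) + 1) * ((2 * M + 1) * ((M + 1) * H ^ 2)) :=
            mul_le_mul_of_nonneg_left h5 (by positivity)
        _ = (2 * (M : ℝ) + 1) ^ 2 * (M + 1) * H ^ 2 := by ring
    calc ∑ i ∈ Finset.range (2 * M + 1), |(((∑ q, n q • T q).coeff i : ℤ) : ℝ)|
        ≤ ∑ i ∈ Finset.range (2 * M + 1), (|s| * |(G.coeff i : ℝ)| + |E i|) := by
          refine Finset.sum_le_sum fun i _ => ?_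
          rw [h0 i, ← abs_mul]
          exact abs_add_le _ _
      _ = |s| * (∑ i ∈ Finset.range (2 * M + 1), |(G.coeff i : ℝ)|) +
          ∑ i ∈ Finset.range (2 * M + 1), |E i| := by
          rw [Finset.sum_add_distrib, Finset.mul_sum]
      _ ≤ _ := by linarith
  · have h1 : (s : ℂ) * ev G z = ∑ q, (x q : ℂ) * ev (T q) z := by
      have h2 := congrArg (fun Q : ℝ[X] => aeval z Q) hx
      simp only [map_sum, map_smul, ← ev_eq] at h2
      rw [Complex.real_smul] at h2
      rw [← h2]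
      refine Finset.sum_congr rfl fun q _ => ?_
      rw [← hT1 q, ← ev_eq, Complex.real_smul]
    have h3 : ev (∑ q, n q • T q) z = ∑ q, (n q : ℂ) * ev (T q) z := by
      rw [ev_eq, Polynomial.map_sum, map_sum]
      refine Finset.sum_congr rfl fun q _ => ?_
      rw [zsmul_eq_mul, Polynomial.map_mul, map_mul, ev_eq]
      simp
    have h4 : ev (∑ q, n q • T q) z - s * ev G z =
        ∑ q, (((n q : ℝ) - x q : ℝ) : ℂ) * ev (T q) z := by
      rw [h1, h3, ← Finset.sum_sub_distrib]
      refine Finset.sum_congr rfl fun q _ => ?_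
      push_cast
      ring
    rw [h4]
    refine (norm_sum_le _ _).trans ?_
    calc ∑ q, ‖(((n q : ℝ) - x q : ℝ) : ℂ) * ev (T q) z‖ ≤ ∑ q : b, 1 * t := by
          refine Finset.sum_le_sum fun q _ => ?_
          rw [norm_mul, Complex.norm_real, Real.norm_eq_abs]
          exact mul_le_mul (hfl _) (hT4 q) (norm_nonneg _) zero_le_one
      _ = (Fintype.card b : ℝ) * t := by
          rw [Finset.sum_const, Finset.card_univ, nsmul_eq_mul, one_mul]
      _ ≤ (2 * M + 1) * t := by gcongr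

end Pool.Agent.K7.H54.DP
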