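import Pool.Agent.K7.H54.DP.Disc

/-!
# Project DP (MP_4c4335_nt), job ROOT: a small value is near a root
-/

set_option autoImplicit false

namespace Pool.Agent.K7.H54.DP

open Polynomial

theorem root_of (hV : StVdm) : StRoot := by
  intro G hG h1 z
  obtain ⟨v₀, hv₀, hr₀⟩ := exists_roots hG h1
  obtain ⟨m, hm⟩ : ∃ m, G.natDegree = m + 1 := ⟨G.natDegree - 1, by omega⟩
  have hdisc₀ := one_le_disc hG h1 hr₀ hv₀
  -- reindex
  obtain ⟨v, hr, hdl, hnear⟩ : ∃ v : Fin (m + 1) → ℂ, IsRoots G v ∧ dl v = dl v₀ ∧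
      ∀ j, ‖z - v 0‖ ≤ ‖z - v j‖ := by
    obtain ⟨i₀, -, hi₀⟩ := Finset.exists_min_image (Finset.univ : Finset (Fin G.natDegree))
      (fun i => ‖z - v₀ i‖) ⟨⟨0, h1⟩, Finset.mem_univ _⟩
    let e : Fin (m + 1) ≃ Fin G.natDegree :=
      (Equiv.swap 0 ((finCongr hm) i₀)).trans (finCongr hm.symm)
    refine ⟨v₀ ∘ e, ?_, dl_equiv e v₀, ?_⟩
    · unfold IsRoots at hr₀ ⊢
      rw [hr₀]
      congr 1
      exact (Equiv.prod_comp e (fun i => X - C (v₀ i))).symm
    · intro j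
      have he : e 0 = i₀ := by
        simp [e]
      simp only [Function.comp, he]
      exact hi₀ _ (Finset.mem_univ _)
  have h0 : G ≠ 0 := hG.ne_zero
  set a : ℝ := |(G.leadingCoeff : ℝ)| with ha
  have ha1 : 1 ≤ a := one_le_lc h0
  set Q : ℝ := ∏ i, max 1 ‖v i‖ with hQ
  have hMM : MM G = a * Q := hr.MM_eq h0
  set P : ℝ := ∏ j : Fin m, ‖v 0 - v j.succ‖ with hP
  have hP0 : 0 ≤ P := Finset.prod_nonneg (fun _ _ => norm_nonneg _)
  have hQ' : ∏ j : Fin m, max 1 ‖v j.succ‖ ≤ Q := by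
    rw [hQ, Fin.prod_univ_succ]
    exact le_mul_of_one_le_left (zero_le_one.trans (one_le_prod_max _ _)) (le_max_left _ _)
  have hQ1 : 1 ≤ Q := one_le_prod_max _ _
  have hQ'1 : 1 ≤ ∏ j : Fin m, max 1 ‖v j.succ‖ := one_le_prod_max _ _
  set Q' : ℝ := ∏ j : Fin m, max 1 ‖v j.succ‖ with hQ'def
  have hle := dl_le hV (fun j : Fin m => v j.succ)
  rw [Fintype.card_fin] at hle
  have hF : (m.factorial : ℝ) * Q' ^ (m - 1) ≤ (m + 1).factorial * Q ^ (m + 1) := by
    refine mul_le_mul ?_ ?_ (by positivity) (by positivity)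
    · exact_mod_cast Nat.factorial_le (Nat.le_succ m)
    · exact (pow_le_pow_left₀ (by linarith) hQ' _).trans (pow_le_pow_right₀ hQ1 (by omega))
  set F : ℝ := ((m + 1).factorial : ℝ) with hFd
  have hF1 : 1 ≤ F := by
    rw [hFd]; exact_mod_cast Nat.one_le_iff_ne_zero.2 (Nat.factorial_ne_zero _)
  have hX : 1 ≤ a * P * (F * (a * Q) ^ (m + 1)) := by
    have e1 : 1 ≤ a ^ (2 * m + 1) * (P ^ 2 * (F * Q ^ (m + 1)) ^ 2) := by
      have : 1 ≤ a ^ (2 * m + 1) * (P ^ 2 * dl (fun j : Fin m => v j.succ)) := by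
        rw [← dl_succ, hdl]
        have e2 : 2 * G.natDegree - 1 = 2 * m + 1 := by omega
        rwa [e2] at hdisc₀
      refine this.trans ?_
      refine mul_le_mul_of_nonneg_left ?_ (by positivity)
      refine mul_le_mul_of_nonneg_left ?_ (by positivity)
      exact hle.trans (pow_le_pow_left₀ (by positivity) hF 2)
    have e3 : a ^ (2 * m + 1) * (P ^ 2 * (F * Q ^ (m + 1)) ^ 2) ≤
        (a * P * (F * (a * Q) ^ (m + 1))) ^ 2 := by
      have e4 : (a * P * (F * (a * Q) ^ (m + 1))) ^ 2 =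
          a ^ (2 * m + 4) * (P ^ 2 * (F * Q ^ (m + 1)) ^ 2) := by ring
      rw [e4]
      exact mul_le_mul_of_nonneg_right (pow_le_pow_right₀ ha1 (by omega)) (by positivity)
    have e5 : (1 : ℝ) ^ 2 ≤ (a * P * (F * (a * Q) ^ (m + 1))) ^ 2 := by
      rw [one_pow]; exact e1.trans e3
    exact le_of_sq_le_sq e5 (by positivity)
  refine ⟨v 0, ?_, ?_⟩
  · rw [hr.ev_eq, Finset.prod_eq_zero (Finset.mem_univ 0) (sub_self _), mul_zero]
  · have hval : ‖ev G z‖ = a * (‖z - v 0‖ * ∏ j : Fin m, ‖z - v j.succ‖) := by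
      rw [hr.ev_eq, norm_mul, Complex.norm_intCast, norm_prod, Fin.prod_univ_succ]
    have hprod : P ≤ 2 ^ m * ∏ j : Fin m, ‖z - v j.succ‖ := by
      have : (2 : ℝ) ^ m * ∏ j : Fin m, ‖z - v j.succ‖ = ∏ j : Fin m, (2 * ‖z - v j.succ‖) := by
        rw [Finset.prod_mul_distrib, Finset.prod_const, Finset.card_univ, Fintype.card_fin]
      rw [this]
      refine Finset.prod_le_prod (fun _ _ => norm_nonneg _) (fun j _ => ?_)
      have t1 := hnear j.succ
      have t2 : ‖v 0 - v j.succ‖ ≤ ‖z - v 0‖ + ‖z - v j.succ‖ := by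
        have : v 0 - v j.succ = (z - v j.succ) - (z - v 0) := by ring
        rw [this]
        exact (norm_sub_le _ _).trans (by linarith)
      linarith
    set Z : ℝ := ∏ j : Fin m, ‖z - v j.succ‖ with hZ
    set d : ℝ := ‖z - v 0‖ with hd
    have hd0 : 0 ≤ d := norm_nonneg _
    rw [hval, hMM, hm]
    have : (2 : ℝ) ^ (m + 1) * ((m + 1).factorial : ℝ) * (a * Q) ^ (m + 1) * (a * (d * Z)) =
        2 * d * (a * (2 ^ m * Z) * (F * (a * Q) ^ (m + 1))) := by
      rw [hFd]; ring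
    rw [this]
    have h5 : a * P * (F * (a * Q) ^ (m + 1)) ≤ a * (2 ^ m * Z) * (F * (a * Q) ^ (m + 1)) := by
      refine mul_le_mul_of_nonneg_right ?_ (by positivity)
      exact mul_le_mul_of_nonneg_left hprod (by positivity)
    nlinarith [h5, hX, hd0]

end Pool.Agent.K7.H54.DP
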