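import Pool.Agent.K7.H54.DP.Stm2
import Pool.Agent.K7.H54.DP.Disc
import Pool.Agent.K7.H54.DP.VDM

/-!
# Project DPT (MP_4c4335_nt), job SEP: the value at a point which is not near the roots
-/

set_option autoImplicit false

namespace Pool.Agent.K7.H54.DP

open Polynomial

/-- the roots, the first `k` of which are the nearest to `z` -/
theorem exists_split {G : ℤ[X]} {v₀ : Fin G.natDegree → ℂ} (hr₀ : IsRoots G v₀) (h0 : G ≠ 0) (z : ℂ)
    {k m : ℕ} (hm : G.natDegree = k + m) :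
    ∃ (v : Fin k → ℂ) (w : Fin m → ℂ),
      ‖ev G z‖ = |(G.leadingCoeff : ℝ)| * ((∏ i, ‖z - v i‖) * ∏ j, ‖z - w j‖) ∧
      MM G = |(G.leadingCoeff : ℝ)| * ((∏ i, max 1 ‖v i‖) * ∏ j, max 1 ‖w j‖) ∧
      dl (Sum.elim v w) = dl v₀ ∧ (∀ i j, ‖z - v i‖ ≤ ‖z - w j‖) ∧ ∀ i, ev G (v i) = 0 := by
  set g : Fin G.natDegree → ℝ := fun i => ‖z - v₀ i‖ with hg
  let e : Fin k ⊕ Fin m ≃ Fin G.natDegree :=
    finSumFinEquiv.trans ((finCongr hm.symm).trans (Tuple.sort g))
  refine ⟨fun i => v₀ (e (Sum.inl i)), fun j => v₀ (e (Sum.inr j)), ?_, ?_, ?_, ?_, ?_⟩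
  · rw [hr₀.ev_eq, norm_mul, Complex.norm_intCast, norm_prod,
      ← Equiv.prod_comp e (fun i => ‖z - v₀ i‖), Fintype.prod_sum_type]
  · rw [hr₀.MM_eq h0, ← Equiv.prod_comp e (fun i => max 1 ‖v₀ i‖), Fintype.prod_sum_type]
  · rw [← dl_equiv e v₀]
    congr 1
    funext x
    cases x <;> rfl
  · intro i j
    have hmono := Tuple.monotone_sort g
    have h1 : (finCongr hm.symm) (finSumFinEquiv (Sum.inl i)) ≤
        (finCongr hm.symm) (finSumFinEquiv (Sum.inr j)) := by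
      rw [Fin.le_def]
      simp only [finSumFinEquiv_apply_left, finSumFinEquiv_apply_right, finCongr_apply,
        Fin.val_cast, Fin.val_castAdd, Fin.val_natAdd]
      have := i.2
      omega
    exact hmono h1
  · intro i
    rw [hr₀.ev_eq, Finset.prod_eq_zero (Finset.mem_univ (e (Sum.inl i))) (sub_self _), mul_zero]

theorem sep_of (hV : StVdm) : StSep := by
  intro G hG h1 z k ρ hk hρ0 hρ1 hroot
  have h0 : G ≠ 0 := hG.ne_zero
  obtain ⟨v₀, hv₀, hr₀⟩ := exists_roots hG h1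
  have hdisc₀ := one_le_disc hG h1 hr₀ hv₀
  have ha1 : 1 ≤ |(G.leadingCoeff : ℝ)| := one_le_lc h0
  rcases le_or_gt G.natDegree k with hle | hlt
  · have hM1 : 1 ≤ MM G := by
      rw [hr₀.MM_eq h0]
      exact one_le_mul_of_one_le_of_one_le ha1 (one_le_prod_max _ _)
    have hval : ρ ^ k ≤ ‖ev G z‖ := by
      rw [hr₀.ev_eq, norm_mul, Complex.norm_intCast, norm_prod]
      have h2 : ρ ^ G.natDegree ≤ ∏ i, ‖z - v₀ i‖ := by
        have h3 : ρ ^ G.natDegree = ∏ _i : Fin G.natDegree, ρ := by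
          rw [Finset.prod_const, Finset.card_univ, Fintype.card_fin]
        rw [h3]
        refine Finset.prod_le_prod (fun _ _ => hρ0) (fun i _ => hroot _ ?_)
        rw [hr₀.ev_eq, Finset.prod_eq_zero (Finset.mem_univ i) (sub_self _), mul_zero]
      calc ρ ^ k ≤ ρ ^ G.natDegree := pow_le_pow_of_le_one hρ0 hρ1 hle
        _ ≤ ∏ i, ‖z - v₀ i‖ := h2
        _ ≤ |(G.leadingCoeff : ℝ)| * ∏ i, ‖z - v₀ i‖ :=
          le_mul_of_one_le_left (Finset.prod_nonneg fun _ _ => norm_nonneg _) ha1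
    have h4 : (1 : ℝ) ≤ G.natDegree.factorial * (2 ^ k * MM G) ^ G.natDegree := by
      have h5 : (1 : ℝ) ≤ (G.natDegree.factorial : ℝ) := by
        exact_mod_cast Nat.one_le_iff_ne_zero.2 (Nat.factorial_ne_zero _)
      have h6 : (1 : ℝ) ≤ 2 ^ k * MM G :=
        one_le_mul_of_one_le_of_one_le (one_le_pow₀ (by norm_num)) hM1
      exact one_le_mul_of_one_le_of_one_le h5 (one_le_pow₀ h6)
    calc ρ ^ k ^ 2 = (ρ ^ k) ^ k := by rw [← pow_mul, sq]
      _ ≤ ‖ev G z‖ ^ k := pow_le_pow_left₀ (pow_nonneg hρ0 _) hval k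
      _ ≤ G.natDegree.factorial * (2 ^ k * MM G) ^ G.natDegree * ‖ev G z‖ ^ k :=
        le_mul_of_one_le_left (pow_nonneg (norm_nonneg _) _) h4
  · obtain ⟨m, hm⟩ : ∃ m, G.natDegree = k + m := ⟨G.natDegree - k, by omega⟩
    obtain ⟨v, w, hval, hMM, hdl, hnear, hz⟩ := exists_split hr₀ h0 z hm
    set a : ℝ := |(G.leadingCoeff : ℝ)| with ha
    rw [← hdl, dl_sum] at hdisc₀
    have hv := dl_le hV v
    have hw := dl_le hV w
    rw [Fintype.card_fin] at hv hw
    have hQv1 : 1 ≤ ∏ i, max 1 ‖v i‖ := one_le_prod_max _ _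
    have hQw1 : 1 ≤ ∏ i, max 1 ‖w i‖ := one_le_prod_max _ _
    set Qv : ℝ := ∏ i, max 1 ‖v i‖ with hQv
    set Qw : ℝ := ∏ i, max 1 ‖w i‖ with hQw
    set S : ℝ := ∏ i, ∏ j, ‖v i - w j‖ with hS
    have hS0 : 0 ≤ S := Finset.prod_nonneg fun _ _ => Finset.prod_nonneg fun _ _ => norm_nonneg _
    set Z : ℝ := ∏ j, ‖z - w j‖ with hZ
    have hZ0 : 0 ≤ Z := Finset.prod_nonneg fun _ _ => norm_nonneg _
    have hSle : S ≤ (2 ^ m * Z) ^ k := by
      have h2 : ∀ i, ∏ j, ‖v i - w j‖ ≤ 2 ^ m * Z := by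
        intro i
        have h3 : (2 : ℝ) ^ m * Z = ∏ j : Fin m, (2 * ‖z - w j‖) := by
          rw [Finset.prod_mul_distrib, Finset.prod_const, Finset.card_univ, Fintype.card_fin]
        rw [h3]
        refine Finset.prod_le_prod (fun _ _ => norm_nonneg _) (fun j _ => ?_)
        have t1 := hnear i j
        have t2 : ‖v i - w j‖ ≤ ‖z - v i‖ + ‖z - w j‖ := by
          have : v i - w j = (z - w j) - (z - v i) := by ring
          rw [this]
          exact (norm_sub_le _ _).trans (by linarith)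
        linarith
      have h4 : (2 ^ m * Z) ^ k = ∏ _i : Fin k, (2 ^ m * Z) := by
        rw [Finset.prod_const, Finset.card_univ, Fintype.card_fin]
      rw [h4]
      exact Finset.prod_le_prod (fun _ _ => Finset.prod_nonneg fun _ _ => norm_nonneg _)
        (fun i _ => h2 i)
    set f : ℕ := G.natDegree with hf
    set F : ℝ := (f.factorial : ℝ) with hF
    have hkm : ((k.factorial : ℝ) * m.factorial) ≤ F := by
      rw [hF, hm]
      exact_mod_cast Nat.le_of_dvd (Nat.factorial_pos _) (Nat.factorial_mul_factorial_dvd_factorial_add k m)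
    have hX : 1 ≤ F * (2 ^ k * (a * (Qv * Qw))) ^ f * (a * Z) ^ k := by
      have e1 : a ^ (2 * f - 1) * (dl v * dl w * S ^ 2) ≤
          a ^ (2 * f + 2 * k) * (((k.factorial : ℝ) * Qv ^ f) ^ 2 * ((m.factorial : ℝ) * Qw ^ f) ^ 2 *
            ((2 ^ m * Z) ^ k) ^ 2) := by
        have i1 : a ^ (2 * f - 1) ≤ a ^ (2 * f + 2 * k) := pow_le_pow_right₀ ha1 (by omega)
        have i2 : dl v ≤ ((k.factorial : ℝ) * Qv ^ f) ^ 2 := by
          refine hv.trans (pow_le_pow_left₀ (by positivity) ?_ 2)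
          exact mul_le_mul_of_nonneg_left (pow_le_pow_right₀ hQv1 (by omega)) (by positivity)
        have i3 : dl w ≤ ((m.factorial : ℝ) * Qw ^ f) ^ 2 := by
          refine hw.trans (pow_le_pow_left₀ (by positivity) ?_ 2)
          exact mul_le_mul_of_nonneg_left (pow_le_pow_right₀ hQw1 (by omega)) (by positivity)
        have i4 : S ^ 2 ≤ ((2 ^ m * Z) ^ k) ^ 2 := pow_le_pow_left₀ hS0 hSle 2
        have n1 := dl_nonneg v
        have n2 := dl_nonneg w
        gcongr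
      have e2 : a ^ (2 * f + 2 * k) * (((k.factorial : ℝ) * Qv ^ f) ^ 2 *
          ((m.factorial : ℝ) * Qw ^ f) ^ 2 * ((2 ^ m * Z) ^ k) ^ 2) =
          ((k.factorial * m.factorial) * 2 ^ (m * k) * (a * (Qv * Qw)) ^ f * (a * Z) ^ k) ^ 2 := by
        ring
      have e3 : ((k.factorial * m.factorial) * 2 ^ (m * k) * (a * (Qv * Qw)) ^ f * (a * Z) ^ k) ^ 2 ≤
          (F * (2 ^ k * (a * (Qv * Qw))) ^ f * (a * Z) ^ k) ^ 2 := by
        have e4 : F * (2 ^ k * (a * (Qv * Qw))) ^ f * (a * Z) ^ k =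
            F * 2 ^ (k * f) * (a * (Qv * Qw)) ^ f * (a * Z) ^ k := by
          rw [mul_pow (2 ^ k : ℝ), ← pow_mul]; ring
        rw [e4]
        have i5 : (2 : ℝ) ^ (m * k) ≤ 2 ^ (k * f) := by
          refine pow_le_pow_right₀ (by norm_num) ?_
          rw [mul_comm m k]
          exact Nat.mul_le_mul_left k (by omega)
        have n3 : 0 ≤ a := by linarith
        gcongr
      have e5 : (1 : ℝ) ^ 2 ≤ (F * (2 ^ k * (a * (Qv * Qw))) ^ f * (a * Z) ^ k) ^ 2 := by
        rw [one_pow]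
        calc (1 : ℝ) ≤ _ := hdisc₀
          _ ≤ _ := e1
          _ = _ := e2
          _ ≤ _ := e3
      exact le_of_sq_le_sq e5 (by positivity)
    have hρk : ρ ^ k ≤ ∏ i, ‖z - v i‖ := by
      have h3 : ρ ^ k = ∏ _i : Fin k, ρ := by
        rw [Finset.prod_const, Finset.card_univ, Fintype.card_fin]
      rw [h3]
      exact Finset.prod_le_prod (fun _ _ => hρ0) (fun i _ => hroot _ (hz i))
    have hlow : ρ ^ k * (a * Z) ≤ ‖ev G z‖ := by
      rw [hval]
      have : ρ ^ k * (a * Z) = a * (ρ ^ k * Z) := by ring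
      rw [this]
      gcongr
    rw [hMM]
    calc ρ ^ k ^ 2 = (ρ ^ k) ^ k * 1 := by rw [← pow_mul, sq, mul_one]
      _ ≤ (ρ ^ k) ^ k * (F * (2 ^ k * (a * (Qv * Qw))) ^ f * (a * Z) ^ k) :=
        mul_le_mul_of_nonneg_left hX (by positivity)
      _ = F * (2 ^ k * (a * (Qv * Qw))) ^ f * (ρ ^ k * (a * Z)) ^ k := by rw [mul_pow (ρ ^ k)]; ring
      _ ≤ F * (2 ^ k * (a * (Qv * Qw))) ^ f * ‖ev G z‖ ^ k := by
        refine mul_le_mul_of_nonneg_left ?_ (by positivity)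
        exact pow_le_pow_left₀ (by positivity) hlow k

theorem sep : StSep := sep_of vdm

end Pool.Agent.K7.H54.DP
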