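import Pool.Agent.K7.H54.DP.Scale0

/-!
# Project DP, job SCALE
-/

set_option autoImplicit false

namespace Pool.Agent.K7.H54.DP

open Polynomial MeasureTheory

/-- the numerical conditions -/
theorem num_j (N : ℕ) (hN : 20000 ≤ N) : N / 2500 + 4 ≤ N ∧
    (N : ℝ) / 2 + 3 * 1250 ≤ ((1250 * (N / 2500 + 4) : ℕ) : ℝ) ∧
    61 * ((N / 2500 + 4 : ℕ) : ℝ) + 2 ≤ (N : ℝ) / 20 := by
  have h1 : N / 2500 * 2500 ≤ N := Nat.div_mul_le_self _ _
  have h2 : N < N / 2500 * 2500 + 2500 := by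
    have := Nat.div_add_mod N 2500
    have := Nat.mod_lt N (show 0 < 2500 by norm_num)
    omega
  refine ⟨by omega, ?_, ?_⟩
  · have : (N : ℝ) < (N / 2500 : ℕ) * 2500 + 2500 := by exact_mod_cast h2
    rw [Nat.cast_mul, Nat.cast_add]
    norm_num
    linarith
  · have : ((N / 2500 : ℕ) : ℝ) * 2500 ≤ N := by exact_mod_cast h1
    have h3 : (20000 : ℝ) ≤ N := by exact_mod_cast hN
    rw [Nat.cast_add]
    norm_num
    linarith

theorem cond_pig (N j a : ℕ) (hN : 64 ≤ N) (hj : j ≤ N)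
    (h : (N : ℝ) / 2 + 2 * a + 3 ≤ ((a * j : ℕ) : ℝ)) :
    (8 * j * ((N ^ a : ℕ) : ℝ) / (N : ℝ) ^ (-(N : ℝ) / 4)) ^ 2 < (((N ^ a : ℕ) : ℝ) + 1) ^ j := by
  obtain ⟨x, hx⟩ : ∃ x : ℝ, x = N := ⟨_, rfl⟩
  have hx64 : (64 : ℝ) ≤ x := by rw [hx]; exact_mod_cast hN
  have hx0 : 0 < x := by linarith
  have hx1 : 1 ≤ x := by linarith
  have hjx : (j : ℝ) ≤ x := by rw [hx]; exact_mod_cast hj
  have hj0 : (0 : ℝ) ≤ j := Nat.cast_nonneg _
  rw [Nat.cast_pow, ← hx]
  rw [← hx] at h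
  have e1 : (8 * j * x ^ a / x ^ (-x / 4)) ^ 2 = 64 * (j : ℝ) ^ 2 * x ^ (2 * a : ℝ) * x ^ (x / 2) := by
    have e2 : x ^ (-x / 4) = (x ^ (x / 4))⁻¹ := by
      rw [← Real.rpow_neg hx0.le]
      congr 1
      ring
    have e3 : x ^ (x / 2) = (x ^ (x / 4)) ^ 2 := by
      rw [← Real.rpow_natCast, ← Real.rpow_mul hx0.le]
      congr 1
      push_cast
      ring
    have e4 : x ^ (2 * a : ℝ) = (x ^ a) ^ 2 := by
      rw [← pow_mul, ← Real.rpow_natCast]
      congr 1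
      push_cast
      ring
    rw [e2, e3, e4, div_inv_eq_mul]
    ring
  rw [e1]
  have e5 : (64 : ℝ) * (j : ℝ) ^ 2 ≤ x ^ (3 : ℝ) := by
    have e6 : x ^ (3 : ℝ) = x * x ^ 2 := by
      rw [show (3 : ℝ) = ((3 : ℕ) : ℝ) by norm_num, Real.rpow_natCast]
      ring
    rw [e6]
    exact mul_le_mul hx64 (pow_le_pow_left₀ hj0 hjx 2) (by positivity) hx0.le
  calc 64 * (j : ℝ) ^ 2 * x ^ (2 * a : ℝ) * x ^ (x / 2)
      ≤ x ^ (3 : ℝ) * x ^ (2 * a : ℝ) * x ^ (x / 2) := by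
        have := Real.rpow_pos_of_pos hx0 (2 * a : ℝ)
        have := Real.rpow_pos_of_pos hx0 (x / 2)
        gcongr
    _ = x ^ (x / 2 + 2 * a + 3) := by
        rw [← Real.rpow_add hx0, ← Real.rpow_add hx0]
        congr 1
        ring
    _ ≤ x ^ ((a * j : ℕ) : ℝ) := Real.rpow_le_rpow_of_exponent_le hx1 h
    _ = (x ^ a) ^ j := by rw [Real.rpow_natCast, pow_mul]
    _ < (x ^ a + 1) ^ j := by
        apply pow_lt_pow_left₀ (by linarith) (by positivity)
        rintro rfl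
        have : (0 : ℝ) ≤ a := Nat.cast_nonneg _
        rw [Nat.mul_zero, Nat.cast_zero] at h
        linarith

/-- JOB SCALE -/
theorem scale (hFac : StFac) (hPig : StPig) (hGcd : StGcd) (hRound : StRound) (hRot : StRot) :
    StScale := by
  intro θ hirr ⟨N₀, hgood⟩
  obtain ⟨K, hK⟩ := hRot θ hirr
  refine ⟨max N₀ 20000, K, ?_⟩
  intro N hN r u hr1 hr2 hu
  have hN0 : N₀ ≤ N := (le_max_left _ _).trans hN
  have hN1 : 20000 ≤ N := (le_max_right _ _).trans hN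
  have hG := hgood N hN0
  obtain ⟨z, hz⟩ : ∃ z, z = zz θ := ⟨_, rfl⟩
  rw [← hz] at hG hK ⊢
  have hz1 : ‖z‖ = 1 := by rw [hz]; exact norm_zz θ
  obtain ⟨x, hx⟩ : ∃ x : ℝ, x = N := ⟨_, rfl⟩
  have hxN : (20000 : ℝ) ≤ x := by rw [hx]; exact_mod_cast hN1
  have hx0 : 0 < x := by linarith
  have hx1 : 1 ≤ x := by linarith
  obtain ⟨nj1, nj2, nj3⟩ := num_j N hN1
  obtain ⟨j, hj⟩ : ∃ j, j = N / 2500 + 4 := ⟨_, rfl⟩
  rw [← hj] at nj1 nj2 nj3
  obtain ⟨t, ht⟩ : ∃ t : ℝ, t = (N : ℝ) ^ (-(N : ℝ) / 4) := ⟨_, rfl⟩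
  have ht0 : 0 < t := by rw [ht, ← hx]; exact Real.rpow_pos_of_pos hx0 _
  have ht1 : t ≤ 1 := by
    rw [ht, ← hx]
    exact Real.rpow_le_one_of_one_le_of_nonpos hx1 (by linarith)
  have hA0 : A₀ = 1250 := rfl
  -- the two polynomials
  obtain ⟨PA, hPA0, hPAd, hPAc, hPAv⟩ := hPig z j (N ^ 1250) t hz1 (by omega)
    (Nat.one_le_pow _ _ (by omega)) ht0 ht1 (by
      rw [ht]
      refine cond_pig N j 1250 (by omega) nj1 ?_
      refine le_trans ?_ nj2
      norm_num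
      linarith)
  obtain ⟨PB, hPB0, hPBd, hPBc, hPBv⟩ := hPig z N (N ^ 1) t hz1 (by omega)
    (Nat.one_le_pow _ _ (by omega)) ht0 ht1 (by
      rw [ht]
      refine cond_pig N N 1 (by omega) le_rfl ?_
      rw [Nat.one_mul, ← hx]
      push_cast
      linarith)
  obtain ⟨Γ, hΓ⟩ : ∃ Γ : Set ℤ[X], Γ = {P | P.natDegree ≤ N ∧ (∀ i, |(P.coeff i : ℝ)| ≤ x ^ 1250) ∧
    ‖ev P z‖ ≤ t} := ⟨_, rfl⟩
  have hPAΓ : PA ∈ Γ := by
    rw [hΓ]
    refine ⟨by omega, fun i => ?_, hPAv⟩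
    have h1 := hPAc i
    have h2 : |(PA.coeff i : ℝ)| ≤ ((N ^ 1250 : ℕ) : ℝ) := by exact_mod_cast h1
    rw [Nat.cast_pow, ← hx] at h2
    exact h2
  have hPBc' : ∀ i, |(PB.coeff i : ℝ)| ≤ x := fun i => by
    have h1 := hPBc i
    have h2 : |(PB.coeff i : ℝ)| ≤ ((N ^ 1 : ℕ) : ℝ) := by exact_mod_cast h1
    rw [Nat.cast_pow, ← hx, pow_one] at h2
    exact h2
  have hPBΓ : PB ∈ Γ := by
    rw [hΓ]
    refine ⟨by omega, fun i => (hPBc' i).trans ?_, hPBv⟩
    exact le_self_pow₀ hx1 (by norm_num)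
  obtain ⟨G, hG0, hGd, hGs⟩ := hGcd Γ N ⟨PA, hPAΓ, hPA0⟩ (fun P hP => by
    rw [hΓ] at hP
    exact hP.1)
  have hGdeg : G.natDegree ≤ j := (natDegree_le_of_dvd (hGd PA hPAΓ) hPA0).trans hPAd.le
  have hGM : MM G ≤ x ^ 2 := by
    refine (MM_le_of_dvd (hGd PB hPBΓ) hPB0).trans ?_
    have := MM_le PB N x hPBd hPBc'
    rw [← hx] at this
    rw [sq]
    exact this
  have hval := hFac z N (by omega) hG G hG0 (hGdeg.trans nj1) (by
    rw [← hx]
    exact hGM.trans (pow_le_pow_right₀ hx1 (by norm_num)))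
  rw [← hx] at hval
  obtain ⟨g, hg⟩ : ∃ g : ℝ, g = ‖ev G z‖ := ⟨_, rfl⟩
  rw [← hg] at hval
  have hg0 : 0 < g := by
    by_contra hcon
    have : x ^ (60 * G.natDegree) * g ≤ 0 :=
      mul_nonpos_of_nonneg_of_nonpos (by positivity) (not_lt.1 hcon)
    linarith
  have hginv : 1 / g ≤ x ^ (60 * j) := by
    rw [div_le_iff₀ hg0]
    refine hval.trans (mul_le_mul_of_nonneg_right ?_ hg0.le)
    exact pow_le_pow_right₀ hx1 (by omega)
  have hr0 : 0 < r := lt_of_lt_of_le (Real.rpow_pos_of_pos (by rw [← hx]; exact hx0) _) hr1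
  obtain ⟨s, hs⟩ : ∃ s : ℝ, s = r / g := ⟨_, rfl⟩
  have hs0 : 0 < s := by rw [hs]; positivity
  -- the coefficients of s * G
  have hsc : ∀ i, |s| * |(G.coeff i : ℝ)| ≤ 1 := by
    intro i
    rw [abs_of_pos hs0]
    have h1 : |(G.coeff i : ℝ)| ≤ x ^ (j + 2) := by
      refine (coeff_le G i).trans ?_
      rw [pow_add]
      refine mul_le_mul ?_ hGM (MM_nonneg G) (by positivity)
      calc (2 : ℝ) ^ G.natDegree ≤ 2 ^ j := pow_le_pow_right₀ (by norm_num) hGdeg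
        _ ≤ x ^ j := pow_le_pow_left₀ (by norm_num) (by linarith) j
    have h2 : s ≤ x ^ (-x / 20) * x ^ (60 * j) := by
      rw [hs, div_eq_mul_one_div]
      rw [← hx] at hr2
      exact mul_le_mul hr2 hginv (by positivity) (Real.rpow_nonneg hx0.le _)
    calc s * |(G.coeff i : ℝ)| ≤ (x ^ (-x / 20) * x ^ (60 * j)) * x ^ (j + 2) :=
          mul_le_mul h2 h1 (abs_nonneg _) (mul_nonneg (Real.rpow_nonneg hx0.le _) (by positivity))
      _ = x ^ (-x / 20 + (61 * (j : ℝ) + 2)) := by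
          rw [Real.rpow_add hx0, mul_assoc, ← pow_add]
          congr 1
          rw [← Real.rpow_natCast]
          congr 1
          push_cast
          ring
      _ ≤ 1 := by
          apply Real.rpow_le_one_of_one_le_of_nonpos hx1
          rw [← hx] at nj3
          linarith
  obtain ⟨U, hU1, hU2, hU3⟩ := hRound z Γ N (x ^ 1250) t G s hz1 (by positivity) ht0.le
    (fun P hP => by
      rw [hΓ] at hP
      exact hP) hGs
  -- the rotation
  obtain ⟨v, hv⟩ : ∃ v : ℂ, v = u * (g : ℂ) / ev G z := ⟨_, rfl⟩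
  have hGz : ev G z ≠ 0 := by
    intro h0
    rw [hg, h0, norm_zero] at hg0
    exact lt_irrefl _ hg0
  have hv1 : ‖v‖ = 1 := by
    rw [hv, norm_div, norm_mul, hu, one_mul, Complex.norm_real, ← hg, Real.norm_of_nonneg hg0.le]
    exact div_self hg0.ne'
  obtain ⟨k, hk, hkv⟩ := hK v hv1
  refine ⟨X ^ k * U, ?_, ?_, ?_⟩
  · refine natDegree_mul_le.trans ?_
    rw [natDegree_X_pow]
    omega
  · intro i
    rw [coeff_X_pow_mul']
    have hA : (0 : ℝ) ≤ (N : ℝ) ^ (A₀ + 2) := by positivity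
    split_ifs with hi
    · refine (hU2 _).trans ?_
      rw [← hx, hA0]
      have h3 := hsc (i - k)
      have h4 : (1 : ℝ) ≤ x ^ 1250 := one_le_pow₀ hx1
      calc |s| * |(G.coeff (i - k) : ℝ)| + (2 * x + 1) * x ^ 1250
          ≤ x ^ 1250 + (2 * x + 1) * x ^ 1250 := by
            linarith
        _ = (2 * x + 2) * x ^ 1250 := by ring
        _ ≤ x ^ 2 * x ^ 1250 := by
            apply mul_le_mul_of_nonneg_right _ (by positivity)
            nlinarith
        _ = x ^ (1250 + 2) := by rw [← pow_add]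
    · simp only [Int.cast_zero, abs_zero]
      exact hA
  · rw [ev_X_pow_mul]
    have e1 : z ^ k * ev U z - r * u = z ^ k * (ev U z - s * ev G z) + (z ^ k - v) * (s * ev G z) := by
      have e2 : v * (s * ev G z) = r * u := by
        rw [hv, hs]
        push_cast
        have hgc : (g : ℂ) ≠ 0 := by exact_mod_cast hg0.ne'
        field_simp
      rw [← e2]
      ring
    rw [e1]
    refine (norm_add_le _ _).trans ?_
    have h5 : ‖z ^ k * (ev U z - s * ev G z)‖ ≤ r / 100 := by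
      rw [norm_mul, norm_pow, hz1, one_pow, one_mul]
      refine hU3.trans ?_
      rw [← hx] at hr1
      have h6 : (2 * x + 1) * t ≤ x ^ (-x / 10) / 100 := by
        have e7 : t = x ^ (-x / 10) * x ^ (-(3 * x / 20)) := by
          rw [ht, ← hx, ← Real.rpow_add hx0]
          congr 1
          ring
        have h8 : x ^ (-(3 * x / 20)) ≤ x ^ (-(3 : ℝ)) := by
          apply Real.rpow_le_rpow_of_exponent_le hx1
          linarith
        have h9 : x ^ (-(3 : ℝ)) = (x ^ 3)⁻¹ := by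
          rw [Real.rpow_neg hx0.le]
          congr 1
          rw [show (3 : ℝ) = ((3 : ℕ) : ℝ) by norm_num, Real.rpow_natCast]
        have h10 : (2 * x + 1) * (x ^ 3)⁻¹ ≤ 1 / 100 := by
          rw [← div_eq_mul_inv, div_le_div_iff₀ (by positivity) (by norm_num)]
          nlinarith [mul_pos hx0 hx0]
        have hp := Real.rpow_pos_of_pos hx0 (-x / 10)
        calc (2 * x + 1) * t = x ^ (-x / 10) * ((2 * x + 1) * x ^ (-(3 * x / 20))) := by
              rw [e7]; ring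
          _ ≤ x ^ (-x / 10) * ((2 * x + 1) * (x ^ 3)⁻¹) := by
              rw [← h9]
              apply mul_le_mul_of_nonneg_left _ hp.le
              apply mul_le_mul_of_nonneg_left h8 (by linarith)
          _ ≤ x ^ (-x / 10) * (1 / 100) := mul_le_mul_of_nonneg_left h10 hp.le
          _ = x ^ (-x / 10) / 100 := by ring
      calc (2 * (N : ℝ) + 1) * t = (2 * x + 1) * t := by rw [hx]
        _ ≤ x ^ (-x / 10) / 100 := h6
        _ ≤ r / 100 := by linarith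
    have h6 : ‖(z ^ k - v) * (s * ev G z)‖ ≤ r / 200 := by
      rw [norm_mul, norm_mul, ← hg, Complex.norm_real, Real.norm_of_nonneg hs0.le, hs,
        div_mul_cancel₀ _ hg0.ne']
      calc ‖z ^ k - v‖ * r ≤ 1 / 200 * r := mul_le_mul_of_nonneg_right hkv hr0.le
        _ = r / 200 := by ring
    linarith

end Pool.Agent.K7.H54.DP
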