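import Pool.Agent.K7.H54.DP.Scale0
import Pool.Agent.K7.H54.DP.Stm2

/-!
# Project DP, job SCALET
-/

set_option autoImplicit false

namespace Pool.Agent.K7.H54.DP

open Polynomial MeasureTheory Filter

theorem evt_exp (s b c : ℝ) (hb : 0 < b) : ∀ᶠ x : ℝ in atTop, c * x ^ s ≤ Real.exp (b * x) := by
  have h := isLittleO_rpow_exp_pos_mul_atTop s hb
  have hc : (0 : ℝ) < 1 / (|c| + 1) := by positivity
  have h1 := h.def hc
  filter_upwards [h1, eventually_gt_atTop 0] with x hx hx0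
  rw [Real.norm_of_nonneg (Real.rpow_nonneg hx0.le _), Real.norm_of_nonneg (Real.exp_pos _).le,
    one_div, inv_mul_eq_div, le_div_iff₀ (by positivity)] at hx
  have h2 : c * x ^ s ≤ (|c| + 1) * x ^ s := by
    apply mul_le_mul_of_nonneg_right _ (Real.rpow_nonneg hx0.le _)
    have := le_abs_self c
    linarith
  linarith

theorem evt_all (ε C : ℝ) (hε : 0 < ε) : ∀ᶠ x : ℝ in atTop, 1 ≤ x ∧ 612 ≤ x ^ (40 * ε) ∧
    (8 * x * x ^ (40 * ε)) ^ 2 ≤ Real.exp (x / 2) ∧ Real.log (2 * C) ≤ ε / 2 * Real.log x ∧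
    150 * (2 * x + 1) ≤ Real.exp (x / 20) ∧ 200 * (2 * x + 1) ≤ Real.exp (x / 4) ∧ 7 ≤ x ^ ε := by
  have h1 := evt_exp (2 + 80 * ε) (1 / 2) 64 (by norm_num)
  have h2 := evt_exp 1 (1 / 20) 450 (by norm_num)
  have h3 := evt_exp 1 (1 / 4) 600 (by norm_num)
  have h4 := (tendsto_rpow_atTop hε).eventually_ge_atTop 7
  have h5 := (tendsto_rpow_atTop (show 0 < 40 * ε by positivity)).eventually_ge_atTop 612
  have h6 := (Real.tendsto_log_atTop.const_mul_atTop (show 0 < ε / 2 by positivity)).eventually_ge_atTop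
    (Real.log (2 * C))
  filter_upwards [h1, h2, h3, h4, h5, h6, eventually_ge_atTop 1] with x g1 g2 g3 g4 g5 g6 g7
  have hx0 : 0 < x := by linarith
  rw [Real.rpow_one] at g2 g3
  refine ⟨g7, g5, ?_, g6, ?_, ?_, g4⟩
  · calc (8 * x * x ^ (40 * ε)) ^ 2 = 64 * x ^ (2 + 80 * ε) := by
          have e : x ^ (80 * ε) = (x ^ (40 * ε)) ^ 2 := by
            rw [← Real.rpow_natCast, ← Real.rpow_mul hx0.le]
            congr 1
            push_cast
            ring
          rw [Real.rpow_add hx0, e, Real.rpow_two]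
          ring
      _ ≤ Real.exp (1 / 2 * x) := g1
      _ = Real.exp (x / 2) := by congr 1; ring
  · calc 150 * (2 * x + 1) ≤ 450 * x := by linarith
      _ ≤ Real.exp (1 / 20 * x) := g2
      _ = Real.exp (x / 20) := by congr 1; ring
  · calc 200 * (2 * x + 1) ≤ 600 * x := by linarith
      _ ≤ Real.exp (1 / 4 * x) := g3
      _ = Real.exp (x / 4) := by congr 1; ring

theorem sum_shift (U : ℤ[X]) (k K M : ℕ) (hk : k ≤ K) (hU : U.natDegree ≤ 2 * M) :
    ∑ i ∈ Finset.range (2 * M + K + 1), |((X ^ k * U).coeff i : ℝ)| ≤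
      ∑ i ∈ Finset.range (2 * M + 1), |(U.coeff i : ℝ)| := by
  obtain ⟨l, hl⟩ : ∃ l, 2 * M + K + 1 = k + (2 * M + 1 + l) := ⟨K - k, by omega⟩
  rw [hl, Finset.sum_range_add]
  have h1 : ∑ i ∈ Finset.range k, |((X ^ k * U).coeff i : ℝ)| = 0 := by
    apply Finset.sum_eq_zero
    intro i hi
    rw [coeff_X_pow_mul', if_neg (by have := Finset.mem_range.1 hi; omega)]
    simp
  rw [h1, zero_add]
  have h2 : ∀ i, |((X ^ k * U).coeff (k + i) : ℝ)| = |(U.coeff i : ℝ)| := by
    intro i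
    rw [coeff_X_pow_mul', if_pos (by omega), Nat.add_sub_cancel_left]
  rw [Finset.sum_congr rfl fun i _ => h2 i, Finset.sum_range_add]
  have h3 : ∑ i ∈ Finset.range l, |(U.coeff (2 * M + 1 + i) : ℝ)| = 0 := by
    apply Finset.sum_eq_zero
    intro i _
    rw [coeff_eq_zero_of_natDegree_lt (by omega)]
    simp
  rw [h3, add_zero]

theorem exp_num : Real.exp (7 / 2) ≤ 332 / 10 ∧ (3 : ℝ) ≤ Real.exp (3 / 2) := by
  have h1 := Real.exp_one_lt_d9
  have h2 := Real.exp_one_gt_d9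
  constructor
  · have h3 : Real.exp (7 / 2) ^ 2 = Real.exp 1 ^ 7 := by
      rw [← Real.exp_nat_mul, ← Real.exp_nat_mul]
      norm_num
    have h4 : Real.exp 1 ^ 7 ≤ (2.7182818286 : ℝ) ^ 7 := pow_le_pow_left₀ (Real.exp_pos _).le h1.le 7
    have h5 : (2.7182818286 : ℝ) ^ 7 ≤ (332 / 10) ^ 2 := by norm_num
    refine (pow_le_pow_iff_left₀ (Real.exp_pos _).le (by norm_num) (two_ne_zero)).1 (by rw [h3]; exact h4.trans h5)
  · have h3 : Real.exp (3 / 2) ^ 2 = Real.exp 1 ^ 3 := by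
      rw [← Real.exp_nat_mul, ← Real.exp_nat_mul]
      norm_num
    have h4 : (2.7182818283 : ℝ) ^ 3 ≤ Real.exp 1 ^ 3 := pow_le_pow_left₀ (by norm_num) h2.le 3
    have h5 : (3 : ℝ) ^ 2 ≤ (2.7182818283 : ℝ) ^ 3 := by norm_num
    refine (pow_le_pow_iff_left₀ (by norm_num) (Real.exp_pos _).le (two_ne_zero)).1 (by rw [h3]; exact h5.trans h4)

/-- the numerical consequences of the count -/
theorem count_num (M d : ℕ) (h T : ℝ) (hM : 1 ≤ M) (hh : 611 ≤ h) (hT : 1 ≤ T) (hd : d ≤ M)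
    (hc : (h + 1) ^ M ≤ Real.exp (7 * M / 2) * (3 * (1 + h / T)) ^ (M - d)) :
    T ≤ 150 ∧ (h + 1) ^ d ≤ Real.exp (5 * M) := by
  obtain ⟨e1, e2⟩ := exp_num
  have hh0 : 0 < h := by linarith
  have hT0 : 0 < T := by linarith
  have hMp : (M : ℝ) ≠ 0 := by exact_mod_cast (by omega : M ≠ 0)
  constructor
  · by_contra hcon
    have hcon := not_le.1 hcon
    have h1 : h / T ≤ h / 150 := div_le_div_of_nonneg_left hh0.le (by norm_num) hcon.le
    have h2 : (3 * (1 + h / T)) ^ (M - d) ≤ (3 * (1 + h / 150)) ^ M := by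
      have h3 : 0 ≤ h / T := by positivity
      calc (3 * (1 + h / T)) ^ (M - d) ≤ (3 * (1 + h / 150)) ^ (M - d) :=
            pow_le_pow_left₀ (by positivity) (by linarith) _
        _ ≤ (3 * (1 + h / 150)) ^ M := by
            apply pow_le_pow_right₀ _ (Nat.sub_le M d)
            have : 0 ≤ h / 150 := by positivity
            linarith
    have h3 : Real.exp (7 * M / 2) = Real.exp (7 / 2) ^ M := by
      rw [← Real.exp_nat_mul]
      congr 1
      ring
    have h4 : (h + 1) ^ M ≤ (Real.exp (7 / 2) * (3 * (1 + h / 150))) ^ M := by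
      rw [mul_pow, ← h3]
      exact hc.trans (mul_le_mul_of_nonneg_left h2 (Real.exp_pos _).le)
    have h5 : h + 1 ≤ Real.exp (7 / 2) * (3 * (1 + h / 150)) :=
      (pow_le_pow_iff_left₀ (by positivity) (by positivity) (by omega)).1 h4
    have h6 : Real.exp (7 / 2) * (3 * (1 + h / 150)) ≤ 332 / 10 * (3 * (1 + h / 150)) :=
      mul_le_mul_of_nonneg_right e1 (by positivity)
    linarith
  · have h1 : h / T ≤ h := div_le_self hh0.le hT
    have h2 : (3 * (1 + h / T)) ^ (M - d) ≤ 3 ^ M * (h + 1) ^ (M - d) := by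
      rw [mul_pow]
      apply mul_le_mul
      · exact pow_le_pow_right₀ (by norm_num) (Nat.sub_le M d)
      · exact pow_le_pow_left₀ (by positivity) (by linarith) _
      · positivity
      · positivity
    have h3 : (3 : ℝ) ^ M ≤ Real.exp (3 * M / 2) := by
      have : Real.exp (3 * M / 2) = Real.exp (3 / 2) ^ M := by
        rw [← Real.exp_nat_mul]
        congr 1
        ring
      rw [this]
      exact pow_le_pow_left₀ (by norm_num) e2 M
    have h4 : (h + 1) ^ d * (h + 1) ^ (M - d) ≤ Real.exp (5 * M) * (h + 1) ^ (M - d) := by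
      rw [← pow_add, Nat.add_sub_cancel' hd]
      calc (h + 1) ^ M ≤ Real.exp (7 * M / 2) * (3 * (1 + h / T)) ^ (M - d) := hc
        _ ≤ Real.exp (7 * M / 2) * (3 ^ M * (h + 1) ^ (M - d)) :=
            mul_le_mul_of_nonneg_left h2 (Real.exp_pos _).le
        _ ≤ Real.exp (7 * M / 2) * (Real.exp (3 * M / 2) * (h + 1) ^ (M - d)) := by
            apply mul_le_mul_of_nonneg_left _ (Real.exp_pos _).le
            exact mul_le_mul_of_nonneg_right h3 (by positivity)
        _ = Real.exp (5 * M) * (h + 1) ^ (M - d) := by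
            rw [← mul_assoc, ← Real.exp_add]
            congr 2
            ring
    exact le_of_mul_le_mul_right h4 (by positivity)

/-- the loss from the value of the greatest common divisor -/
theorem loss_num (x ε C h : ℝ) (d : ℕ) (hx : 1 ≤ x) (hC : 1 ≤ C)
    (hh : x ^ (40 * ε) ≤ h + 1) (hd : (h + 1) ^ d ≤ Real.exp (5 * x))
    (hl : Real.log (2 * C) ≤ ε / 2 * Real.log x) :
    2 ^ d * (C * x ^ ε) ^ d ≤ Real.exp (x / 5) := by
  have hx0 : 0 < x := by linarith
  have hlx : 0 ≤ Real.log x := Real.log_nonneg hx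
  have hd0 : (0 : ℝ) ≤ d := Nat.cast_nonneg d
  have h1 : (x ^ (40 * ε)) ^ d ≤ Real.exp (5 * x) :=
    (pow_le_pow_left₀ (Real.rpow_nonneg hx0.le _) hh d).trans hd
  have h2 : (d : ℝ) * (40 * ε * Real.log x) ≤ 5 * x := by
    have := Real.log_le_log (by positivity) h1
    rw [Real.log_exp, Real.log_pow, Real.log_rpow hx0] at this
    exact this
  have h3 : 2 ^ d * (C * x ^ ε) ^ d = Real.exp (d * (Real.log (2 * C) + ε * Real.log x)) := by
    rw [Real.exp_nat_mul, Real.exp_add, Real.exp_log (by positivity), mul_comm ε, Real.exp_mul,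
      Real.exp_log hx0, ← mul_pow]
    congr 1
    ring
  rw [h3, Real.exp_le_exp]
  have h4 : (d : ℝ) * Real.log (2 * C) ≤ d * (ε / 2 * Real.log x) :=
    mul_le_mul_of_nonneg_left hl hd0
  nlinarith

/-- JOB SCALET -/
theorem scalet (hFac : StFacT) (hPig : StPigc) (hMult : StMult) (hGcd : StGcd)
    (hRound : StRoundT) (hRot : StRot) : StScaleT := by
  intro θ ε C hirr hε hC hgood
  obtain ⟨K, hK⟩ := hRot θ hirr
  obtain ⟨M₁, hM₁⟩ := eventually_atTop.1 (tendsto_natCast_atTop_atTop.eventually (evt_all ε C hε))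
  refine ⟨max M₁ 1, K, ?_⟩
  intro M hM r u hr1 hr2 hu
  obtain ⟨c1, c2, c3, c4, c5, c6, c7⟩ := hM₁ M ((le_max_left _ _).trans hM)
  have hM1 : 1 ≤ M := (le_max_right _ _).trans hM
  obtain ⟨z, hz⟩ : ∃ z, z = zz θ := ⟨_, rfl⟩
  rw [← hz] at hgood hK ⊢
  have hz1 : ‖z‖ = 1 := by rw [hz]; exact norm_zz θ
  obtain ⟨x, hx⟩ : ∃ x : ℝ, x = M := ⟨_, rfl⟩
  rw [← hx] at c1 c2 c3 c4 c5 c6 c7 hr1 hr2
  have hx0 : 0 < x := by linarith
  obtain ⟨H, hH⟩ : ∃ H : ℕ, H = ⌊x ^ (40 * ε)⌋₊ := ⟨_, rfl⟩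
  obtain ⟨h, hh⟩ : ∃ h : ℝ, h = H := ⟨_, rfl⟩
  have hh1 : h ≤ x ^ (40 * ε) := by
    rw [hh, hH]
    exact Nat.floor_le (Real.rpow_nonneg hx0.le _)
  have hh2 : x ^ (40 * ε) ≤ h + 1 := by
    rw [hh, hH]
    exact (Nat.lt_floor_add_one _).le
  have hh3 : 611 ≤ h := by linarith
  have hh0 : 0 < h := by linarith
  have hH1 : 1 ≤ H := by
    have : (1 : ℝ) ≤ H := by rw [← hh]; linarith
    exact_mod_cast this
  obtain ⟨t, ht⟩ : ∃ t : ℝ, t = Real.exp (-x) := ⟨_, rfl⟩
  have ht0 : 0 < t := by rw [ht]; exact Real.exp_pos _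
  have ht1 : t ≤ 1 := by rw [ht]; exact Real.exp_le_one_iff.2 (by linarith)
  obtain ⟨A, hA1, hA2⟩ := hPig z M H t hz1 hM1 hH1 ht0 ht1
  rw [← hh, ← hx] at hA2
  have hcell : (8 * x * h / t) ^ 2 ≤ Real.exp (5 * x / 2) := by
    have e1 : (8 * x * h / t) ^ 2 = (8 * x * h) ^ 2 * Real.exp (2 * x) := by
      rw [ht, div_pow, ← Real.exp_nat_mul, div_eq_mul_inv, ← Real.exp_neg]
      congr 2
      push_cast
      ring
    rw [e1]
    calc (8 * x * h) ^ 2 * Real.exp (2 * x) ≤ (8 * x * x ^ (40 * ε)) ^ 2 * Real.exp (2 * x) := by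
          gcongr
      _ ≤ Real.exp (x / 2) * Real.exp (2 * x) := by gcongr
      _ = Real.exp (5 * x / 2) := by
          rw [← Real.exp_add]
          congr 1
          ring
  -- a nonzero element
  have hne : ∃ P ∈ A, P ≠ 0 := by
    by_contra hcon
    push Not at hcon
    have h1 : A ⊆ {0} := fun P hP => Finset.mem_singleton.2 (hcon P hP)
    have h2 : (A.card : ℝ) ≤ 1 := by exact_mod_cast Finset.card_le_card h1
    have h3 : (h + 1) ^ M ≤ Real.exp (7 / 2) ^ M := by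
      calc (h + 1) ^ M ≤ (8 * x * h / t) ^ 2 * A.card := hA2
        _ ≤ Real.exp (5 * x / 2) * 1 := by
            apply mul_le_mul hcell h2 (Nat.cast_nonneg _) (Real.exp_pos _).le
        _ ≤ Real.exp (7 / 2) ^ M := by
            rw [mul_one, ← Real.exp_nat_mul, Real.exp_le_exp, ← hx]
            linarith
    have h4 : h + 1 ≤ Real.exp (7 / 2) :=
      (pow_le_pow_iff_left₀ (by positivity) (Real.exp_pos _).le (by omega)).1 h3
    have := exp_num.1
    linarith
  obtain ⟨P₀, hP₀, hP₀0⟩ := hne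
  obtain ⟨Γ, hΓ⟩ : ∃ Γ : Set ℤ[X], Γ = (A : Set ℤ[X]) := ⟨_, rfl⟩
  have hΓA : ∀ P ∈ Γ, P ∈ A := fun P hP => by rw [hΓ] at hP; exact hP
  obtain ⟨G, hG0, hGd, hGs⟩ := hGcd Γ M ⟨P₀, by rw [hΓ]; exact hP₀, hP₀0⟩
    (fun P hP => (hA1 P (hΓA P hP)).1.le)
  have hGdeg : G.natDegree ≤ M :=
    (natDegree_le_of_dvd (hGd P₀ (by rw [hΓ]; exact hP₀)) hP₀0).trans (hA1 P₀ hP₀).1.le
  have hcard := hMult G M H hG0 hGdeg hH1 A (fun P hP => ⟨hGd P (by rw [hΓ]; exact hP), by
    have := (hA1 P hP).1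
    exact lt_of_le_of_lt degree_le_natDegree (by exact_mod_cast this), (hA1 P hP).2.1⟩)
  rw [← hh] at hcard
  have hmain : (h + 1) ^ M ≤ Real.exp (7 * M / 2) * (3 * (1 + h / MM G)) ^ (M - G.natDegree) := by
    calc (h + 1) ^ M ≤ (8 * x * h / t) ^ 2 * A.card := hA2
      _ ≤ Real.exp (5 * x / 2) * (Real.exp M * (3 * (1 + h / MM G)) ^ (M - G.natDegree)) := by
          apply mul_le_mul hcell hcard (Nat.cast_nonneg _) (Real.exp_pos _).le
      _ = Real.exp (7 * M / 2) * (3 * (1 + h / MM G)) ^ (M - G.natDegree) := by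
          rw [← mul_assoc, ← Real.exp_add, ← hx]
          congr 2
          ring
  obtain ⟨hT, hd⟩ := count_num M G.natDegree h (MM G) hM1 hh3 (one_le_MM hG0) hGdeg hmain
  rw [← hx] at hd
  have hloss := loss_num x ε C h G.natDegree c1 hC hh2 hd c4
  have hval := hFac z 150 ε C hε hC hgood M G hM1 hG0 hGdeg hT
  rw [← hx] at hval
  obtain ⟨g, hg⟩ : ∃ g : ℝ, g = ‖ev G z‖ := ⟨_, rfl⟩
  rw [← hg] at hval
  have hYp : 0 < (C * x ^ ε) ^ G.natDegree := by
    have := Real.rpow_pos_of_pos hx0 ε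
    positivity
  have hg0 : 0 < g := by
    by_contra hcon
    have : (C * x ^ ε) ^ G.natDegree * g ≤ 0 :=
      mul_nonpos_of_nonneg_of_nonpos hYp.le (not_lt.1 hcon)
    linarith
  have hginv : 1 / g ≤ (C * x ^ ε) ^ G.natDegree := by
    rw [div_le_iff₀ hg0]
    exact hval
  have hr0 : 0 < r := lt_of_lt_of_le (Real.exp_pos _) hr1
  obtain ⟨s, hs⟩ : ∃ s : ℝ, s = r / g := ⟨_, rfl⟩
  have hs0 : 0 < s := by rw [hs]; positivity
  -- the coefficients of s * G
  have hsc : |s| * (∑ i ∈ Finset.range (2 * M + 1), |(G.coeff i : ℝ)|) ≤ 1 := by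
    rw [abs_of_pos hs0]
    have h1 : ∑ i ∈ Finset.range (2 * M + 1), |(G.coeff i : ℝ)| ≤
        (2 * x + 1) * (2 ^ G.natDegree * 150) := by
      calc ∑ i ∈ Finset.range (2 * M + 1), |(G.coeff i : ℝ)|
          ≤ ∑ i ∈ Finset.range (2 * M + 1), (2 : ℝ) ^ G.natDegree * 150 := by
            refine Finset.sum_le_sum fun i _ => (coeff_le G i).trans ?_
            exact mul_le_mul_of_nonneg_left hT (by positivity)
        _ = (2 * x + 1) * (2 ^ G.natDegree * 150) := by
            rw [Finset.sum_const, Finset.card_range, nsmul_eq_mul, hx]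
            push_cast
            ring
    have h2 : s ≤ Real.exp (-(x / 4)) * (C * x ^ ε) ^ G.natDegree := by
      rw [hs, div_eq_mul_one_div]
      exact mul_le_mul hr2 hginv (by positivity) (Real.exp_pos _).le
    calc s * (∑ i ∈ Finset.range (2 * M + 1), |(G.coeff i : ℝ)|)
        ≤ (Real.exp (-(x / 4)) * (C * x ^ ε) ^ G.natDegree) *
          ((2 * x + 1) * (2 ^ G.natDegree * 150)) := by
          apply mul_le_mul h2 h1 (Finset.sum_nonneg fun i _ => abs_nonneg _)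
          positivity
      _ = (2 ^ G.natDegree * (C * x ^ ε) ^ G.natDegree) * Real.exp (-(x / 4)) *
          (150 * (2 * x + 1)) := by ring
      _ ≤ Real.exp (x / 5) * Real.exp (-(x / 4)) * Real.exp (x / 20) := by
          have : 0 < 150 * (2 * x + 1) := by positivity
          gcongr
      _ = 1 := by
          rw [← Real.exp_add, ← Real.exp_add, ← Real.exp_zero]
          congr 1
          ring
  obtain ⟨U, hU1, hU2, hU3⟩ := hRound z Γ M h t G s hz1 hh0.le ht0.le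
    (fun P hP => ⟨(hA1 P (hΓA P hP)).1.le, fun i => by
      have h1 := (hA1 P (hΓA P hP)).2.1 i
      rw [hh]
      exact_mod_cast h1, (hA1 P (hΓA P hP)).2.2⟩) hGs
  -- the rotation
  obtain ⟨v, hv⟩ : ∃ v : ℂ, v = u * (g : ℂ) / ev G z := ⟨_, rfl⟩
  have hGz : ev G z ≠ 0 := by
    intro h0
    rw [hg, h0, norm_zero] at hg0
    exact lt_irrefl _ hg0
  have hv1 : ‖v‖ = 1 := by
    rw [hv, norm_div, norm_mul, hu, one_mul, Complex.norm_real, ← hg, Real.norm_of_nonneg hg0.le]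
    exact div_self hg0.ne'
  obtain ⟨k, hk, hkv⟩ := hK v hv1
  refine ⟨X ^ k * U, ?_, ?_, ?_⟩
  · refine natDegree_mul_le.trans ?_
    rw [natDegree_X_pow]
    omega
  · refine (sum_shift U k K M hk hU1).trans (hU2.trans ?_)
    rw [← hx]
    have h1 : Real.sqrt (x + 1) ≤ 2 * x ^ (1 / 2 : ℝ) := by
      rw [← Real.sqrt_eq_rpow, show (2 : ℝ) * Real.sqrt x = Real.sqrt (4 * x) by
        rw [Real.sqrt_mul (by norm_num), show (4 : ℝ) = 2 ^ 2 by norm_num,
          Real.sqrt_sq (by norm_num)]]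
      exact Real.sqrt_le_sqrt (by linarith)
    have h2 : 1 ≤ x ^ (3 / 2 + 40 * ε) := Real.one_le_rpow c1 (by positivity)
    calc |s| * (∑ i ∈ Finset.range (2 * M + 1), |(G.coeff i : ℝ)|) + (2 * x + 1) * Real.sqrt (x + 1) * h
        ≤ 1 + (3 * x) * (2 * x ^ (1 / 2 : ℝ)) * x ^ (40 * ε) := by
          have h3 : 2 * x + 1 ≤ 3 * x := by linarith
          have h4 := Real.rpow_pos_of_pos hx0 (1 / 2)
          have h5 := Real.rpow_pos_of_pos hx0 (40 * ε)
          have h6 : (2 * x + 1) * Real.sqrt (x + 1) * h ≤ (3 * x) * (2 * x ^ (1 / 2 : ℝ)) * x ^ (40 * ε) := by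
            gcongr
          linarith
      _ = 1 + 6 * x ^ (3 / 2 + 40 * ε) := by
          have e1 : x ^ (3 / 2 + 40 * ε) = x * x ^ (1 / 2 : ℝ) * x ^ (40 * ε) := by
            rw [Real.rpow_add hx0]
            congr 1
            rw [show (3 / 2 : ℝ) = 1 + 1 / 2 by norm_num, Real.rpow_add hx0, Real.rpow_one]
          rw [e1]
          ring
      _ ≤ x ^ ε * x ^ (3 / 2 + 40 * ε) := by nlinarith
      _ = x ^ (3 / 2 + 41 * ε) := by
          rw [← Real.rpow_add hx0]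
          congr 1
          ring
  · rw [ev_X_pow_mul]
    have e1 : z ^ k * ev U z - r * u = z ^ k * (ev U z - s * ev G z) + (z ^ k - v) * (s * ev G z) := by
      have e2 : v * (s * ev G z) = r * u := by
        rw [hv, hs]
        push_cast
        have hgc : (g : ℂ) ≠ 0 := by exact_mod_cast hg0.ne'
        field_simp
      rw [← e2]
      ring
    rw [e1]
    refine (norm_add_le _ _).trans ?_
    have h5 : ‖z ^ k * (ev U z - s * ev G z)‖ ≤ r / 200 := by
      rw [norm_mul, norm_pow, hz1, one_pow, one_mul]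
      refine hU3.trans ?_
      rw [← hx, ht]
      have e7 : Real.exp (-x) = Real.exp (-(3 * x / 4)) * Real.exp (-(x / 4)) := by
        rw [← Real.exp_add]
        congr 1
        ring
      have h8 : 200 * (2 * x + 1) * Real.exp (-(x / 4)) ≤ 1 := by
        rw [Real.exp_neg, ← div_eq_mul_inv, div_le_one (Real.exp_pos _)]
        exact c6
      have hp := Real.exp_pos (-(3 * x / 4))
      rw [e7]
      calc (2 * x + 1) * (Real.exp (-(3 * x / 4)) * Real.exp (-(x / 4)))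
          = Real.exp (-(3 * x / 4)) * (200 * (2 * x + 1) * Real.exp (-(x / 4))) / 200 := by ring
        _ ≤ Real.exp (-(3 * x / 4)) * 1 / 200 := by
            have := mul_le_mul_of_nonneg_left h8 hp.le
            linarith
        _ ≤ r / 200 := by linarith
    have h6 : ‖(z ^ k - v) * (s * ev G z)‖ ≤ r / 200 := by
      rw [norm_mul, norm_mul, ← hg, Complex.norm_real, Real.norm_of_nonneg hs0.le, hs,
        div_mul_cancel₀ _ hg0.ne']
      calc ‖z ^ k - v‖ * r ≤ 1 / 200 * r := mul_le_mul_of_nonneg_right hkv hr0.le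
        _ = r / 200 := by ring
    linarith

end Pool.Agent.K7.H54.DP
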