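import Pool.Agent.K7.H54.DP.Scale0

/-!
# Project DP: the upper bound for almost every `θ`
-/

set_option autoImplicit false

namespace Pool.Agent.K7.H54.DP

open Polynomial MeasureTheory

/-- the polynomial with the coefficients `c 0, ..., c D` -/
noncomputable def poly (D : ℕ) (c : ℕ → ℤ) : ℤ[X] := ∑ j ∈ Finset.range (D + 1), C (c j) * X ^ j

theorem ev_poly (θ : ℝ) (D : ℕ) (c : ℕ → ℤ) : ev (poly D c) (zz θ) = val θ D c := by
  unfold ev poly val
  simp [Polynomial.eval_finset_sum, Polynomial.map_sum]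

theorem coeff_poly (D : ℕ) (c : ℕ → ℤ) (i : ℕ) :
    (poly D c).coeff i = if i < D + 1 then c i else 0 := by
  unfold poly
  rw [finset_sum_coeff]
  simp only [coeff_C_mul, coeff_X_pow, mul_ite, mul_one, mul_zero]
  rw [Finset.sum_ite_eq (Finset.range (D + 1)) i c]
  simp [Finset.mem_range]

theorem natDegree_poly (D : ℕ) (c : ℕ → ℤ) : (poly D c).natDegree ≤ D := by
  rw [natDegree_le_iff_coeff_eq_zero]
  intro i hi
  rw [coeff_poly, if_neg (by omega)]

theorem weight_bounds {D n : ℕ} {c : ℕ → ℤ} (h : weight D c ≤ n) :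
    D + 1 ≤ n ∧ ∀ j ≤ D, |c j| ≤ n := by
  unfold weight at h
  constructor
  · have h1 : (D : ℤ) + 1 ≤ ∑ j ∈ Finset.range (D + 1), (1 + |c j|) := by
      calc (D : ℤ) + 1 = ∑ j ∈ Finset.range (D + 1), (1 : ℤ) := by simp
        _ ≤ _ := Finset.sum_le_sum fun j _ => by have := abs_nonneg (c j); omega
    omega
  · intro j hj
    have h1 : 1 + |c j| ≤ ∑ j ∈ Finset.range (D + 1), (1 + |c j|) :=
      Finset.single_le_sum (f := fun j => 1 + |c j|) (fun i _ => by
        have := abs_nonneg (c i)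
        show 0 ≤ 1 + |c i|
        omega) (Finset.mem_range.2 (by omega))
    omega

/-- a lower bound for the nonzero values -/
theorem val_lower (hFac : StFac) (θ : ℝ) (n D : ℕ) (c : ℕ → ℤ) (hn : 1 ≤ n) (hG : Good (zz θ) n)
    (hw : weight D c ≤ n) (h0 : val θ D c ≠ 0) :
    -(60 * n * Real.log n) ≤ Real.log ‖val θ D c‖ := by
  obtain ⟨hD, hc⟩ := weight_bounds hw
  have hn1 : (1 : ℝ) ≤ n := by exact_mod_cast hn
  have hn0 : (0 : ℝ) < n := by linarith
  have hev := ev_poly θ D c
  have hP0 : poly D c ≠ 0 := by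
    intro h
    rw [h] at hev
    apply h0
    rw [← hev]
    unfold ev
    simp
  have hdeg := natDegree_poly D c
  have hM : MM (poly D c) ≤ (n : ℝ) ^ 3 := by
    refine (MM_le (poly D c) (D + 1) n (by omega) fun i => ?_).trans ?_
    · rw [coeff_poly]
      split_ifs with hi
      · have := hc i (by omega)
        exact_mod_cast this
      · simp
    · have h1 : ((D + 1 : ℕ) : ℝ) ≤ n := by exact_mod_cast hD
      calc ((D + 1 : ℕ) : ℝ) * n ≤ n * n := mul_le_mul_of_nonneg_right h1 hn0.le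
        _ = (n : ℝ) ^ 2 := by ring
        _ ≤ (n : ℝ) ^ 3 := pow_le_pow_right₀ hn1 (by norm_num)
  have h1 := hFac (zz θ) n hn hG (poly D c) hP0 (by omega) hM
  rw [hev] at h1
  have hv : 0 < ‖val θ D c‖ := norm_pos_iff.2 h0
  have h2 : 1 ≤ (n : ℝ) ^ (60 * n) * ‖val θ D c‖ := by
    refine h1.trans (mul_le_mul_of_nonneg_right ?_ hv.le)
    exact pow_le_pow_right₀ hn1 (by omega)
  have h3 := Real.log_le_log (by norm_num) h2
  rw [Real.log_one, Real.log_mul (by positivity) hv.ne', Real.log_pow] at h3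
  push_cast at h3
  linarith

/-- the upper bound -/
theorem upper (hFac : StFac) (θ : ℝ) (n : ℕ) (hn : 2 ≤ n) (hG : Good (zz θ) n) :
    RDPV n θ ≤ (Real.exp (61 * n * Real.log n) : EReal) := by
  unfold RDPV
  apply sSup_le
  rintro x ⟨R, hR, hD, rfl⟩
  rw [EReal.coe_le_coe_iff]
  by_contra hcon
  have hcon := not_le.1 hcon
  have hn2 : (2 : ℝ) ≤ n := by exact_mod_cast hn
  have hlog : 1 / 2 ≤ Real.log n := by
    have h1 := Real.log_two_gt_d9
    have h2 : Real.log 2 ≤ Real.log n := Real.log_le_log (by norm_num) hn2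
    linarith
  have h1 : 61 * n * Real.log n < Real.log R := by
    have := Real.log_lt_log (Real.exp_pos _) hcon
    rwa [Real.log_exp] at this
  have h2 : 0 ≤ 61 * n * Real.log n := by positivity
  obtain ⟨s, ⟨D, c, hw, h0, rfl⟩, hs⟩ := hD ⟨-Real.log R, 0⟩ le_rfl (by
    show -Real.log R ≤ 0
    linarith) le_rfl (by
    show (0 : ℝ) ≤ 2 * Real.pi
    positivity)
  have h3 := val_lower hFac θ n D c (by omega) hG hw h0
  have h4 := (Complex.abs_re_le_norm _).trans hs
  rw [Complex.sub_re] at h4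
  have h5 : (lg (val θ D c)).re = Real.log ‖val θ D c‖ := rfl
  rw [h5] at h4
  have h6 := neg_abs_le (-Real.log R - Real.log ‖val θ D c‖)
  have h7 : (1 : ℝ) ≤ n * Real.log n := by nlinarith
  simp only at h4 h6
  nlinarith

end Pool.Agent.K7.H54.DP
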