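import Pool.Agent.K7.H54.DP.Scale0

/-!
# Project DP: all scales, polynomials of degree `3 N` with coefficients of polynomial size
-/

set_option autoImplicit false

namespace Pool.Agent.K7.H54.DP

open Polynomial MeasureTheory

theorem exists_scale (N₁ : ℕ) (h1 : 20000 ≤ N₁) (ρ : ℝ)
    (h2 : (N₁ : ℝ) * Real.log N₁ / 20 ≤ ρ) (N : ℕ) (h3 : ρ ≤ (N : ℝ) * Real.log N / 10)
    (hN : N₁ ≤ N) : ∃ N' : ℕ, N₁ ≤ N' ∧ N' ≤ N ∧ (N' : ℝ) * Real.log N' / 20 ≤ ρ ∧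
      ρ ≤ (N' : ℝ) * Real.log N' / 10 := by
  classical
  have hex : ∃ N' : ℕ, N₁ ≤ N' ∧ ρ ≤ (N' : ℝ) * Real.log N' / 10 := ⟨N, hN, h3⟩
  obtain ⟨hs1, hs2⟩ := Nat.find_spec hex
  obtain ⟨n, hn⟩ : ∃ n, n = Nat.find hex := ⟨_, rfl⟩
  rw [← hn] at hs1 hs2
  have hle : n ≤ N := by rw [hn]; exact Nat.find_min' hex ⟨hN, h3⟩
  refine ⟨n, hs1, hle, ?_, hs2⟩
  rcases Nat.eq_or_lt_of_le hs1 with he | hlt
  · rw [← he]
    exact h2
  · have hmin := Nat.find_min hex (m := n - 1) (by rw [← hn]; omega)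
    have h4 : ¬ ρ ≤ ((n - 1 : ℕ) : ℝ) * Real.log ((n - 1 : ℕ) : ℝ) / 10 := fun h =>
      hmin ⟨by omega, h⟩
    have h5 := not_le.1 h4
    rw [Nat.cast_sub (by omega), Nat.cast_one] at h5
    obtain ⟨x, hx⟩ : ∃ x : ℝ, x = n := ⟨_, rfl⟩
    have hx1 : (20000 : ℝ) ≤ x := by
      rw [hx]
      exact_mod_cast (by omega : 20000 ≤ n)
    rw [← hx] at h5 ⊢
    have h6 : Real.log x ≤ 4 / 3 * Real.log (x - 1) := by
      have h7 : x ^ 3 ≤ (x - 1) ^ 4 := by nlinarith [sq_nonneg (x * x), sq_nonneg x, mul_pos (show (0:ℝ) < x by linarith) (show (0:ℝ) < x by linarith), pow_pos (show (0:ℝ) < x by linarith) 3]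
      have h8 := Real.log_le_log (by positivity) h7
      rw [Real.log_pow, Real.log_pow] at h8
      push_cast at h8
      linarith
    have h9 : 0 ≤ Real.log (x - 1) := Real.log_nonneg (by linarith)
    nlinarith

/-- all scales with coefficients of polynomial size -/
def StWide : Prop := ∀ θ : ℝ, (∀ k : ℕ, 1 ≤ k → zz θ ^ k ≠ 1) →
  (∃ N₀ : ℕ, ∀ N : ℕ, N₀ ≤ N → Good (zz θ) N) → ∃ N₂ : ℕ, ∀ N : ℕ, N₂ ≤ N → ∀ w : ℂ,
    (N : ℝ) ^ (-(N : ℝ) / 10) ≤ ‖w‖ → ‖w‖ ≤ 1 →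
    ∃ U : ℤ[X], U.natDegree ≤ 3 * N ∧ (∀ i, |(U.coeff i : ℝ)| ≤ (N : ℝ) ^ (A₀ + 3)) ∧
      ‖ev U (zz θ) - w‖ ≤ ‖w‖ / 50

theorem rpow_eq {x : ℝ} (hx : 0 < x) (a : ℝ) : x ^ (-x / a) = Real.exp (-(x * Real.log x / a)) := by
  rw [Real.rpow_def_of_pos hx]
  congr 1
  ring

theorem wide (hS : StScale) : StWide := by
  intro θ hirr hgood
  obtain ⟨N₀, K, hNK⟩ := hS θ hirr hgood
  obtain ⟨N₁, hN₁⟩ : ∃ N₁, N₁ = max N₀ 20000 := ⟨_, rfl⟩
  have h10 : N₀ ≤ N₁ := by rw [hN₁]; exact le_max_left _ _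
  have h11 : 20000 ≤ N₁ := by rw [hN₁]; exact le_max_right _ _
  obtain ⟨x₁, hx₁⟩ : ∃ x₁ : ℝ, x₁ = N₁ := ⟨_, rfl⟩
  have hx1 : (20000 : ℝ) ≤ x₁ := by rw [hx₁]; exact_mod_cast h11
  obtain ⟨m₀, hm₀⟩ := exists_nat_ge (2 * Real.exp (x₁ * Real.log x₁ / 20))
  refine ⟨N₁ + K + m₀ + N₁ ^ (A₀ + 2), ?_⟩
  intro N hN w hw1 hw2
  have hNN₁ : N₁ ≤ N := le_trans (by omega) hN
  have hNK' : K ≤ N := le_trans (by omega) hN
  obtain ⟨x, hx⟩ : ∃ x : ℝ, x = N := ⟨_, rfl⟩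
  have hxx : x₁ ≤ x := by rw [hx, hx₁]; exact_mod_cast hNN₁
  have hx0 : 0 < x := by linarith
  have hr0 : 0 < ‖w‖ := lt_of_lt_of_le (Real.rpow_pos_of_pos (by rw [← hx]; exact hx0) _) hw1
  obtain ⟨r, hr⟩ : ∃ r : ℝ, r = ‖w‖ := ⟨_, rfl⟩
  rw [← hr] at hw1 hw2 hr0 ⊢
  obtain ⟨u, hu⟩ : ∃ u : ℂ, u = w / r := ⟨_, rfl⟩
  have hrc : (r : ℂ) ≠ 0 := by exact_mod_cast hr0.ne'
  have hwu : w = r * u := by rw [hu]; field_simp
  have hu1 : ‖u‖ = 1 := by
    rw [hu, norm_div, ← hr, Complex.norm_real, Real.norm_of_nonneg hr0.le]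
    exact div_self hr0.ne'
  rcases le_total (Real.exp (-(x₁ * Real.log x₁ / 20))) r with hbig | hsmall
  · -- near one
    obtain ⟨r₀, hr₀⟩ : ∃ r₀ : ℝ, r₀ = Real.exp (-(x₁ * Real.log x₁ / 20)) := ⟨_, rfl⟩
    rw [← hr₀] at hbig
    have hr₀0 : 0 < r₀ := by rw [hr₀]; exact Real.exp_pos _
    obtain ⟨m, hm⟩ : ∃ m : ℕ, m = ⌈r / r₀⌉₊ := ⟨_, rfl⟩
    have hq1 : 1 ≤ r / r₀ := by rw [le_div_iff₀ hr₀0]; linarith
    have hm1 : r / r₀ ≤ m := by rw [hm]; exact Nat.le_ceil _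
    have hm2 : (m : ℝ) ≤ 2 * (r / r₀) := by
      have := (Nat.ceil_lt_add_one (show 0 ≤ r / r₀ by linarith)).le
      rw [← hm] at this
      linarith
    have hmp : 0 < (m : ℝ) := by linarith
    have hlog : 20 * Real.log 2 ≤ x₁ * Real.log x₁ := by
      have h1 : Real.log 2 ≤ Real.log x₁ := Real.log_le_log (by norm_num) (by linarith)
      have h2 : 0 < Real.log 2 := Real.log_pos (by norm_num)
      nlinarith
    obtain ⟨U, hU1, hU2, hU3⟩ := hNK N₁ h10 (r / m) u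
      (by
        rw [← hx₁, rpow_eq (by linarith)]
        rw [le_div_iff₀ hmp]
        calc Real.exp (-(x₁ * Real.log x₁ / 10)) * m
            ≤ Real.exp (-(x₁ * Real.log x₁ / 10)) * (2 * (r / r₀)) :=
              mul_le_mul_of_nonneg_left hm2 (Real.exp_pos _).le
          _ = (Real.exp (-(x₁ * Real.log x₁ / 10)) * 2 / r₀) * r := by ring
          _ ≤ 1 * r := by
              apply mul_le_mul_of_nonneg_right _ hr0.le
              rw [div_le_one hr₀0, hr₀, ← Real.exp_log (show (0 : ℝ) < 2 by norm_num),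
                ← Real.exp_add, Real.exp_le_exp]
              linarith
          _ = r := one_mul r)
      (by
        rw [← hx₁, rpow_eq (by linarith), ← hr₀, div_le_iff₀ hmp]
        rw [div_le_iff₀ hr₀0] at hm1
        linarith) hu1
    refine ⟨(C (m : ℤ)) * U, ?_, ?_, ?_⟩
    · refine (natDegree_C_mul_le _ _).trans (hU1.trans ?_)
      omega
    · intro i
      rw [coeff_C_mul]
      push_cast
      rw [abs_mul, Nat.abs_cast]
      have h1 : (m : ℝ) ≤ x := by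
        have h2 : r / r₀ ≤ Real.exp (x₁ * Real.log x₁ / 20) := by
          rw [div_le_iff₀ hr₀0, hr₀, ← Real.exp_add]
          simpa using hw2
        have h3 : (m₀ : ℝ) ≤ x := by
          rw [hx]
          exact_mod_cast (show m₀ ≤ N from le_trans (by omega) hN)
        linarith
      have h4 : |(U.coeff i : ℝ)| ≤ x ^ (A₀ + 2) := by
        refine (hU2 i).trans ?_
        rw [← hx₁]
        exact pow_le_pow_left₀ (by linarith) hxx _
      rw [← hx, show A₀ + 3 = (A₀ + 2) + 1 from rfl, pow_succ, mul_comm (x ^ (A₀ + 2))]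
      exact mul_le_mul h1 h4 (abs_nonneg _) hx0.le
    · have e1 : ev (C (m : ℤ) * U) (zz θ) = m * ev U (zz θ) := by
        rw [ev_mul]
        congr 1
        unfold ev
        simp
      have e2 : ev (C (m : ℤ) * U) (zz θ) - w =
          m * (ev U (zz θ) - ((r / m : ℝ) : ℂ) * u) := by
        rw [e1, hwu]
        push_cast
        have : (m : ℂ) ≠ 0 := by exact_mod_cast hmp.ne'
        field_simp
      rw [e2, norm_mul, Complex.norm_natCast]
      calc (m : ℝ) * ‖ev U (zz θ) - ((r / m : ℝ) : ℂ) * u‖ ≤ m * (r / m / 50) :=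
            mul_le_mul_of_nonneg_left hU3 hmp.le
        _ = r / 50 := by field_simp
  · -- small values
    have hρ1 : (N₁ : ℝ) * Real.log N₁ / 20 ≤ -Real.log r := by
      have := Real.log_le_log hr0 hsmall
      rw [Real.log_exp] at this
      rw [← hx₁]
      linarith
    have hρ2 : -Real.log r ≤ (N : ℝ) * Real.log N / 10 := by
      rw [← hx, rpow_eq hx0] at hw1
      have := Real.log_le_log (Real.exp_pos _) hw1
      rw [Real.log_exp] at this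
      rw [← hx]
      linarith
    obtain ⟨n, hn1, hn2, hn3, hn4⟩ := exists_scale N₁ h11 _ hρ1 N hρ2 hNN₁
    have hn0 : (0 : ℝ) < n := by
      have : 0 < n := by omega
      exact_mod_cast this
    obtain ⟨U, hU1, hU2, hU3⟩ := hNK n (by omega) r u
      (by
        rw [rpow_eq hn0, ← Real.exp_log hr0, Real.exp_le_exp]
        linarith)
      (by
        rw [rpow_eq hn0, ← Real.exp_log hr0, Real.exp_le_exp]
        linarith) hu1
    refine ⟨U, by omega, fun i => (hU2 i).trans ?_, ?_⟩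
    · have h1 : (n : ℝ) ≤ N := by exact_mod_cast hn2
      have h2 : (1 : ℝ) ≤ N := by rw [← hx]; linarith
      calc (n : ℝ) ^ (A₀ + 2) ≤ (N : ℝ) ^ (A₀ + 2) := pow_le_pow_left₀ hn0.le h1 _
        _ ≤ (N : ℝ) ^ (A₀ + 3) := pow_le_pow_right₀ h2 (by omega)
    · rw [hwu]
      exact hU3

end Pool.Agent.K7.H54.DP
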