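import Pool.Agent.K7.H54.DP.UB

/-!
# Project DP: the zero-one law
-/

set_option autoImplicit false

namespace Pool.Agent.K7.H54.DP

open Polynomial MeasureTheory Set

/-- a periodic set with the property `2 θ ∈ E → θ ∈ E` has measure zero or full measure -/
theorem zero_one {E : Set ℝ} (hE : MeasurableSet E)
    (hper : ∀ (θ : ℝ) (k : ℤ), θ ∈ E → θ - k * (2 * Real.pi) ∈ E)
    (h2 : ∀ θ : ℝ, 2 * θ ∈ E → θ ∈ E) :
    (∀ᵐ θ ∂(volume.restrict (Ico (0 : ℝ) (2 * Real.pi))), θ ∈ E) ∨
      (∀ᵐ θ ∂(volume.restrict (Ico (0 : ℝ) (2 * Real.pi))), θ ∉ E) := by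
  have : Fact (0 < 2 * Real.pi) := ⟨Real.two_pi_pos⟩
  obtain ⟨F, hF⟩ : ∃ F : Set (AddCircle (2 * Real.pi)), F =
    {y | ((AddCircle.measurableEquivIco (2 * Real.pi) 0 y : Ico (0 : ℝ) (0 + 2 * Real.pi)) : ℝ) ∈ E} :=
    ⟨_, rfl⟩
  have hFm : MeasurableSet F := by
    rw [hF]
    exact (measurable_subtype_coe.comp (AddCircle.measurableEquivIco (2 * Real.pi) 0).measurable) hE
  have hmem : ∀ θ : ℝ, (θ : AddCircle (2 * Real.pi)) ∈ F ↔ θ ∈ E := by
    intro θ
    obtain ⟨x, hx⟩ : ∃ x : Ico (0 : ℝ) (0 + 2 * Real.pi),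
      x = AddCircle.measurableEquivIco (2 * Real.pi) 0 (θ : AddCircle (2 * Real.pi)) := ⟨_, rfl⟩
    have h1 : ((x : ℝ) : AddCircle (2 * Real.pi)) = θ := by
      have := (AddCircle.measurableEquivIco (2 * Real.pi) 0).symm_apply_apply
        (θ : AddCircle (2 * Real.pi))
      rw [← hx] at this
      exact this
    have h3 : ∃ k : ℤ, θ = x + k * (2 * Real.pi) := by
      rw [← sub_eq_zero, ← QuotientAddGroup.mk_sub, QuotientAddGroup.eq_zero_iff] at h1
      obtain ⟨k, hk⟩ := AddSubgroup.mem_zmultiples_iff.1 h1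
      refine ⟨-k, ?_⟩
      rw [zsmul_eq_mul] at hk
      push_cast
      linarith
    obtain ⟨k, hk⟩ := h3
    have h4 : (θ : AddCircle (2 * Real.pi)) ∈ F ↔ (x : ℝ) ∈ E := by
      rw [hF, hx]
      rfl
    rw [h4]
    constructor
    · intro h
      have := hper x (-k) h
      rw [hk]
      convert this using 1
      push_cast
      ring
    · intro h
      have := hper θ k h
      convert this using 1
      rw [hk]
      ring
  have hsub : (fun y : AddCircle (2 * Real.pi) => 2 • y) ⁻¹' F ⊆ F := by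
    intro y hy
    obtain ⟨θ, rfl⟩ := QuotientAddGroup.mk_surjective y
    have h1 : (2 : ℕ) • ((θ : ℝ) : AddCircle (2 * Real.pi)) = ((2 * θ : ℝ) : AddCircle (2 * Real.pi)) := by
      have h0 : (2 * θ : ℝ) = θ + θ := by ring
      rw [h0, two_nsmul]
      rfl
    have h3 : ((2 * θ : ℝ) : AddCircle (2 * Real.pi)) ∈ F := by
      rw [← h1]
      exact hy
    exact (hmem θ).2 (h2 θ ((hmem _).1 h3))
  have herg := AddCircle.ergodic_nsmul (T := 2 * Real.pi) (n := 2) (by norm_num)
  have hq := (AddCircle.measurePreserving_mk (2 * Real.pi) 0).quasiMeasurePreserving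
  have hres : (volume.restrict (Ioc (0 : ℝ) (0 + 2 * Real.pi))) =
      volume.restrict (Ico (0 : ℝ) (2 * Real.pi)) := by
    rw [zero_add]
    exact (Measure.restrict_congr_set Ico_ae_eq_Ioc).symm
  rcases herg.ae_empty_or_univ_of_preimage_ae_le hFm.nullMeasurableSet
    (LE.le.eventuallyLE hsub) with h | h
  · right
    have h1 : ∀ᵐ y ∂(volume : Measure (AddCircle (2 * Real.pi))), y ∉ F := by
      filter_upwards [h] with y hy hyF
      have h5 : F y := hyF
      rw [hy] at h5
      exact h5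
    have h3 := hq.ae h1
    rw [hres] at h3
    filter_upwards [h3] with θ hθ hE'
    exact hθ ((hmem θ).2 hE')
  · left
    have h1 : ∀ᵐ y ∂(volume : Measure (AddCircle (2 * Real.pi))), y ∈ F := by
      filter_upwards [h] with y hy
      have h5 : F y := by
        rw [hy]
        exact mem_univ y
      exact h5
    have h3 := hq.ae h1
    rw [hres] at h3
    filter_upwards [h3] with θ hθ
    exact (hmem θ).1 hθ

end Pool.Agent.K7.H54.DP
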