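import Pool.Agent.K7.H54.DP.ZO

/-!
# Project DP: the zero-one law, measurability and the doubling map
-/

set_option autoImplicit false

namespace Pool.Agent.K7.H54.DP

open Polynomial MeasureTheory Set Filter

/-! ### The doubling map -/

/-- the coefficients of `P (X ^ 2)` -/
def dbl (c : ℕ → ℤ) (j : ℕ) : ℤ := if j % 2 = 0 then c (j / 2) else 0

theorem dbl_even (c : ℕ → ℤ) (i : ℕ) : dbl c (2 * i) = c i := by
  unfold dbl
  rw [if_pos (by omega), Nat.mul_div_cancel_left _ (by norm_num)]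

theorem dbl_odd (c : ℕ → ℤ) (i : ℕ) : dbl c (2 * i + 1) = 0 := by
  unfold dbl
  rw [if_neg (by omega)]

theorem zz_two (θ : ℝ) : zz (2 * θ) = zz θ ^ 2 := by
  unfold zz
  rw [← Complex.exp_nat_mul]
  congr 1
  push_cast
  ring

theorem val_dbl (θ : ℝ) (D : ℕ) (c : ℕ → ℤ) : val θ (2 * D) (dbl c) = val (2 * θ) D c := by
  unfold val
  rw [zz_two]
  induction D with
  | zero =>
    have := dbl_even c 0
    simp only [Nat.mul_zero] at this
    simp [this]
  | succ D ih =>
    rw [show 2 * (D + 1) + 1 = (2 * D + 1) + 1 + 1 by ring, Finset.sum_range_succ,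
      Finset.sum_range_succ, ih, Finset.sum_range_succ _ (D + 1), dbl_odd,
      show 2 * D + 1 + 1 = 2 * (D + 1) by ring, dbl_even, ← pow_mul]
    simp

theorem weight_dbl (D : ℕ) (c : ℕ → ℤ) : weight (2 * D) (dbl c) ≤ 2 * weight D c := by
  unfold weight
  induction D with
  | zero =>
    have := dbl_even c 0
    simp only [Nat.mul_zero] at this
    simp only [Nat.mul_zero, zero_add, Finset.range_one, Finset.sum_singleton, this]
    have := abs_nonneg (c 0)
    omega
  | succ D ih =>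
    rw [show 2 * (D + 1) + 1 = (2 * D + 1) + 1 + 1 by ring, Finset.sum_range_succ,
      Finset.sum_range_succ, Finset.sum_range_succ _ (D + 1), dbl_odd,
      show 2 * D + 1 + 1 = 2 * (D + 1) by ring, dbl_even, abs_zero]
    have := abs_nonneg (c (D + 1))
    omega

theorem S_dbl {n m : ℕ} (h : 2 * n ≤ m) (θ : ℝ) : S n (2 * θ) ⊆ S m θ := by
  rintro s ⟨D, c, h1, h2, h3⟩
  refine ⟨2 * D, dbl c, ?_, ?_, ?_⟩
  · have h4 := weight_dbl D c
    have h5 : (2 : ℤ) * n ≤ m := by exact_mod_cast h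
    omega
  · rw [val_dbl]
    exact h2
  · rw [val_dbl]
    exact h3

theorem DPV_of_subset {n m : ℕ} {R θ θ' : ℝ} (h : S n θ ⊆ S m θ') (hD : DPV n R θ) :
    DPV m R θ' := by
  intro x h1 h2 h3 h4
  obtain ⟨s, hs, hs2⟩ := hD x h1 h2 h3 h4
  exact ⟨s, h hs, hs2⟩

theorem RDPV_of_subset {n m : ℕ} {θ θ' : ℝ} (h : S n θ ⊆ S m θ') : RDPV n θ ≤ RDPV m θ' := by
  unfold RDPV
  apply sSup_le_sSup
  rintro x ⟨R, h1, h2, h3⟩
  exact ⟨R, h1, DPV_of_subset h h2, h3⟩

theorem zz_sub (θ : ℝ) (k : ℤ) : zz (θ - k * (2 * Real.pi)) = zz θ := by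
  unfold zz
  have := Complex.exp_periodic.sub_int_mul_eq (x := (θ : ℂ) * Complex.I) k
  rw [← this]
  congr 1
  push_cast
  ring

theorem S_sub (n : ℕ) (θ : ℝ) (k : ℤ) : S n θ ⊆ S n (θ - k * (2 * Real.pi)) := by
  rintro s ⟨D, c, h1, h2, h3⟩
  have e : val (θ - k * (2 * Real.pi)) D c = val θ D c := by
    unfold val
    rw [zz_sub]
  exact ⟨D, c, h1, by rw [e]; exact h2, by rw [e]; exact h3⟩

/-! ### Measurability -/

/-- the polynomials of weight at most `n` -/
def Pn (n : ℕ) : Set ℤ[X] := {P | ∃ (D : ℕ) (c : ℕ → ℤ), weight D c ≤ n ∧ P = poly D c}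

theorem finite_Pn (n : ℕ) : (Pn n).Finite := by
  have h1 : Pn n ⊆ (fun f : Fin n → (Finset.Icc (-(n : ℤ)) n) =>
      ∑ i : Fin n, C ((f i : ℤ)) * X ^ (i : ℕ)) '' univ := by
    rintro P ⟨D, c, h2, rfl⟩
    obtain ⟨h3, h4⟩ := weight_bounds h2
    have h5 : ∀ i : Fin n, (if (i : ℕ) < D + 1 then c i else 0) ∈ Finset.Icc (-(n : ℤ)) n := by
      intro i
      rw [Finset.mem_Icc]
      split_ifs with hi
      · exact abs_le.1 (h4 i (by omega))
      · constructor <;> omega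
    refine ⟨fun i => ⟨_, h5 i⟩, mem_univ _, ?_⟩
    ext j
    rw [coeff_poly]
    simp only [finsetSum_coeff, coeff_C_mul, coeff_X_pow, mul_ite, mul_one, mul_zero]
    by_cases hj : j < n
    · rw [Finset.sum_eq_single (⟨j, hj⟩ : Fin n)]
      · simp
      · intro b _ hb
        rw [if_neg]
        intro h
        exact hb (Fin.ext h.symm)
      · intro h
        exact absurd (Finset.mem_univ _) h
    · rw [Finset.sum_eq_zero, if_neg (by omega)]
      intro b _
      rw [if_neg]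
      have := b.2
      omega
  exact (Set.toFinite _).subset h1

theorem mem_S_iff (n : ℕ) (θ : ℝ) (s : ℂ) :
    s ∈ S n θ ↔ ∃ P ∈ Pn n, ev P (zz θ) ≠ 0 ∧ s = lg (ev P (zz θ)) := by
  constructor
  · rintro ⟨D, c, h1, h2, h3⟩
    refine ⟨poly D c, ⟨D, c, h1, rfl⟩, ?_, ?_⟩
    · rw [ev_poly]; exact h2
    · rw [ev_poly]; exact h3
  · rintro ⟨P, ⟨D, c, h1, rfl⟩, h2, h3⟩
    rw [ev_poly] at h2 h3
    exact ⟨D, c, h1, h2, h3⟩

theorem finite_S (n : ℕ) (θ : ℝ) : (S n θ).Finite := by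
  refine ((finite_Pn n).image fun P => lg (ev P (zz θ))).subset ?_
  intro s hs
  obtain ⟨P, hP, -, h⟩ := (mem_S_iff n θ s).1 hs
  exact ⟨P, hP, h.symm⟩

theorem measurable_ev (P : ℤ[X]) : Measurable fun θ : ℝ => ev P (zz θ) := by
  have h1 : Continuous fun θ : ℝ => zz θ := by
    unfold zz
    fun_prop
  have h2 : Continuous fun θ : ℝ => ev P (zz θ) := by
    unfold ev
    exact (Polynomial.continuous _).comp h1
  exact h2.measurable

theorem measurable_lg : Measurable lg := by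
  have h1 : Measurable fun w : ℂ => toIcoMod Real.two_pi_pos 0 w.arg := by
    simp only [toIcoMod_eq_fract_mul]
    exact ((measurable_fract.comp (Complex.measurable_arg.div_const _))).mul_const _
  have h2 : Measurable fun w : ℂ => Real.log ‖w‖ := Real.measurable_log.comp measurable_norm
  have h3 : lg = fun w : ℂ => ((Real.log ‖w‖ : ℝ) : ℂ) +
      ((toIcoMod Real.two_pi_pos 0 w.arg : ℝ) : ℂ) * Complex.I := by
    funext w
    apply Complex.ext
    · simp [lg]
    · simp [lg]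
  rw [h3]
  exact (Complex.measurable_ofReal.comp h2).add
    ((Complex.measurable_ofReal.comp h1).mul_const _)

theorem measurableSet_DPV (n : ℕ) (R : ℝ) : MeasurableSet {θ : ℝ | DPV n R θ} := by
  obtain ⟨Q, hQ⟩ : ∃ Q : Set ℂ, Q = {x | -Real.log R ≤ x.re ∧ x.re ≤ 0 ∧ 0 ≤ x.im ∧
    x.im ≤ 2 * Real.pi} := ⟨_, rfl⟩
  obtain ⟨t, ht1, ht2, ht3⟩ :=
    (TopologicalSpace.IsSeparable.of_separableSpace Q).exists_countable_dense_subset
  have h1 : {θ : ℝ | DPV n R θ} =
      ⋂ x ∈ t, ⋃ P ∈ Pn n, {θ : ℝ | ev P (zz θ) ≠ 0 ∧ ‖x - lg (ev P (zz θ))‖ ≤ 1 / 10} := by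
    ext θ
    simp only [mem_ofPred_eq, mem_iInter, mem_iUnion]
    constructor
    · intro h x hx
      have hxQ := ht1 hx
      rw [hQ] at hxQ
      obtain ⟨s, hs, hs2⟩ := h x hxQ.1 hxQ.2.1 hxQ.2.2.1 hxQ.2.2.2
      obtain ⟨P, hP, hP1, hP2⟩ := (mem_S_iff n θ s).1 hs
      exact ⟨P, hP, hP1, by rw [← hP2]; exact hs2⟩
    · intro h x h3 h4 h5 h6
      have hcl : IsClosed (⋃ s ∈ S n θ, Metric.closedBall s (1 / 10)) :=
        (finite_S n θ).isClosed_biUnion fun s _ => Metric.isClosed_closedBall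
      have hsub : t ⊆ ⋃ s ∈ S n θ, Metric.closedBall s (1 / 10) := by
        intro y hy
        obtain ⟨P, hP, hP1, hP2⟩ := h y hy
        simp only [mem_iUnion]
        refine ⟨lg (ev P (zz θ)), (mem_S_iff n θ _).2 ⟨P, hP, hP1, rfl⟩, ?_⟩
        rw [Metric.mem_closedBall, dist_eq_norm]
        exact hP2
      have hx : x ∈ closure t := ht3 (by rw [hQ]; exact ⟨h3, h4, h5, h6⟩)
      have := closure_minimal hsub hcl hx
      simp only [mem_iUnion] at this
      obtain ⟨s, hs, hs2⟩ := this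
      rw [Metric.mem_closedBall, dist_eq_norm] at hs2
      exact ⟨s, hs, hs2⟩
  rw [h1]
  apply MeasurableSet.biInter ht2
  intro x _
  apply MeasurableSet.biUnion (finite_Pn n).countable
  intro P _
  have h2 := measurable_ev P
  apply MeasurableSet.inter
  · exact h2 (measurableSet_singleton 0).compl
  · exact measurableSet_le ((measurable_const.sub (measurable_lg.comp h2)).norm) measurable_const

theorem measurableSet_RDPV (n : ℕ) (a : ℝ) :
    MeasurableSet {θ : ℝ | (Real.exp a : EReal) ≤ RDPV n θ} := by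
  have h1 : {θ : ℝ | (Real.exp a : EReal) ≤ RDPV n θ} =
      ⋂ q : ℚ, ⋂ _ : 0 < (q : ℝ) ∧ (q : ℝ) < Real.exp a, {θ : ℝ | DPV n q θ} := by
    ext θ
    simp only [mem_ofPred_eq, mem_iInter]
    constructor
    · intro h q hq
      have h2 : ((q : ℝ) : EReal) < RDPV n θ :=
        lt_of_lt_of_le (EReal.coe_lt_coe_iff.2 hq.2) h
      obtain ⟨x, ⟨R, hR, hD, rfl⟩, hx⟩ := lt_sSup_iff.1 h2
      have h3 : (q : ℝ) < R := EReal.coe_lt_coe_iff.1 hx
      intro y h4 h5 h6 h7
      refine hD y (le_trans ?_ h4) h5 h6 h7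
      have := Real.log_le_log hq.1 h3.le
      linarith
    · intro h
      apply le_of_forall_lt
      intro y hy
      obtain ⟨q, hq1, hq2⟩ := EReal.lt_iff_exists_rat_btwn.1
        (max_lt hy (EReal.coe_lt_coe_iff.2 (Real.exp_pos a)))
      have hq3 : (0 : ℝ) < q := by
        have := (le_max_right _ _).trans_lt hq1
        exact_mod_cast this
      have hq4 : (q : ℝ) < Real.exp a := by exact_mod_cast hq2
      refine ((le_max_left _ _).trans_lt hq1).trans_le ?_
      exact le_sSup ⟨q, hq3, h q ⟨hq3, hq4⟩, rfl⟩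
  rw [h1]
  exact MeasurableSet.iInter fun q => MeasurableSet.iInter fun _ => measurableSet_DPV n q

end Pool.Agent.K7.H54.DP
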