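import Pool.Agent.K7.H54.DP.ZO2

/-!
# Project DP: the zero-one law for the growth of `R_DPV(n, θ)`
-/

set_option autoImplicit false

namespace Pool.Agent.K7.H54.DP

open Polynomial MeasureTheory Set Filter

theorem exp_mono_EReal {a b : ℝ} (h : a ≤ b) : (Real.exp a : EReal) ≤ (Real.exp b : EReal) :=
  EReal.coe_le_coe_iff.2 (Real.exp_le_exp.2 h)

theorem law_eventually (φ : ℕ → ℝ) (K : ℝ) (hφ : ∀ n, 0 ≤ φ n) (hK : 0 < K)
    (h2 : ∀ᶠ n in atTop, φ (2 * n) ≤ K * φ n ∧ φ (2 * n + 1) ≤ K * φ n) :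
    (∀ᵐ θ ∂(volume.restrict (Ico (0 : ℝ) (2 * Real.pi))),
      ∃ c : ℝ, 0 < c ∧ ∀ᶠ n : ℕ in atTop, (Real.exp (c * φ n) : EReal) ≤ RDPV n θ) ∨
    (∀ᵐ θ ∂(volume.restrict (Ico (0 : ℝ) (2 * Real.pi))),
      ¬ ∃ c : ℝ, 0 < c ∧ ∀ᶠ n : ℕ in atTop, (Real.exp (c * φ n) : EReal) ≤ RDPV n θ) := by
  obtain ⟨E, hE⟩ : ∃ E : Set ℝ, E = {θ | ∃ c : ℝ, 0 < c ∧ ∀ᶠ n : ℕ in atTop,
    (Real.exp (c * φ n) : EReal) ≤ RDPV n θ} := ⟨_, rfl⟩
  have hmeas : MeasurableSet E := by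
    have h1 : E = ⋃ m : ℕ, ⋃ N : ℕ, ⋂ n : ℕ, ⋂ _ : N ≤ n,
        {θ | (Real.exp (1 / ((m : ℝ) + 1) * φ n) : EReal) ≤ RDPV n θ} := by
      ext θ
      rw [hE]
      simp only [mem_ofPred_eq, mem_iUnion, mem_iInter]
      constructor
      · rintro ⟨c, hc, hev⟩
        obtain ⟨m, hm⟩ := exists_nat_one_div_lt hc
        obtain ⟨N, hN⟩ := eventually_atTop.1 hev
        exact ⟨m, N, fun n hn => (exp_mono_EReal
          (mul_le_mul_of_nonneg_right hm.le (hφ n))).trans (hN n hn)⟩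
      · rintro ⟨m, N, h⟩
        exact ⟨1 / ((m : ℝ) + 1), by positivity, eventually_atTop.2 ⟨N, h⟩⟩
    rw [h1]
    exact MeasurableSet.iUnion fun m => MeasurableSet.iUnion fun N => MeasurableSet.iInter fun n =>
      MeasurableSet.iInter fun _ => measurableSet_RDPV n _
  have hmain := zero_one hmeas (fun θ k hθ => by
    rw [hE] at hθ ⊢
    obtain ⟨c, hc, hev⟩ := hθ
    exact ⟨c, hc, hev.mono fun n hn => hn.trans (RDPV_of_subset (S_sub n θ k))⟩) (fun θ hθ => by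
    rw [hE] at hθ ⊢
    obtain ⟨c, hc, hev⟩ := hθ
    refine ⟨c / K, by positivity, ?_⟩
    obtain ⟨N, hN⟩ := eventually_atTop.1 (hev.and h2)
    filter_upwards [eventually_ge_atTop (2 * N)] with m hm
    obtain ⟨h3, h4, h5⟩ := hN (m / 2) (by omega)
    have h6 : φ m ≤ K * φ (m / 2) := by
      rcases Nat.even_or_odd' m with ⟨i, hi | hi⟩
      · have : m / 2 = i := by omega
        rw [this] at h4 ⊢
        rw [hi]
        exact h4
      · have : m / 2 = i := by omega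
        rw [this] at h5 ⊢
        rw [hi]
        exact h5
    have h7 : c / K * φ m ≤ c * φ (m / 2) := by
      calc c / K * φ m ≤ c / K * (K * φ (m / 2)) := mul_le_mul_of_nonneg_left h6 (by positivity)
        _ = c * φ (m / 2) := by field_simp
    exact ((exp_mono_EReal h7).trans h3).trans (RDPV_of_subset (S_dbl (by omega) θ)))
  rw [hE] at hmain
  exact hmain

theorem law_frequently (φ : ℕ → ℝ) (K : ℝ) (hφ : ∀ n, 0 ≤ φ n) (hK : 0 < K)
    (h2 : ∀ᶠ n in atTop, φ (2 * n) ≤ K * φ n ∧ φ (2 * n + 1) ≤ K * φ n) :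
    (∀ᵐ θ ∂(volume.restrict (Ico (0 : ℝ) (2 * Real.pi))),
      ∃ c : ℝ, 0 < c ∧ ∃ᶠ n : ℕ in atTop, (Real.exp (c * φ n) : EReal) ≤ RDPV n θ) ∨
    (∀ᵐ θ ∂(volume.restrict (Ico (0 : ℝ) (2 * Real.pi))),
      ¬ ∃ c : ℝ, 0 < c ∧ ∃ᶠ n : ℕ in atTop, (Real.exp (c * φ n) : EReal) ≤ RDPV n θ) := by
  obtain ⟨E, hE⟩ : ∃ E : Set ℝ, E = {θ | ∃ c : ℝ, 0 < c ∧ ∃ᶠ n : ℕ in atTop,
    (Real.exp (c * φ n) : EReal) ≤ RDPV n θ} := ⟨_, rfl⟩
  have hmeas : MeasurableSet E := by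
    have h1 : E = ⋃ m : ℕ, ⋂ N : ℕ, ⋃ n : ℕ, ⋃ _ : N ≤ n,
        {θ | (Real.exp (1 / ((m : ℝ) + 1) * φ n) : EReal) ≤ RDPV n θ} := by
      ext θ
      rw [hE]
      simp only [mem_ofPred_eq, mem_iUnion, mem_iInter]
      constructor
      · rintro ⟨c, hc, hev⟩
        obtain ⟨m, hm⟩ := exists_nat_one_div_lt hc
        refine ⟨m, fun N => ?_⟩
        obtain ⟨n, hn, h3⟩ := frequently_atTop.1 hev N
        exact ⟨n, hn, (exp_mono_EReal (mul_le_mul_of_nonneg_right hm.le (hφ n))).trans h3⟩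
      · rintro ⟨m, h⟩
        refine ⟨1 / ((m : ℝ) + 1), by positivity, frequently_atTop.2 fun N => ?_⟩
        obtain ⟨n, hn, h3⟩ := h N
        exact ⟨n, hn, h3⟩
    rw [h1]
    exact MeasurableSet.iUnion fun m => MeasurableSet.iInter fun N => MeasurableSet.iUnion fun n =>
      MeasurableSet.iUnion fun _ => measurableSet_RDPV n _
  have hmain := zero_one hmeas (fun θ k hθ => by
    rw [hE] at hθ ⊢
    obtain ⟨c, hc, hev⟩ := hθ
    exact ⟨c, hc, hev.mono fun n hn => hn.trans (RDPV_of_subset (S_sub n θ k))⟩) (fun θ hθ => by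
    rw [hE] at hθ ⊢
    obtain ⟨c, hc, hev⟩ := hθ
    refine ⟨c / K, by positivity, ?_⟩
    rw [frequently_atTop]
    intro N
    obtain ⟨n, hn, h3, h4⟩ := frequently_atTop.1 (hev.and_eventually h2) N
    refine ⟨2 * n, by omega, ?_⟩
    have h7 : c / K * φ (2 * n) ≤ c * φ n := by
      calc c / K * φ (2 * n) ≤ c / K * (K * φ n) :=
            mul_le_mul_of_nonneg_left h4.1 (by positivity)
        _ = c * φ n := by field_simp
    exact ((exp_mono_EReal h7).trans h3).trans (RDPV_of_subset (S_dbl le_rfl θ)))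
  rw [hE] at hmain
  exact hmain

end Pool.Agent.K7.H54.DP
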